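import Mathlib

set_option autoImplicit false
open MeasureTheory Set Filter Topology

namespace Pool.Agent.Lib.B7ins

/-- fractional part of `2^k x` -/
noncomputable def fr (k : ℕ) (x : ℝ) : ℝ := Int.fract (2 ^ k * x)

theorem fr_nonneg (k : ℕ) (x : ℝ) : 0 ≤ fr k x := Int.fract_nonneg _
theorem fr_lt (k : ℕ) (x : ℝ) : fr k x < 1 := Int.fract_lt_one _
theorem fr_zero (x : ℝ) : fr 0 x = Int.fract x := by simp [fr]

theorem abs_fr_sub_le (k : ℕ) (x : ℝ) : |fr k x - fr (k+1) x| ≤ 1 := by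
  have h1 := fr_nonneg k x
  have h2 := fr_lt k x
  have h3 := fr_nonneg (k+1) x
  have h4 := fr_lt (k+1) x
  rw [abs_le]; constructor <;> linarith

theorem fr_succ (k : ℕ) (x : ℝ) : fr (k+1) x = fr k (Int.fract (2 * x)) := by
  have h1 : (2:ℝ) ^ k * Int.fract (2 * x) = 2 ^ (k+1) * x - ((2 ^ k * ⌊2 * x⌋ : ℤ) : ℝ) := by
    rw [Int.fract]
    push_cast
    ring
  unfold fr
  rw [h1, Int.fract_sub_intCast]

theorem fr_fract (k : ℕ) (x : ℝ) : fr k (Int.fract x) = fr k x := by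
  have h1 : (2:ℝ) ^ k * Int.fract x = 2 ^ k * x - ((2 ^ k * ⌊x⌋ : ℤ) : ℝ) := by
    rw [Int.fract]
    push_cast
    ring
  unfold fr
  rw [h1, Int.fract_sub_intCast]

theorem measurable_fr (k : ℕ) : Measurable (fr k) := by
  unfold fr
  exact measurable_fract.comp (by fun_prop)

/-- weights -/
noncomputable def hh (L : ℝ) (k : ℕ) (r : ℝ) : ℝ := max r (L ^ k) - max r (L ^ (k+1))

section
variable (L : ℝ) (hL0 : 0 < L) (hL : L < 1/2)

include hL0 hL in
theorem pow_succ_le (k : ℕ) : L ^ (k+1) ≤ L ^ k :=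
  pow_le_pow_of_le_one hL0.le (by linarith) (Nat.le_succ k)

include hL0 hL in
theorem hh_nonneg (k : ℕ) (r : ℝ) : 0 ≤ hh L k r := by
  unfold hh
  have := max_le_max (le_refl r) (pow_succ_le L hL0 hL k)
  linarith

include hL0 hL in
theorem hh_le (k : ℕ) (r : ℝ) : hh L k r ≤ L ^ k - L ^ (k+1) := by
  unfold hh
  have h := pow_succ_le L hL0 hL k
  rcases le_total r (L ^ k) with h1 | h1
  · rw [max_eq_right h1]
    have := le_max_right r (L ^ (k+1))
    linarith
  · rw [max_eq_left h1, max_eq_left (h.trans h1)]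
    linarith

include hL0 hL in
theorem hh_le' (k : ℕ) (r : ℝ) : hh L k r ≤ L ^ k := by
  have h1 := hh_le L hL0 hL k r
  have h2 : 0 < L ^ (k+1) := by positivity
  linarith

include hL0 hL in
theorem hh_anti (k : ℕ) {r r' : ℝ} (h : r ≤ r') : hh L k r' ≤ hh L k r := by
  unfold hh
  have h0 := pow_succ_le L hL0 hL k
  rcases le_total r' (L ^ (k+1)) with h1 | h1
  · rw [max_eq_right h1, max_eq_right (h.trans h1), max_eq_right (h1.trans h0),
      max_eq_right ((h.trans h1).trans h0)]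
  · rw [max_eq_left h1]
    rcases le_total r' (L ^ k) with h2 | h2
    · rw [max_eq_right h2, max_eq_right (h.trans h2)]
      have := max_le h h1
      linarith
    · rw [max_eq_left h2]
      have := max_le_max (le_refl r) h0
      linarith

include hL0 hL in
theorem hh_zero_of_le {k : ℕ} {r : ℝ} (h : L ^ k ≤ r) : hh L k r = 0 := by
  unfold hh
  rw [max_eq_left h, max_eq_left ((pow_succ_le L hL0 hL k).trans h)]
  ring

include hL0 hL in
theorem hh_zero_of_le' {k n : ℕ} {r : ℝ} (h : L ^ n ≤ r) (hk : n ≤ k) : hh L k r = 0 :=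
  hh_zero_of_le L hL0 hL ((pow_le_pow_of_le_one hL0.le (by linarith) hk).trans h)

include hL0 in
theorem hh_scale (k : ℕ) (r : ℝ) : hh L (k+1) (L * r) = L * hh L k r := by
  unfold hh
  rw [pow_succ' L k, pow_succ' L (k+1), ← mul_max_of_nonneg _ _ hL0.le, ← mul_max_of_nonneg _ _ hL0.le]
  ring_nf

theorem hh_cont (k : ℕ) : Continuous (hh L k) := by
  unfold hh; fun_prop

theorem sum_hh (n : ℕ) (r : ℝ) : ∑ k ∈ Finset.range n, hh L k r = max r 1 - max r (L ^ n) := by
  induction n with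
  | zero => simp
  | succ n ih => rw [Finset.sum_range_succ, ih]; unfold hh; ring

include hL0 hL in
theorem summable_pow : Summable (fun k : ℕ => L ^ k) :=
  summable_geometric_of_lt_one hL0.le (by linarith)

include hL0 hL in
theorem summable_term (r x : ℝ) : Summable (fun k => hh L k r * (fr k x - fr (k+1) x)) := by
  refine Summable.of_norm_bounded (summable_pow L hL0 hL) fun k => ?_
  rw [Real.norm_eq_abs, abs_mul, abs_of_nonneg (hh_nonneg L hL0 hL k r)]
  have h1 := hh_le' L hL0 hL k r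
  have h2 := abs_fr_sub_le k x
  have h3 := hh_nonneg L hL0 hL k r
  nlinarith [abs_nonneg (fr k x - fr (k+1) x)]

/-- the gate function: position of the label `x` at distance `r` -/
noncomputable def YY (r x : ℝ) : ℝ :=
  Int.fract x + (1 - 2*L)/(1-L) * ∑' k, hh L k r * (fr k x - fr (k+1) x)

theorem YY_fract (r x : ℝ) : YY L r (Int.fract x) = YY L r x := by
  unfold YY
  simp only [fr_fract, Int.fract_fract]

include hL0 hL in
theorem YY_rec (r x : ℝ) (hr : r ≤ 1) :
    YY L (L * r) x = (1-L) * (2 * Int.fract x - Int.fract (2*x)) + L * YY L r (Int.fract (2*x)) := by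
  unfold YY
  have h0 : hh L 0 (L*r) = 1 - L := by
    unfold hh
    rw [zero_add, pow_one, pow_zero, max_eq_right, max_eq_right]
    · nlinarith
    · nlinarith
  rw [(summable_term L hL0 hL (L*r) x).tsum_eq_zero_add]
  have h1 : ∀ k, hh L (k+1) (L*r) * (fr (k+1) x - fr (k+1+1) x) =
      L * (hh L k r * (fr k (Int.fract (2*x)) - fr (k+1) (Int.fract (2*x)))) := by
    intro k
    rw [hh_scale L hL0, fr_succ, fr_succ]
    ring
  simp_rw [h1]
  rw [tsum_mul_left, h0, fr_zero, Int.fract_fract]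
  have h2 : fr (0+1) x = Int.fract (2*x) := by
    rw [fr_succ, fr_zero, Int.fract_fract]
  rw [h2]
  have h3 : 1 - L ≠ 0 := by linarith
  field_simp
  ring

include hL0 hL in
theorem YY_big (r x : ℝ) (hr : L ≤ r) :
    YY L r x = Int.fract x + (1-2*L)/(1-L) * (max r 1 - r) * (Int.fract x - Int.fract (2*x)) := by
  unfold YY
  rw [tsum_eq_single 0]
  · rw [fr_zero, fr_succ, fr_zero, Int.fract_fract]
    unfold hh
    rw [zero_add, pow_one, pow_zero, max_eq_left hr]
    ring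
  · intro k hk
    rw [hh_zero_of_le' L hL0 hL (n := 1) (by simpa using hr) (Nat.one_le_iff_ne_zero.2 hk), zero_mul]

theorem fract_two (x : ℝ) (hx : x ∈ Ico (0:ℝ) 1) :
    (x < 1/2 ∧ Int.fract (2*x) = 2*x) ∨ (1/2 ≤ x ∧ Int.fract (2*x) = 2*x - 1) := by
  rcases lt_or_ge x (1/2) with h | h
  · left
    exact ⟨h, Int.fract_eq_self.2 ⟨by linarith [hx.1], by linarith⟩⟩
  · right
    refine ⟨h, ?_⟩
    rw [Int.fract_eq_iff]
    exact ⟨by linarith, by linarith [hx.2], 1, by push_cast; ring⟩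

include hL0 hL in
theorem coef_bounds (r : ℝ) (hr : L ≤ r) : 0 ≤ (1-2*L)/(1-L) * (max r 1 - r) ∧
    (1-2*L)/(1-L) * (max r 1 - r) ≤ 1 - 2*L := by
  have h1 : 0 < 1 - L := by linarith
  have h2 : 0 ≤ max r 1 - r := by
    have := le_max_left r 1
    linarith
  have h3 : max r 1 - r ≤ 1 - L := by
    rcases le_total r 1 with h | h
    · rw [max_eq_right h]; linarith
    · rw [max_eq_left h]; linarith
  have h4 : 0 ≤ (1-2*L)/(1-L) := div_nonneg (by linarith) h1.le
  refine ⟨mul_nonneg h4 h2, ?_⟩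
  calc (1-2*L)/(1-L) * (max r 1 - r) ≤ (1-2*L)/(1-L) * (1-L) := mul_le_mul_of_nonneg_left h3 h4
    _ = 1 - 2*L := by field_simp

/-- range and strict monotonicity for positive `r` -/
theorem mono_pos (n : ℕ) : ∀ r, L ^ n ≤ r → 0 < L → L < 1/2 →
    (∀ x, 0 ≤ YY L r x ∧ YY L r x < 1) ∧
    (∀ x y, x ∈ Ico (0:ℝ) 1 → y ∈ Ico (0:ℝ) 1 → x < y → YY L r x < YY L r y) := by
  induction n with
  | zero =>
    intro r hr hL0 hL
    have hr1 : 1 ≤ r := by simpa using hr
    have h : ∀ x, YY L r x = Int.fract x := by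
      intro x
      rw [YY_big L hL0 hL r x (by linarith), max_eq_left hr1]; ring
    refine ⟨fun x => ?_, fun x y hx hy hxy => ?_⟩
    · rw [h]; exact ⟨Int.fract_nonneg _, Int.fract_lt_one _⟩
    · rw [h, h, Int.fract_eq_self.2 hx, Int.fract_eq_self.2 hy]; exact hxy
  | succ n ih =>
    intro r hr hL0 hL
    rcases le_or_gt L r with hLr | hLr
    · obtain ⟨hc0, hc1⟩ := coef_bounds L hL0 hL r hLr
      have key : ∀ x, x ∈ Ico (0:ℝ) 1 → (x < 1/2 ∧ YY L r x = (1 - (1-2*L)/(1-L) * (max r 1 - r)) * x) ∨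
          (1/2 ≤ x ∧ YY L r x = 1 - (1 - (1-2*L)/(1-L) * (max r 1 - r)) * (1 - x)) := by
        intro x hx
        rw [YY_big L hL0 hL r x hLr, Int.fract_eq_self.2 hx]
        rcases fract_two x hx with ⟨h1, h2⟩ | ⟨h1, h2⟩
        · left; refine ⟨h1, ?_⟩; rw [h2]; ring
        · right; refine ⟨h1, ?_⟩; rw [h2]; ring
      set c := (1-2*L)/(1-L) * (max r 1 - r) with hc
      refine ⟨fun x => ?_, fun x y hx hy hxy => ?_⟩
      · rw [← YY_fract]
        have hx : Int.fract x ∈ Ico (0:ℝ) 1 := ⟨Int.fract_nonneg _, Int.fract_lt_one _⟩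
        rcases key _ hx with ⟨h1, h2⟩ | ⟨h1, h2⟩
        · rw [h2]
          constructor
          · exact mul_nonneg (by linarith) hx.1
          · nlinarith [hx.1]
        · rw [h2]
          constructor
          · nlinarith [hx.2]
          · have : 0 < (1 - c) * (1 - Int.fract x) := mul_pos (by linarith) (by linarith [hx.2])
            linarith
      · rcases key _ hx with ⟨h1, h2⟩ | ⟨h1, h2⟩ <;> rcases key _ hy with ⟨h3, h4⟩ | ⟨h3, h4⟩
        · rw [h2, h4]; exact mul_lt_mul_of_pos_left hxy (by linarith)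
        · rw [h2, h4]; nlinarith [hx.1, hy.2]
        · linarith
        · rw [h2, h4]
          have : (1 - c) * (1 - y) < (1-c) * (1 - x) := mul_lt_mul_of_pos_left (by linarith) (by linarith)
          linarith
    · obtain ⟨ih1, ih2⟩ := ih (r / L) (by rw [le_div_iff₀ hL0]; rw [pow_succ] at hr; exact hr) hL0 hL
      have hr1 : r / L ≤ 1 := by rw [div_le_one hL0]; exact hLr.le
      have hrec : ∀ x, YY L r x = (1-L) * (2 * Int.fract x - Int.fract (2*x)) +
          L * YY L (r / L) (Int.fract (2*x)) := by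
        intro x
        rw [← YY_rec L hL0 hL (r / L) x hr1]
        congr 1
        field_simp
      refine ⟨fun x => ?_, fun x y hx hy hxy => ?_⟩
      · rw [← YY_fract]
        have hx : Int.fract x ∈ Ico (0:ℝ) 1 := ⟨Int.fract_nonneg _, Int.fract_lt_one _⟩
        rw [hrec, Int.fract_fract]
        obtain ⟨h3, h4⟩ := ih1 (Int.fract (2 * Int.fract x))
        rcases fract_two _ hx with ⟨h1, h2⟩ | ⟨h1, h2⟩
        · rw [h2] at h3 h4 ⊢
          constructor <;> nlinarith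
        · rw [h2] at h3 h4 ⊢
          constructor <;> nlinarith
      · rw [hrec x, hrec y, Int.fract_eq_self.2 hx, Int.fract_eq_self.2 hy]
        obtain ⟨h3, h4⟩ := ih1 (Int.fract (2*x))
        obtain ⟨h5, h6⟩ := ih1 (Int.fract (2*y))
        rcases fract_two _ hx with ⟨h1, h2⟩ | ⟨h1, h2⟩ <;> rcases fract_two _ hy with ⟨h7, h8⟩ | ⟨h7, h8⟩
        · have := ih2 (Int.fract (2*x)) (Int.fract (2*y)) ⟨Int.fract_nonneg _, Int.fract_lt_one _⟩
            ⟨Int.fract_nonneg _, Int.fract_lt_one _⟩ (by rw [h2, h8]; linarith)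
          rw [h2, h8] at this ⊢
          nlinarith
        · rw [h2] at h3 h4 ⊢
          rw [h8] at h5 h6 ⊢
          nlinarith
        · linarith
        · have := ih2 (Int.fract (2*x)) (Int.fract (2*y)) ⟨Int.fract_nonneg _, Int.fract_lt_one _⟩
            ⟨Int.fract_nonneg _, Int.fract_lt_one _⟩ (by rw [h2, h8]; linarith)
          rw [h2, h8] at this ⊢
          nlinarith

include hL0 hL in
theorem exists_pow_le (r : ℝ) (hr : 0 < r) : ∃ n : ℕ, L ^ n ≤ r := by
  obtain ⟨n, hn⟩ := exists_pow_lt_of_lt_one hr (show L < 1 by linarith)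
  exact ⟨n, hn.le⟩

/-- Lipschitz in `r` -/
theorem YY_lip (hL0 : 0 < L) (hL : L < 1/2) (r r' x : ℝ) :
    |YY L r x - YY L r' x| ≤ (1-2*L)/(1-L) * |r - r'| := by
  have hw : 0 ≤ (1-2*L)/(1-L) := div_nonneg (by linarith) (by linarith)
  wlog h : r ≤ r' generalizing r r'
  · rw [abs_sub_comm, abs_sub_comm r r']
    exact this r' r (le_of_not_ge h)
  have h1 : YY L r x - YY L r' x =
      (1-2*L)/(1-L) * ∑' k, (hh L k r - hh L k r') * (fr k x - fr (k+1) x) := by
    unfold YY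
    have : ∀ k, (hh L k r - hh L k r') * (fr k x - fr (k+1) x) =
      hh L k r * (fr k x - fr (k+1) x) - hh L k r' * (fr k x - fr (k+1) x) := fun k => by ring
    simp_rw [this]
    rw [(summable_term L hL0 hL r x).tsum_sub (summable_term L hL0 hL r' x)]
    ring
  rw [h1, abs_mul, abs_of_nonneg hw]
  refine mul_le_mul_of_nonneg_left ?_ hw
  have hs : Summable (fun k => (hh L k r - hh L k r') * (fr k x - fr (k+1) x)) := by
    have := (summable_term L hL0 hL r x).sub (summable_term L hL0 hL r' x)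
    refine this.congr fun k => by ring
  have hlim := hs.hasSum.tendsto_sum_nat.abs
  refine le_of_tendsto hlim (Eventually.of_forall fun n => ?_)
  calc |∑ k ∈ Finset.range n, (hh L k r - hh L k r') * (fr k x - fr (k+1) x)|
      ≤ ∑ k ∈ Finset.range n, |(hh L k r - hh L k r') * (fr k x - fr (k+1) x)| :=
        Finset.abs_sum_le_sum_abs _ _
    _ ≤ ∑ k ∈ Finset.range n, (hh L k r - hh L k r') := by
        refine Finset.sum_le_sum fun k _ => ?_
        have h2 := hh_anti L hL0 hL k h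
        rw [abs_mul, abs_of_nonneg (by linarith : 0 ≤ hh L k r - hh L k r')]
        have h3 := abs_fr_sub_le k x
        nlinarith [abs_nonneg (fr k x - fr (k+1) x)]
    _ = (max r 1 - max r (L ^ n)) - (max r' 1 - max r' (L ^ n)) := by
        rw [Finset.sum_sub_distrib, sum_hh L, sum_hh L]
    _ ≤ |r - r'| := by
        rw [abs_sub_comm, abs_of_nonneg (by linarith : 0 ≤ r' - r)]
        have h2 := max_le_max h (le_refl (1:ℝ))
        have h3 : max r' (L ^ n) ≤ max r (L ^ n) + (r' - r) := by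
          refine max_le ?_ ?_
          · have := le_max_left r (L ^ n); linarith
          · have := le_max_right r (L ^ n); linarith
        linarith

theorem YY_cont (hL0 : 0 < L) (hL : L < 1/2) (x : ℝ) : Continuous (fun r => YY L r x) := by
  have hw : 0 ≤ (1-2*L)/(1-L) := div_nonneg (by linarith) (by linarith)
  have : LipschitzWith ⟨(1-2*L)/(1-L), hw⟩ (fun r => YY L r x) := by
    refine LipschitzWith.of_dist_le_mul fun r r' => ?_
    rw [Real.dist_eq, Real.dist_eq]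
    exact YY_lip L hL0 hL r r' x
  exact this.continuous

/-- `YY L r x` for `r ≤ 0` is `YY L 0 x`, and it is the limit from the right. -/
theorem YY_zero_mem (hL0 : 0 < L) (hL : L < 1/2) (x : ℝ) : 0 ≤ YY L 0 x ∧ YY L 0 x ≤ 1 := by
  have hc : Tendsto (fun r => YY L r x) (𝓝[>] 0) (𝓝 (YY L 0 x)) :=
    ((YY_cont L hL0 hL x).tendsto 0).mono_left nhdsWithin_le_nhds
  have hev : ∀ᶠ r in 𝓝[>] (0:ℝ), 0 ≤ YY L r x ∧ YY L r x ≤ 1 := by
    filter_upwards [self_mem_nhdsWithin] with r hr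
    obtain ⟨n, hn⟩ := exists_pow_le L hL0 hL r hr
    have := (mono_pos L n r hn hL0 hL).1 x
    exact ⟨this.1, this.2.le⟩
  exact ⟨ge_of_tendsto hc (hev.mono fun r h => h.1), le_of_tendsto hc (hev.mono fun r h => h.2)⟩

theorem YY_zero_rec (hL0 : 0 < L) (hL : L < 1/2) (x : ℝ) :
    YY L 0 x = (1-L) * (2 * Int.fract x - Int.fract (2*x)) + L * YY L 0 (Int.fract (2*x)) := by
  have := YY_rec L hL0 hL 0 x zero_le_one
  rwa [mul_zero] at this

/-- separation of the end points -/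
theorem YY_zero_sep (hL0 : 0 < L) (hL : L < 1/2) (n : ℕ) : ∀ x y, x ∈ Ico (0:ℝ) 1 → y ∈ Ico (0:ℝ) 1 →
    (1/2) ^ n ≤ y - x → (1-2*L) * L ^ n ≤ YY L 0 y - YY L 0 x := by
  induction n with
  | zero =>
    intro x y hx hy h
    have h1 := hx.1
    have h2 := hy.2
    rw [pow_zero] at h
    linarith
  | succ n ih =>
    intro x y hx hy h
    rw [YY_zero_rec L hL0 hL x, YY_zero_rec L hL0 hL y, Int.fract_eq_self.2 hx, Int.fract_eq_self.2 hy]
    have hpow : 0 < ((1:ℝ)/2) ^ n := by positivity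
    have hLp : 0 < L ^ n := by positivity
    have hLp1 : L ^ n ≤ 1 := pow_le_one₀ hL0.le (by linarith)
    rw [pow_succ] at h
    obtain ⟨h3, h4⟩ := YY_zero_mem L hL0 hL (Int.fract (2*x))
    obtain ⟨h5, h6⟩ := YY_zero_mem L hL0 hL (Int.fract (2*y))
    rcases fract_two _ hx with ⟨h1, h2⟩ | ⟨h1, h2⟩ <;> rcases fract_two _ hy with ⟨h7, h8⟩ | ⟨h7, h8⟩
    · have := ih (Int.fract (2*x)) (Int.fract (2*y)) ⟨Int.fract_nonneg _, Int.fract_lt_one _⟩
        ⟨Int.fract_nonneg _, Int.fract_lt_one _⟩ (by rw [h2, h8]; linarith)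
      rw [h2, h8] at this ⊢
      rw [pow_succ]
      nlinarith
    · rw [h2] at h3 h4 ⊢
      rw [h8] at h5 h6 ⊢
      have e1 : (1 - L) * (2 * y - (2 * y - 1)) = 1 - L := by ring
      have e2 : (1 - L) * (2 * x - 2 * x) = 0 := by ring
      rw [e1, e2]
      have h9 : (1-2*L) * L ^ (n+1) ≤ (1 - 2*L) := by
        have : L ^ (n+1) ≤ 1 := pow_le_one₀ hL0.le (by linarith)
        nlinarith
      nlinarith
    · linarith
    · have := ih (Int.fract (2*x)) (Int.fract (2*y)) ⟨Int.fract_nonneg _, Int.fract_lt_one _⟩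
        ⟨Int.fract_nonneg _, Int.fract_lt_one _⟩ (by rw [h2, h8]; linarith)
      rw [h2, h8] at this ⊢
      rw [pow_succ]
      nlinarith

theorem YY_zero_strict (hL0 : 0 < L) (hL : L < 1/2) (x y : ℝ) (hx : x ∈ Ico (0:ℝ) 1)
    (hy : y ∈ Ico (0:ℝ) 1) (h : x < y) : YY L 0 x < YY L 0 y := by
  obtain ⟨n, hn⟩ := exists_pow_lt_of_lt_one (sub_pos.2 h) (show (1:ℝ)/2 < 1 by norm_num)
  have h1 := YY_zero_sep L hL0 hL n x y hx hy hn.le
  have h2 : 0 < (1-2*L) * L ^ n := mul_pos (by linarith) (by positivity)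
  linarith

theorem YY_strict (hL0 : 0 < L) (hL : L < 1/2) (r x y : ℝ) (hr : 0 ≤ r) (hx : x ∈ Ico (0:ℝ) 1)
    (hy : y ∈ Ico (0:ℝ) 1) (h : x < y) : YY L r x < YY L r y := by
  rcases hr.eq_or_lt with h0 | h0
  · rw [← h0]; exact YY_zero_strict L hL0 hL x y hx hy h
  · obtain ⟨n, hn⟩ := exists_pow_le L hL0 hL r h0
    exact (mono_pos L n r hn hL0 hL).2 x y hx hy h

theorem YY_mem (hL0 : 0 < L) (hL : L < 1/2) (r x : ℝ) (hr : 0 ≤ r) : YY L r x ∈ Ico (0:ℝ) 1 := by
  rcases hr.eq_or_lt with h0 | h0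
  · rw [← h0]
    refine ⟨(YY_zero_mem L hL0 hL x).1, ?_⟩
    rw [← YY_fract]
    have hx : Int.fract x ∈ Ico (0:ℝ) 1 := ⟨Int.fract_nonneg _, Int.fract_lt_one _⟩
    have hy : (1 + Int.fract x)/2 ∈ Ico (0:ℝ) 1 := ⟨by linarith [hx.1], by linarith [hx.2]⟩
    exact (YY_zero_strict L hL0 hL _ _ hx hy (by linarith [hx.2])).trans_le
      (YY_zero_mem L hL0 hL _).2
  · obtain ⟨n, hn⟩ := exists_pow_le L hL0 hL r h0
    exact (mono_pos L n r hn hL0 hL).1 x

/-- covering of the end points -/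
theorem YY_zero_cover (hL0 : 0 < L) (hL : L < 1/2) (n : ℕ) : ∀ x y, x ∈ Ico (0:ℝ) 1 → y ∈ Ico (0:ℝ) 1 →
    ⌊2 ^ n * x⌋ = ⌊2 ^ n * y⌋ → |YY L 0 x - YY L 0 y| ≤ L ^ n := by
  induction n with
  | zero =>
    intro x y _ _ _
    have h1 := YY_zero_mem L hL0 hL x
    have h2 := YY_zero_mem L hL0 hL y
    rw [pow_zero, abs_le]
    constructor <;> linarith [h1.1, h1.2, h2.1, h2.2]
  | succ n ih =>
    intro x y hx hy h
    have hp : (0:ℝ) < 2 ^ n := by positivity
    have hfl : ∀ z : ℝ, ⌊2 ^ n * Int.fract (2*z)⌋ = ⌊2 ^ (n+1) * z⌋ - 2 ^ n * ⌊2*z⌋ := by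
      intro z
      have h1 : (2:ℝ) ^ n * Int.fract (2 * z) = 2 ^ (n+1) * z - ((2 ^ n * ⌊2 * z⌋ : ℤ) : ℝ) := by
        rw [Int.fract]
        push_cast
        ring
      rw [h1, Int.floor_sub_intCast]
    have hlt : ∀ a b : ℝ, a < 1/2 → 1/2 ≤ b → ⌊2 ^ (n+1) * a⌋ ≠ ⌊2 ^ (n+1) * b⌋ := by
      intro a b ha hb hab
      have h1 : ((2 ^ n : ℤ) : ℝ) ≤ 2 ^ (n+1) * b := by push_cast; rw [pow_succ]; nlinarith
      have h2 : (2 ^ n : ℤ) ≤ ⌊2 ^ (n+1) * b⌋ := Int.le_floor.2 h1
      have h3 : ⌊2 ^ (n+1) * a⌋ < (2 ^ n : ℤ) := by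
        rw [Int.floor_lt]; push_cast; rw [pow_succ]; nlinarith
      omega
    rw [YY_zero_rec L hL0 hL x, YY_zero_rec L hL0 hL y, Int.fract_eq_self.2 hx, Int.fract_eq_self.2 hy]
    rcases fract_two _ hx with ⟨h1, h2⟩ | ⟨h1, h2⟩ <;> rcases fract_two _ hy with ⟨h7, h8⟩ | ⟨h7, h8⟩
    · have h3 : ⌊2*x⌋ = ⌊2*y⌋ := by
        rw [Int.fract] at h2 h8
        have e1 : ((⌊2*x⌋ : ℤ) : ℝ) = 0 := by linarith
        have e2 : ((⌊2*y⌋ : ℤ) : ℝ) = 0 := by linarith
        exact_mod_cast e1.trans e2.symm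
      have := ih (Int.fract (2*x)) (Int.fract (2*y)) ⟨Int.fract_nonneg _, Int.fract_lt_one _⟩
        ⟨Int.fract_nonneg _, Int.fract_lt_one _⟩ (by rw [hfl, hfl, h, h3])
      have e : (1 - L) * (2 * x - Int.fract (2 * x)) + L * YY L 0 (Int.fract (2 * x)) -
        ((1 - L) * (2 * y - Int.fract (2 * y)) + L * YY L 0 (Int.fract (2 * y))) =
        L * (YY L 0 (Int.fract (2 * x)) - YY L 0 (Int.fract (2 * y))) := by
        linear_combination (-(1-L)) * h2 + (1-L) * h8
      rw [e, abs_mul, abs_of_pos hL0, pow_succ']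
      exact mul_le_mul_of_nonneg_left this hL0.le
    · exact absurd h (hlt x y h1 h7)
    · exact absurd h.symm (hlt y x h7 h1)
    · have h3 : ⌊2*x⌋ = ⌊2*y⌋ := by
        rw [Int.fract] at h2 h8
        have e1 : ((⌊2*x⌋ : ℤ) : ℝ) = 1 := by linarith
        have e2 : ((⌊2*y⌋ : ℤ) : ℝ) = 1 := by linarith
        exact_mod_cast e1.trans e2.symm
      have := ih (Int.fract (2*x)) (Int.fract (2*y)) ⟨Int.fract_nonneg _, Int.fract_lt_one _⟩
        ⟨Int.fract_nonneg _, Int.fract_lt_one _⟩ (by rw [hfl, hfl, h, h3])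
      have e : (1 - L) * (2 * x - Int.fract (2 * x)) + L * YY L 0 (Int.fract (2 * x)) -
        ((1 - L) * (2 * y - Int.fract (2 * y)) + L * YY L 0 (Int.fract (2 * y))) =
        L * (YY L 0 (Int.fract (2 * x)) - YY L 0 (Int.fract (2 * y))) := by
        linear_combination (-(1-L)) * h2 + (1-L) * h8
      rw [e, abs_mul, abs_of_pos hL0, pow_succ']
      exact mul_le_mul_of_nonneg_left this hL0.le

end

end Pool.Agent.Lib.B7ins
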