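import Mathlib
import Pool.Agent.Lib.MP_b7ec12_an.Ins.Dig

set_option autoImplicit false
open MeasureTheory Set Filter Topology
open scoped ENNReal

namespace Pool.Agent.Lib.B7ins

/-- shell lemma -/
theorem lintegral_shell (I : Set ℝ) (hI : volume I ≠ ∞) (g : ℝ → ℝ) (hg : Measurable g)
    (hg0 : ∀ x, 0 ≤ g x) (L D a : ℝ) (hL0 : 0 < L) (hL : L < 1/2) (hLD : L ^ (1-D) = 1/2)
    (ha0 : 0 ≤ a) (ha : a < D) (K : ℝ≥0∞) (hK : K ≠ ∞)
    (h : ∀ n : ℕ, volume ({x | g x < L ^ n} ∩ I) ≤ K * ENNReal.ofReal ((2*L) ^ n)) :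
    ∫⁻ x in I, ENNReal.ofReal (g x ^ (-a)) < ∞ := by
  have hb : ∀ x, ENNReal.ofReal (g x ^ (-a)) ≤ 1 + ∑' n : ℕ,
      ({x | g x < L ^ n}).indicator (fun _ => ENNReal.ofReal ((L ^ (n+1)) ^ (-a))) x := by
    intro x
    rcases (hg0 x).eq_or_lt with h0 | h0
    · rw [← h0]
      rcases ha0.eq_or_lt with h1 | h1
      · rw [← h1]; simp
      · rw [Real.zero_rpow (by linarith)]; simp
    · rcases le_or_gt 1 (g x) with h1 | h1
      · have : g x ^ (-a) ≤ 1 := Real.rpow_le_one_of_one_le_of_nonpos h1 (by linarith)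
        calc ENNReal.ofReal (g x ^ (-a)) ≤ ENNReal.ofReal 1 := ENNReal.ofReal_le_ofReal this
          _ = 1 := by simp
          _ ≤ _ := le_self_add
      · obtain ⟨n, hn1, hn2⟩ : ∃ n : ℕ, L ^ (n+1) ≤ g x ∧ g x < L ^ n := by
          have hex : ∃ n : ℕ, L ^ n ≤ g x := by
            obtain ⟨n, hn⟩ := exists_pow_lt_of_lt_one h0 (show L < 1 by linarith)
            exact ⟨n, hn.le⟩
          classical
          have h2 := Nat.find_spec hex
          have h3 : Nat.find hex ≠ 0 := by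
            intro h4
            rw [h4, pow_zero] at h2
            linarith
          obtain ⟨m, hm⟩ := Nat.exists_eq_succ_of_ne_zero h3
          refine ⟨m, by rw [← Nat.succ_eq_add_one, ← hm]; exact h2, ?_⟩
          have h5 := Nat.find_min hex (m := m) (by omega)
          exact not_le.1 h5
        have h6 : g x ^ (-a) ≤ (L ^ (n+1)) ^ (-a) :=
          Real.rpow_le_rpow_of_nonpos (by positivity) hn1 (by linarith)
        calc ENNReal.ofReal (g x ^ (-a)) ≤ ENNReal.ofReal ((L ^ (n+1)) ^ (-a)) :=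
              ENNReal.ofReal_le_ofReal h6
          _ = ({x | g x < L ^ n}).indicator (fun _ => ENNReal.ofReal ((L ^ (n+1)) ^ (-a))) x := by
              rw [indicator_of_mem]; exact hn2
          _ ≤ ∑' n : ℕ, ({x | g x < L ^ n}).indicator
                (fun _ => ENNReal.ofReal ((L ^ (n+1)) ^ (-a))) x :=
              ENNReal.le_tsum n
          _ ≤ _ := le_add_self
  have hms : ∀ n : ℕ, MeasurableSet {x | g x < L ^ n} := fun n => measurableSet_lt hg measurable_const
  calc ∫⁻ x in I, ENNReal.ofReal (g x ^ (-a))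
      ≤ ∫⁻ x in I, (1 + ∑' n : ℕ,
        ({x | g x < L ^ n}).indicator (fun _ => ENNReal.ofReal ((L ^ (n+1)) ^ (-a))) x) :=
        lintegral_mono fun x => hb x
    _ = volume I + ∑' n : ℕ, ENNReal.ofReal ((L ^ (n+1)) ^ (-a)) * volume ({x | g x < L ^ n} ∩ I) := by
        rw [lintegral_add_left measurable_const, lintegral_tsum]
        · simp only [lintegral_one, Measure.restrict_apply MeasurableSet.univ, univ_inter]
          congr 2
          funext n
          rw [lintegral_indicator (hms n), lintegral_const, Measure.restrict_restrict (hms n),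
            Measure.restrict_apply MeasurableSet.univ, univ_inter]
        · intro n
          exact (measurable_const.indicator (hms n)).aemeasurable
    _ ≤ volume I + ∑' n : ℕ, (K * ENNReal.ofReal (L ^ (-a))) * (ENNReal.ofReal (L ^ (D - a))) ^ n := by
        refine add_le_add le_rfl (ENNReal.tsum_le_tsum fun n => ?_)
        have e1 : ENNReal.ofReal ((L ^ (n+1)) ^ (-a)) * ENNReal.ofReal ((2*L) ^ n) =
            ENNReal.ofReal (L ^ (-a)) * (ENNReal.ofReal (L ^ (D - a))) ^ n := by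
          have h2L : 2 * L = L ^ D := by
            have e : L ^ (1:ℝ) = L ^ (1-D) * L ^ D := by
              rw [← Real.rpow_add hL0]; congr 1; ring
            rw [Real.rpow_one, hLD] at e
            linarith
          rw [← ENNReal.ofReal_pow (by positivity), ← ENNReal.ofReal_mul (by positivity),
            ← ENNReal.ofReal_mul (by positivity)]
          congr 1
          rw [h2L, ← Real.rpow_natCast, ← Real.rpow_natCast, ← Real.rpow_natCast, ← Real.rpow_mul hL0.le,
            ← Real.rpow_mul hL0.le, ← Real.rpow_mul hL0.le, ← Real.rpow_add hL0, ← Real.rpow_add hL0]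
          congr 1
          push_cast
          ring
        calc ENNReal.ofReal ((L ^ (n+1)) ^ (-a)) * volume ({x | g x < L ^ n} ∩ I)
            ≤ ENNReal.ofReal ((L ^ (n+1)) ^ (-a)) * (K * ENNReal.ofReal ((2*L) ^ n)) := by
              gcongr; exact h n
          _ = K * (ENNReal.ofReal ((L ^ (n+1)) ^ (-a)) * ENNReal.ofReal ((2*L) ^ n)) := by ring
          _ = K * ENNReal.ofReal (L ^ (-a)) * (ENNReal.ofReal (L ^ (D - a))) ^ n := by
              rw [e1]; ring
    _ < ∞ := by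
        rw [ENNReal.tsum_mul_left, ENNReal.tsum_geometric]
        refine ENNReal.add_lt_top.2 ⟨lt_top_iff_ne_top.2 hI, ?_⟩
        refine ENNReal.mul_lt_top (ENNReal.mul_lt_top (lt_top_iff_ne_top.2 hK) ENNReal.ofReal_lt_top) ?_
        rw [ENNReal.inv_lt_top, tsub_pos_iff_lt]
        have h1 : L ^ (D - a) < 1 := Real.rpow_lt_one hL0.le (by linarith) (by linarith)
        calc ENNReal.ofReal (L ^ (D - a)) < ENNReal.ofReal 1 := by
              rw [ENNReal.ofReal_lt_ofReal_iff (by norm_num)]; exact h1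
          _ = 1 := by simp

section
variable (L : ℝ)

/-- end points, extended to the line -/
noncomputable def cc (x : ℝ) : ℝ := ⌊x⌋ + YY L 0 x

theorem cc_add (x : ℝ) (k : ℤ) : cc L (x + k) = cc L x + k := by
  have h : YY L 0 (x + k) = YY L 0 x := by
    rw [← YY_fract L 0 (x + k), Int.fract_add_intCast, YY_fract]
  unfold cc
  rw [h, Int.floor_add_intCast]
  push_cast
  ring

theorem cc_Ico (hL0 : 0 < L) (hL : L < 1/2) (x : ℝ) : (⌊x⌋:ℝ) ≤ cc L x ∧ cc L x < ⌊x⌋ + 1 := by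
  have h := YY_mem L hL0 hL 0 x le_rfl
  unfold cc
  constructor <;> linarith [h.1, h.2]

theorem cc_int (hL0 : 0 < L) (hL : L < 1/2) (k : ℤ) : cc L k = k := by
  have h0 : YY L 0 0 = 0 := by
    have h := YY_zero_rec L hL0 hL 0
    simp only [mul_zero, Int.fract_zero, sub_zero, zero_add] at h
    have : (1 - L) * YY L 0 0 = 0 := by linarith
    rcases mul_eq_zero.1 this with h1 | h1
    · linarith
    · exact h1
  have h1 := cc_add L 0 k
  rw [zero_add] at h1
  rw [h1]
  unfold cc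
  rw [h0]; simp

theorem cc_strict (hL0 : 0 < L) (hL : L < 1/2) : StrictMono (cc L) := by
  intro x y hxy
  have hfl : ⌊x⌋ ≤ ⌊y⌋ := Int.floor_mono hxy.le
  rcases hfl.eq_or_lt with h | h
  · unfold cc
    rw [h, ← YY_fract L 0 x, ← YY_fract L 0 y]
    have : Int.fract x < Int.fract y := by
      unfold Int.fract
      rw [h]; linarith
    have := YY_zero_strict L hL0 hL _ _ ⟨Int.fract_nonneg x, Int.fract_lt_one x⟩
      ⟨Int.fract_nonneg y, Int.fract_lt_one y⟩ this
    linarith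
  · have h1 := (cc_Ico L hL0 hL x).2
    have h2 := (cc_Ico L hL0 hL y).1
    have h3 : (⌊x⌋ : ℝ) + 1 ≤ ⌊y⌋ := by exact_mod_cast h
    linarith

theorem cc_sep (hL0 : 0 < L) (hL : L < 1/2) (n : ℕ) (x y : ℝ) (h : (1/2) ^ n ≤ y - x) :
    (1-2*L) * L ^ (n+1) ≤ cc L y - cc L x := by
  have hp : (0:ℝ) < (1/2) ^ n := by positivity
  have base : ∀ x y : ℝ, ⌊x⌋ = ⌊y⌋ → (1/2:ℝ) ^ (n+1) ≤ y - x →
      (1-2*L) * L ^ (n+1) ≤ cc L y - cc L x := by
    intro x y hf hxy
    unfold cc
    rw [hf, ← YY_fract L 0 x, ← YY_fract L 0 y]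
    have h1 := YY_zero_sep L hL0 hL (n+1) (Int.fract x) (Int.fract y)
      ⟨Int.fract_nonneg x, Int.fract_lt_one x⟩ ⟨Int.fract_nonneg y, Int.fract_lt_one y⟩ (by
        unfold Int.fract
        rw [hf]; linarith)
    linarith
  have hpe : (1/2:ℝ) ^ (n+1) = (1/2) ^ n / 2 := by rw [pow_succ]; ring
  have hpe1 : (1/2:ℝ) ^ n ≤ 1 := pow_le_one₀ (by norm_num) (by norm_num)
  have hmono := (cc_strict L hL0 hL).monotone
  rcases lt_or_ge (x + (1/2) ^ (n+1)) (⌊x⌋ + 1) with h1 | h1
  · have hf : ⌊x⌋ = ⌊x + (1/2:ℝ) ^ (n+1)⌋ := by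
      symm
      rw [Int.floor_eq_iff]
      exact ⟨by linarith [Int.floor_le x], h1⟩
    have h2 := base x (x + (1/2) ^ (n+1)) hf (by linarith)
    have h3 := hmono (show x + (1/2) ^ (n+1) ≤ y by linarith)
    linarith
  · have h4 : ((⌊x⌋ + 1 : ℤ) : ℝ) + (1/2) ^ (n+1) ≤ y := by
      push_cast
      have := Int.lt_floor_add_one x
      rw [hpe] at h1 ⊢
      by_contra hcon
      rw [not_le] at hcon
      have h5 : (⌊x⌋:ℝ) + 1 ≤ x + (1/2) ^ n / 2 := h1
      linarith
    have hf : ⌊((⌊x⌋ + 1 : ℤ) : ℝ)⌋ = ⌊((⌊x⌋ + 1 : ℤ) : ℝ) + (1/2:ℝ) ^ (n+1)⌋ := by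
      rw [Int.floor_intCast]
      symm
      rw [Int.floor_eq_iff]
      refine ⟨by linarith [show (0:ℝ) < (1/2) ^ (n+1) by positivity], ?_⟩
      rw [hpe]; linarith
    have h2 := base _ _ hf (by linarith)
    have h3 := hmono h4
    have h5 := hmono (show x ≤ ((⌊x⌋ + 1 : ℤ) : ℝ) by push_cast; linarith [Int.lt_floor_add_one x])
    linarith

/-- the Cantor set -/
def EE : Set ℝ := closure (range (cc L))

theorem isClosed_EE : IsClosed (EE L) := isClosed_closure

theorem EE_nonempty : (EE L).Nonempty := ⟨cc L 0, subset_closure ⟨0, rfl⟩⟩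

theorem cc_mem_EE (x : ℝ) : cc L x ∈ EE L := subset_closure ⟨x, rfl⟩

theorem EE_add (x : ℝ) : x + 1 ∈ EE L ↔ x ∈ EE L := by
  have himg : ∀ k : ℤ, (fun x : ℝ => x + k) '' (range (cc L)) = range (cc L) := by
    intro k
    ext y
    constructor
    · rintro ⟨_, ⟨x, rfl⟩, rfl⟩
      exact ⟨x + k, cc_add L x k⟩
    · rintro ⟨x, rfl⟩
      refine ⟨cc L x - k, ⟨x - k, ?_⟩, by simp⟩
      have := cc_add L (x - k) k
      rw [sub_add_cancel] at this
      linarith
  have h1 : ∀ (k : ℤ) (z : ℝ), z ∈ EE L → z + k ∈ EE L := by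
    intro k z hz
    have hc : Continuous (fun x : ℝ => x + k) := by fun_prop
    have h2 := image_closure_subset_closure_image (s := range (cc L)) hc
    rw [himg k] at h2
    exact h2 ⟨z, hz, rfl⟩
  constructor
  · intro h
    have := h1 (-1) _ h
    simpa using this
  · intro h
    have := h1 1 _ h
    simpa using this

/-- distance to the Cantor set -/
noncomputable def dE (x : ℝ) : ℝ := Metric.infDist x (EE L)

theorem dE_nonneg (x : ℝ) : 0 ≤ dE L x := Metric.infDist_nonneg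

theorem dE_lip : LipschitzWith 1 (dE L) := Metric.lipschitz_infDist_pt _

theorem dE_cont : Continuous (dE L) := (dE_lip L).continuous

theorem dE_add (x : ℝ) : dE L (x + 1) = dE L x := by
  have hiso : Isometry (fun x : ℝ => x + 1) := isometry_add_right 1
  have himg : (fun x : ℝ => x + 1) '' (EE L) = EE L := by
    ext y
    constructor
    · rintro ⟨z, hz, rfl⟩
      exact (EE_add L z).2 hz
    · intro hy
      refine ⟨y - 1, ?_, by ring⟩
      rw [← EE_add L (y - 1)]
      simpa using hy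
  have h1 : Metric.infDist (x + 1) ((fun x : ℝ => x + 1) '' (EE L)) = Metric.infDist x (EE L) :=
    Metric.infDist_image hiso
  rw [himg] at h1
  exact h1

theorem dE_eq_zero (x : ℝ) : dE L x = 0 ↔ x ∈ EE L := by
  rw [← (isClosed_EE L).closure_eq, Metric.mem_closure_iff_infDist_zero (EE_nonempty L)]
  rfl

theorem dE_le_one (x : ℝ) : dE L x ≤ 1 := by
  have h1 : dE L x ≤ dist x (cc L ⌊x⌋) := Metric.infDist_le_dist_of_mem (cc_mem_EE L _)
  refine h1.trans ?_
  have h2 : cc L (⌊x⌋ : ℝ) = ⌊x⌋ + YY L 0 0 := by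
    unfold cc
    rw [Int.floor_intCast, ← YY_fract L 0 (⌊x⌋:ℝ), Int.fract_intCast]
  have h0 : YY L 0 0 = 0 := by
    unfold YY
    have : ∀ k, fr k 0 = 0 := fun k => by simp [fr]
    simp [this]
  rw [h2, h0, add_zero, Real.dist_eq, abs_of_nonneg (by linarith [Int.floor_le x])]
  linarith [Int.lt_floor_add_one x]

/-- measure of the neighbourhoods -/
theorem vol_nbhd (hL0 : 0 < L) (hL : L < 1/2) (n : ℕ) :
    volume ({x | dE L x < L ^ n} ∩ Ico 0 1) ≤ 12 * ENNReal.ofReal ((2*L) ^ n) := by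
  have hLn : 0 < L ^ n := by positivity
  have hLn1 : L ^ n ≤ 1 := pow_le_one₀ hL0.le (by linarith)
  have hsub : {x | dE L x < L ^ n} ∩ Ico 0 1 ⊆ ⋃ k ∈ Finset.range 3, ⋃ j ∈ Finset.range (2^n),
      Metric.ball (((k:ℝ) - 1) + YY L 0 ((j:ℝ) / 2 ^ n)) (2 * L ^ n) := by
    rintro x ⟨hx, hx2⟩
    have h1 : ∃ e ∈ range (cc L), dist x e < L ^ n := by
      have h2 : Metric.infDist x (range (cc L)) < L ^ n := by
        rw [← Metric.infDist_closure]; exact hx
      exact (Metric.infDist_lt_iff (range_nonempty _)).1 h2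
    obtain ⟨_, ⟨t, rfl⟩, ht⟩ := h1
    rw [Real.dist_eq, abs_lt] at ht
    have hc := cc_Ico L hL0 hL t
    have hk1 : ⌊t⌋ < 2 := by
      have : (⌊t⌋:ℝ) < 2 := by linarith [hx2.2]
      exact_mod_cast this
    have hk2 : -2 < ⌊t⌋ := by
      have : (-2:ℝ) < ⌊t⌋ := by linarith [hx2.1]
      exact_mod_cast this
    have hf0 := Int.fract_nonneg t
    have hf1 := Int.fract_lt_one t
    set j : ℕ := ⌊2 ^ n * Int.fract t⌋₊ with hj
    have hjlt : j < 2 ^ n := by
      rw [hj, Nat.floor_lt (by positivity)]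
      push_cast
      nlinarith [show (0:ℝ) < 2 ^ n by positivity]
    have hjle : (j:ℝ) ≤ 2 ^ n * Int.fract t := Nat.floor_le (by positivity)
    have hjI : (j:ℝ) / 2 ^ n ∈ Ico (0:ℝ) 1 := by
      refine ⟨by positivity, ?_⟩
      rw [div_lt_one (by positivity)]
      exact_mod_cast hjlt
    have hcov := YY_zero_cover L hL0 hL n (Int.fract t) ((j:ℝ) / 2 ^ n) ⟨hf0, hf1⟩ hjI (by
      have e1 : (2:ℝ) ^ n * ((j:ℝ) / 2 ^ n) = ((j:ℤ):ℝ) := by
        push_cast; field_simp
      rw [e1, Int.floor_intCast, hj, Int.natCast_floor_eq_floor (by positivity)])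
    rw [YY_fract, abs_le] at hcov
    have hcc : cc L t = ⌊t⌋ + YY L 0 t := rfl
    have hkk : ((⌊t⌋ + 1).toNat : ℤ) = ⌊t⌋ + 1 := Int.toNat_of_nonneg (by omega)
    have hkk' : (((⌊t⌋ + 1).toNat : ℕ) : ℝ) = ⌊t⌋ + 1 := by exact_mod_cast hkk
    refine mem_iUnion₂.2 ⟨(⌊t⌋ + 1).toNat, ?_, mem_iUnion₂.2 ⟨j, by simpa using hjlt, ?_⟩⟩
    · rw [Finset.mem_range]; omega
    · rw [Metric.mem_ball, Real.dist_eq, hkk', abs_lt]
      constructor <;> linarith
  refine (measure_mono hsub).trans ?_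
  refine (measure_biUnion_finset_le _ _).trans ?_
  have hone : ∀ k ∈ Finset.range 3, volume (⋃ j ∈ Finset.range (2^n),
      Metric.ball (((k:ℝ) - 1) + YY L 0 ((j:ℝ) / 2 ^ n)) (2 * L ^ n)) ≤
      4 * ENNReal.ofReal ((2*L) ^ n) := by
    intro k _
    refine (measure_biUnion_finset_le _ _).trans ?_
    simp_rw [Real.volume_ball]
    rw [Finset.sum_const, Finset.card_range, nsmul_eq_mul]
    have e1 : ((2 ^ n : ℕ) : ℝ≥0∞) = ENNReal.ofReal (2 ^ n) := by
      rw [ENNReal.ofReal_pow (by norm_num)]; simp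
    have e2 : (4 : ℝ≥0∞) = ENNReal.ofReal 4 := by simp
    rw [e1, e2, ← ENNReal.ofReal_mul (by positivity), ← ENNReal.ofReal_mul (by norm_num), mul_pow]
    refine ENNReal.ofReal_le_ofReal ?_
    rw [show (2:ℝ) ^ n * (2 * (2 * L ^ n)) = 4 * (2 ^ n * L ^ n) by ring]
  calc _ ≤ ∑ k ∈ Finset.range 3, 4 * ENNReal.ofReal ((2*L) ^ n) := Finset.sum_le_sum hone
    _ = 12 * ENNReal.ofReal ((2*L) ^ n) := by
        rw [Finset.sum_const, Finset.card_range, nsmul_eq_mul, ← mul_assoc]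
        congr 1
        norm_num

/-- negative powers of the distance are integrable -/
theorem int_dE (D a : ℝ) (hL0 : 0 < L) (hL : L < 1/2) (hLD : L ^ (1-D) = 1/2) (ha0 : 0 ≤ a)
    (ha : a < D) : ∫⁻ x in Ico (0:ℝ) 1, ENNReal.ofReal (dE L x ^ (-a)) < ∞ :=
  lintegral_shell (Ico 0 1) (by simp) (dE L) (dE_cont L).measurable (dE_nonneg L) L D a hL0 hL hLD
    ha0 ha 12 (by simp) (fun n => vol_nbhd L hL0 hL n)

/-- the Cantor set is null -/
theorem EE_null (hL0 : 0 < L) (hL : L < 1/2) : volume (EE L) = 0 := by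
  have h0 : volume (EE L ∩ Ico 0 1) = 0 := by
    have h1 : ∀ n : ℕ, volume (EE L ∩ Ico 0 1) ≤ 12 * ENNReal.ofReal ((2*L) ^ n) := by
      intro n
      refine (measure_mono ?_).trans (vol_nbhd L hL0 hL n)
      rintro x ⟨hx, hx2⟩
      refine ⟨?_, hx2⟩
      rw [mem_ofPred_eq, (dE_eq_zero L x).2 hx]
      positivity
    have h2 : Tendsto (fun n : ℕ => 12 * ENNReal.ofReal ((2*L) ^ n)) atTop (𝓝 (12 * ENNReal.ofReal 0)) := by
      refine ENNReal.Tendsto.const_mul ?_ (Or.inr (by simp))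
      exact ENNReal.tendsto_ofReal (tendsto_pow_atTop_nhds_zero_of_lt_one (by linarith) (by linarith))
    rw [ENNReal.ofReal_zero, mul_zero] at h2
    exact le_antisymm (ge_of_tendsto' h2 h1) bot_le
  have hper : ∀ k : ℤ, ∀ x : ℝ, x + (k:ℝ) ∈ EE L ↔ x ∈ EE L := by
    intro k
    induction k using Int.induction_on with
    | zero => simp
    | succ k ih =>
      intro x
      push_cast
      rw [← add_assoc, EE_add]
      exact_mod_cast ih x
    | pred k ih =>
      intro x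
      have h1 := EE_add L (x + ((-(k:ℤ) - 1 : ℤ) : ℝ))
      have h2 : x + ((-(k:ℤ) - 1 : ℤ) : ℝ) + 1 = x + ((-(k:ℤ) : ℤ) : ℝ) := by push_cast; ring
      rw [h2] at h1
      rw [← h1]
      exact ih x
  have h1 : EE L ⊆ ⋃ k : ℤ, (fun x : ℝ => x + k) ⁻¹' (EE L ∩ Ico 0 1) := by
    intro x hx
    refine mem_iUnion.2 ⟨-⌊x⌋, ?_⟩
    refine ⟨(hper _ x).2 hx, ?_⟩
    push_cast
    constructor
    · linarith [Int.floor_le x]
    · linarith [Int.lt_floor_add_one x]
  refine measure_mono_null h1 (measure_iUnion_null fun k => ?_)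
  rw [measure_preimage_add_right]
  exact h0

/-- the Cantor function -/
noncomputable def kk (x : ℝ) : ℝ := sSup {t | cc L t ≤ x}

theorem kk_bdd (hL0 : 0 < L) (hL : L < 1/2) (x : ℝ) : BddAbove {t | cc L t ≤ x} := by
  refine ⟨x + 1, fun t ht => ?_⟩
  have h1 := (cc_Ico L hL0 hL t).1
  have h2 := Int.lt_floor_add_one t
  simp only [mem_ofPred_eq] at ht
  linarith

theorem kk_ne (hL0 : 0 < L) (hL : L < 1/2) (x : ℝ) : {t | cc L t ≤ x}.Nonempty := by
  refine ⟨⌊x⌋, ?_⟩
  simp only [mem_ofPred_eq]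
  rw [cc_int L hL0 hL]
  exact Int.floor_le x

theorem kk_mono (hL0 : 0 < L) (hL : L < 1/2) : Monotone (kk L) := by
  intro x y hxy
  exact csSup_le_csSup (kk_bdd L hL0 hL y) (kk_ne L hL0 hL x) (fun t ht => le_trans ht hxy)

theorem kk_cc (hL0 : 0 < L) (hL : L < 1/2) (t : ℝ) : kk L (cc L t) = t := by
  unfold kk
  have : {s | cc L s ≤ cc L t} = Iic t := by
    ext s
    exact (cc_strict L hL0 hL).le_iff_le
  rw [this, csSup_Iic]

theorem le_kk (hL0 : 0 < L) (hL : L < 1/2) (x t : ℝ) (h : cc L t ≤ x) : t ≤ kk L x :=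
  le_csSup (kk_bdd L hL0 hL x) h

theorem lt_cc_of (hL0 : 0 < L) (hL : L < 1/2) (x t : ℝ) (h : kk L x < t) : x < cc L t := by
  by_contra hcon
  rw [not_lt] at hcon
  exact absurd (le_kk L hL0 hL x t hcon) (not_le.2 h)

theorem cc_le_of (hL0 : 0 < L) (hL : L < 1/2) (x t : ℝ) (h : t < kk L x) : cc L t < x := by
  obtain ⟨s, hs, hts⟩ := exists_lt_of_lt_csSup (kk_ne L hL0 hL x) h
  exact (cc_strict L hL0 hL hts).trans_le hs

theorem kk_add (hL0 : 0 < L) (hL : L < 1/2) (x : ℝ) : kk L (x + 1) = kk L x + 1 := by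
  refine le_antisymm ?_ ?_
  · refine csSup_le (kk_ne L hL0 hL (x+1)) fun t ht => ?_
    have h1 := cc_add L (t - 1) 1
    push_cast at h1
    rw [sub_add_cancel] at h1
    simp only [mem_ofPred_eq] at ht
    have := le_kk L hL0 hL x (t - 1) (by linarith)
    linarith
  · have : kk L x ≤ kk L (x+1) - 1 := by
      refine csSup_le (kk_ne L hL0 hL x) fun t ht => ?_
      have h1 := cc_add L t 1
      push_cast at h1
      simp only [mem_ofPred_eq] at ht
      have := le_kk L hL0 hL (x+1) (t + 1) (by linarith)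
      linarith
    linarith

theorem kk_mod (hL0 : 0 < L) (hL : L < 1/2) (n : ℕ) (x y : ℝ) (_ : x ≤ y)
    (h : y - x < (1-2*L) * L ^ (n+1)) : kk L y - kk L x ≤ (1/2) ^ n := by
  by_contra hcon
  rw [not_le] at hcon
  set e := (kk L y - kk L x - (1/2) ^ n) / 3 with he
  have he0 : 0 < e := by rw [he]; linarith
  have h1 := lt_cc_of L hL0 hL x (kk L x + e) (by linarith)
  have h2 := cc_le_of L hL0 hL y (kk L y - e) (by linarith)
  have h3 := cc_sep L hL0 hL n (kk L x + e) (kk L y - e) (by linarith)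
  linarith

theorem kk_cont (hL0 : 0 < L) (hL : L < 1/2) : Continuous (kk L) := by
  rw [Metric.continuous_iff]
  intro x ε hε
  obtain ⟨n, hn⟩ := exists_pow_lt_of_lt_one hε (show (1:ℝ)/2 < 1 by norm_num)
  refine ⟨(1-2*L) * L ^ (n+1), mul_pos (by linarith) (by positivity), fun y hy => ?_⟩
  rw [Real.dist_eq] at hy ⊢
  refine lt_of_le_of_lt ?_ hn
  rcases le_total x y with h | h
  · rw [abs_of_nonneg (by linarith)] at hy
    rw [abs_of_nonneg (by linarith [kk_mono L hL0 hL h])]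
    exact kk_mod L hL0 hL n x y h hy
  · rw [abs_sub_comm, abs_of_nonneg (by linarith)] at hy
    rw [abs_sub_comm, abs_of_nonneg (by linarith [kk_mono L hL0 hL h])]
    exact kk_mod L hL0 hL n y x h hy

theorem kk_const (hL0 : 0 < L) (hL : L < 1/2) (x y : ℝ) (hxy : x ≤ y)
    (h : ∀ z ∈ Icc x y, z ∉ EE L) : kk L x = kk L y := by
  refine le_antisymm (kk_mono L hL0 hL hxy) ?_
  by_contra hcon
  rw [not_le] at hcon
  have h1 := lt_cc_of L hL0 hL x ((kk L x + kk L y)/2) (by linarith)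
  have h2 := cc_le_of L hL0 hL y ((kk L x + kk L y)/2) (by linarith)
  exact h _ ⟨h1.le, h2.le⟩ (cc_mem_EE L _)

theorem kk_const' (hL0 : 0 < L) (hL : L < 1/2) (p q : ℝ) (h : |q - p| < dE L p) :
    kk L q = kk L p := by
  rcases le_total p q with h1 | h1
  · symm
    refine kk_const L hL0 hL p q h1 fun z hz => ?_
    refine Metric.notMem_of_dist_lt_infDist (x := p) ?_
    rw [Real.dist_eq, abs_sub_comm, abs_of_nonneg (by linarith [hz.1])]
    rw [abs_of_nonneg (by linarith)] at h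
    exact lt_of_le_of_lt (by linarith [hz.2]) h
  · refine kk_const L hL0 hL q p h1 fun z hz => ?_
    refine Metric.notMem_of_dist_lt_infDist (x := p) ?_
    rw [Real.dist_eq, abs_of_nonneg (by linarith [hz.2])]
    rw [abs_sub_comm, abs_of_nonneg (by linarith)] at h
    exact lt_of_le_of_lt (by linarith [hz.1]) h

theorem kk_holder (hL0 : 0 < L) (hL : L < 1/2) (D : ℝ) (hLD : L ^ (1-D) = 1/2) (hD : D < 1)
    (x y : ℝ) (hxy : x < y) (h1 : y - x ≤ 1) :
    kk L y - kk L x ≤ ((y - x) / ((1-2*L) * L ^ 2)) ^ (1-D) := by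
  have hc : 0 < (1-2*L) * L ^ 2 := mul_pos (by linarith) (by positivity)
  set h := y - x with hh
  have h0 : 0 < h := by rw [hh]; linarith
  rcases lt_or_ge h ((1-2*L) * L) with hsm | hbig
  · obtain ⟨n, hn1, hn2⟩ : ∃ n : ℕ, (1-2*L) * L ^ (n+2) ≤ h ∧ h < (1-2*L) * L ^ (n+1) := by
      have hex : ∃ n : ℕ, (1-2*L) * L ^ (n+2) ≤ h := by
        obtain ⟨n, hn⟩ := exists_pow_lt_of_lt_one h0 (show L < 1 by linarith)
        refine ⟨n, le_trans ?_ hn.le⟩
        have h2 : L ^ (n+2) ≤ L ^ n := pow_le_pow_of_le_one hL0.le (by linarith) (by omega)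
        have h3 : 0 < L ^ (n+2) := by positivity
        nlinarith
      classical
      refine ⟨Nat.find hex, Nat.find_spec hex, ?_⟩
      rcases Nat.eq_zero_or_pos (Nat.find hex) with h2 | h2
      · rw [h2, zero_add, pow_one]; exact hsm
      · have h3 := Nat.find_min hex (m := Nat.find hex - 1) (by omega)
        rw [not_le] at h3
        have h4 : Nat.find hex - 1 + 2 = Nat.find hex + 1 := by omega
        rwa [h4] at h3
    have h2 := kk_mod L hL0 hL n x y hxy.le hn2
    refine h2.trans ?_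
    have h3 : (1/2:ℝ) ^ n = (L ^ n) ^ (1-D) := by
      rw [← hLD, ← Real.rpow_natCast, ← Real.rpow_natCast, ← Real.rpow_mul hL0.le,
        ← Real.rpow_mul hL0.le, mul_comm]
    rw [h3]
    refine Real.rpow_le_rpow (by positivity) ?_ (by linarith)
    rw [le_div_iff₀ hc]
    calc L ^ n * ((1-2*L) * L ^ 2) = (1-2*L) * L ^ (n+2) := by ring
      _ ≤ h := hn1
  · have h2 : kk L y - kk L x ≤ 1 := by
      have h3 := kk_mono L hL0 hL (show y ≤ x + 1 by linarith)
      rw [kk_add L hL0 hL] at h3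
      linarith
    refine h2.trans ?_
    refine Real.one_le_rpow ?_ (by linarith)
    rw [le_div_iff₀ hc, one_mul]
    have : L ^ 2 ≤ L := by nlinarith
    nlinarith

end

end Pool.Agent.Lib.B7ins
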