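import Mathlib
import Pool.Agent.Lib.MP_b7ec12_an.Ins.Dig

set_option autoImplicit false
open MeasureTheory Set Filter Topology
open scoped ENNReal

namespace Pool.Agent.Lib.B7ins

section
variable (L : ℝ)

/-- slope -/
noncomputable def ss (r : ℝ) : ℝ := 1 - (1-2*L)/(1-L) * ∑' k, hh L k r * 2 ^ k

theorem summable_s (hL0 : 0 < L) (hL : L < 1/2) (r : ℝ) : Summable (fun k => hh L k r * 2 ^ k) := by
  refine Summable.of_norm_bounded (summable_geometric_of_lt_one (r := 2*L) (by linarith) (by linarith))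
    fun k => ?_
  rw [Real.norm_eq_abs, abs_mul, abs_of_nonneg (hh_nonneg L hL0 hL k r), abs_of_nonneg (by positivity),
    mul_pow, mul_comm ((2:ℝ) ^ k)]
  exact mul_le_mul_of_nonneg_right (hh_le' L hL0 hL k r) (by positivity)

theorem ss_cont (hL0 : 0 < L) (hL : L < 1/2) : Continuous (ss L) := by
  unfold ss
  refine continuous_const.sub (continuous_const.mul ?_)
  refine continuous_tsum (fun k => ?_) (summable_geometric_of_lt_one (r := 2*L) (by linarith) (by linarith))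
    fun k r => ?_
  · exact (hh_cont L k).mul continuous_const
  · rw [Real.norm_eq_abs, abs_mul, abs_of_nonneg (hh_nonneg L hL0 hL k r), abs_of_nonneg (by positivity),
      mul_pow, mul_comm ((2:ℝ) ^ k)]
    exact mul_le_mul_of_nonneg_right (hh_le' L hL0 hL k r) (by positivity)

theorem ss_le_one (hL0 : 0 < L) (hL : L < 1/2) (r : ℝ) : ss L r ≤ 1 := by
  unfold ss
  have h1 : 0 ≤ (1-2*L)/(1-L) := div_nonneg (by linarith) (by linarith)
  have h2 : 0 ≤ ∑' k, hh L k r * 2 ^ k :=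
    tsum_nonneg fun k => mul_nonneg (hh_nonneg L hL0 hL k r) (by positivity)
  nlinarith [mul_nonneg h1 h2]

theorem ss_rec (hL0 : 0 < L) (hL : L < 1/2) (r : ℝ) (hr : r ≤ 1) : ss L (L * r) = 2 * L * ss L r := by
  unfold ss
  rw [(summable_s L hL0 hL (L*r)).tsum_eq_zero_add]
  have h0 : hh L 0 (L*r) = 1 - L := by
    unfold hh
    rw [zero_add, pow_one, pow_zero, max_eq_right, max_eq_right]
    · nlinarith
    · nlinarith
  have h1 : ∀ k, hh L (k+1) (L*r) * (2:ℝ) ^ (k+1) = (2 * L) * (hh L k r * 2 ^ k) := by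
    intro k
    rw [hh_scale L hL0, pow_succ]; ring
  simp_rw [h1]
  rw [tsum_mul_left, h0]
  have h3 : 1 - L ≠ 0 := by linarith
  field_simp
  ring

theorem ss_zero (hL0 : 0 < L) (hL : L < 1/2) : ss L 0 = 0 := by
  have h := ss_rec L hL0 hL 0 zero_le_one
  rw [mul_zero] at h
  have : (1 - 2*L) * ss L 0 = 0 := by linarith
  rcases mul_eq_zero.1 this with h1 | h1
  · linarith
  · exact h1

theorem ss_big (hL0 : 0 < L) (hL : L < 1/2) (r : ℝ) (hr : L ≤ r) :
    ss L r = 1 - (1-2*L)/(1-L) * (max r 1 - r) := by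
  unfold ss
  rw [tsum_eq_single 0]
  · unfold hh
    rw [zero_add, pow_one, max_eq_left hr]
    simp
  · intro k hk
    rw [hh_zero_of_le' L hL0 hL (n := 1) (by simpa using hr) (Nat.one_le_iff_ne_zero.2 hk), zero_mul]

theorem ss_lower (hL0 : 0 < L) (hL : L < 1/2) (n : ℕ) : ∀ r, L ^ n ≤ r → (2*L) ^ n ≤ ss L r := by
  induction n with
  | zero =>
    intro r hr
    have hr1 : 1 ≤ r := by simpa using hr
    rw [ss_big L hL0 hL r (by linarith), max_eq_left hr1]; simp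
  | succ n ih =>
    intro r hr
    have h2 : (2*L) ^ n ≤ 1 := pow_le_one₀ (by linarith) (by linarith)
    rcases le_or_gt L r with hLr | hLr
    · have h1 := (coef_bounds L hL0 hL r hLr).2
      rw [ss_big L hL0 hL r hLr, pow_succ]
      nlinarith
    · have h1 := ih (r / L) (by rw [le_div_iff₀ hL0]; rw [pow_succ] at hr; exact hr)
      have hr1 : r / L ≤ 1 := by rw [div_le_one hL0]; exact hLr.le
      have h3 : ss L r = 2 * L * ss L (r / L) := by
        rw [← ss_rec L hL0 hL (r / L) hr1]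
        congr 1
        field_simp
      rw [h3, pow_succ']
      exact mul_le_mul_of_nonneg_left h1 (by linarith)

theorem ss_pos (hL0 : 0 < L) (hL : L < 1/2) (r : ℝ) (hr : 0 < r) : 0 < ss L r := by
  obtain ⟨n, hn⟩ := exists_pow_le L hL0 hL r hr
  exact (show 0 < (2*L) ^ n by positivity).trans_le (ss_lower L hL0 hL n r hn)

theorem ss_nonneg (hL0 : 0 < L) (hL : L < 1/2) (r : ℝ) (hr : 0 ≤ r) : 0 ≤ ss L r := by
  rcases hr.eq_or_lt with h | h
  · rw [← h, ss_zero L hL0 hL]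
  · exact (ss_pos L hL0 hL r h).le

/-- dyadic rationals -/
def dy : Set ℝ := ⋃ k : ℕ, ⋃ m : ℤ, {x : ℝ | (2:ℝ) ^ k * x = m}

theorem dy_countable : dy.Countable := by
  refine countable_iUnion fun k => countable_iUnion fun m => ?_
  refine (countable_singleton ((m:ℝ) / 2 ^ k)).mono ?_
  intro x hx
  simp only [mem_ofPred_eq] at hx
  rw [mem_singleton_iff, eq_div_iff (by positivity), mul_comm]
  exact hx

theorem hasDerivAt_fr (k : ℕ) (x : ℝ) (hx : x ∉ dy) : HasDerivAt (fr k) ((2:ℝ) ^ k) x := by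
  have hne : ∀ m : ℤ, (2:ℝ) ^ k * x ≠ m := by
    intro m hm
    exact hx (mem_iUnion.2 ⟨k, mem_iUnion.2 ⟨m, hm⟩⟩)
  have h1 : ((⌊(2:ℝ) ^ k * x⌋ : ℤ) : ℝ) < (2:ℝ) ^ k * x :=
    lt_of_le_of_ne (Int.floor_le _) (fun h => hne _ h.symm)
  have h2 := Int.lt_floor_add_one ((2:ℝ) ^ k * x)
  have h3 : ∀ᶠ y in 𝓝 x, fr k y = (2:ℝ) ^ k * y - ((⌊(2:ℝ) ^ k * x⌋ : ℤ) : ℝ) := by
    have hc : Continuous (fun y : ℝ => (2:ℝ) ^ k * y) := by fun_prop
    have h4 := (hc.tendsto x).eventually (Ioo_mem_nhds h1 h2)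
    filter_upwards [h4] with y hy
    have : ⌊(2:ℝ) ^ k * y⌋ = ⌊(2:ℝ) ^ k * x⌋ := Int.floor_eq_iff.2 ⟨hy.1.le, hy.2⟩
    rw [fr, Int.fract, this]
  have h4 : HasDerivAt (fun y : ℝ => (2:ℝ) ^ k * y - ((⌊(2:ℝ) ^ k * x⌋ : ℤ) : ℝ)) ((2:ℝ) ^ k) x := by
    simpa using ((hasDerivAt_id x).const_mul ((2:ℝ) ^ k)).sub_const ((⌊(2:ℝ) ^ k * x⌋ : ℤ) : ℝ)
  exact h4.congr_of_eventuallyEq h3

theorem YY_finite (hL0 : 0 < L) (hL : L < 1/2) (n : ℕ) (r : ℝ) (hr : L ^ n ≤ r) (x : ℝ) :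
    YY L r x = fr 0 x + (1 - 2*L)/(1-L) * ∑ k ∈ Finset.range n, hh L k r * (fr k x - fr (k+1) x) := by
  unfold YY
  rw [fr_zero, tsum_eq_sum (s := Finset.range n)]
  intro k hk
  rw [Finset.mem_range, not_lt] at hk
  rw [hh_zero_of_le' L hL0 hL hr hk, zero_mul]

theorem ss_finite (hL0 : 0 < L) (hL : L < 1/2) (n : ℕ) (r : ℝ) (hr : L ^ n ≤ r) :
    ss L r = 1 - (1 - 2*L)/(1-L) * ∑ k ∈ Finset.range n, hh L k r * 2 ^ k := by
  unfold ss
  rw [tsum_eq_sum (s := Finset.range n)]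
  intro k hk
  rw [Finset.mem_range, not_lt] at hk
  rw [hh_zero_of_le' L hL0 hL hr hk, zero_mul]

theorem YY_deriv (hL0 : 0 < L) (hL : L < 1/2) (r : ℝ) (hr : 0 < r) (x : ℝ) (hx : x ∉ dy) :
    HasDerivAt (YY L r) (ss L r) x := by
  obtain ⟨n, hn⟩ := exists_pow_le L hL0 hL r hr
  have h1 : YY L r = fun x => fr 0 x +
      (1 - 2*L)/(1-L) * ∑ k ∈ Finset.range n, hh L k r * (fr k x - fr (k+1) x) := by
    funext x; exact YY_finite L hL0 hL n r hn x
  rw [h1, ss_finite L hL0 hL n r hn]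
  have h2 : HasDerivAt (fun x => ∑ k ∈ Finset.range n, hh L k r * (fr k x - fr (k+1) x))
      (∑ k ∈ Finset.range n, hh L k r * ((2:ℝ) ^ k - 2 ^ (k+1))) x := by
    have := HasDerivAt.sum (u := Finset.range n) (A := fun k x => hh L k r * (fr k x - fr (k+1) x))
      (A' := fun k => hh L k r * ((2:ℝ) ^ k - 2 ^ (k+1))) (x := x)
      (fun k _ => ((hasDerivAt_fr k x hx).sub (hasDerivAt_fr (k+1) x hx)).const_mul _)
    refine this.congr_of_eventuallyEq (Eventually.of_forall fun y => ?_)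
    simp
  have h3 := (hasDerivAt_fr 0 x hx).add (h2.const_mul ((1 - 2*L)/(1-L)))
  have h4 : (2:ℝ) ^ 0 + (1 - 2*L)/(1-L) * ∑ k ∈ Finset.range n, hh L k r * ((2:ℝ) ^ k - 2 ^ (k+1)) =
      1 - (1 - 2*L)/(1-L) * ∑ k ∈ Finset.range n, hh L k r * 2 ^ k := by
    have : ∀ k, hh L k r * ((2:ℝ) ^ k - 2 ^ (k+1)) = - (hh L k r * 2 ^ k) := fun k => by
      rw [pow_succ]; ring
    simp_rw [this, Finset.sum_neg_distrib]
    ring
  rw [h4] at h3
  exact h3

theorem measurable_YY2 : Measurable (fun q : ℝ × ℝ => YY L q.1 q.2) := by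
  unfold YY
  refine Measurable.add ?_ (Measurable.const_mul ?_ _)
  · exact measurable_fract.comp measurable_snd
  · refine Measurable.tsum fun k => ?_
    have h1 : Measurable (fun q : ℝ × ℝ => hh L k q.1) := (hh_cont L k).measurable.comp measurable_fst
    have h2 : ∀ k, Measurable (fun q : ℝ × ℝ => fr k q.2) := fun k => (measurable_fr k).comp measurable_snd
    exact h1.mul ((h2 k).sub (h2 (k+1)))

theorem measurable_YY (r : ℝ) : Measurable (YY L r) :=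
  (measurable_YY2 L).comp (f := fun x => (r, x)) (by fun_prop)

/-- cross section of the moving region -/
def MM (r : ℝ) : Set ℝ := YY L r '' Ico 0 1

theorem YY_injOn (hL0 : 0 < L) (hL : L < 1/2) (r : ℝ) (hr : 0 ≤ r) : InjOn (YY L r) (Ico 0 1) := by
  intro x hx y hy h
  rcases lt_trichotomy x y with h1 | h1 | h1
  · exact absurd h (YY_strict L hL0 hL r x y hr hx hy h1).ne
  · exact h1
  · exact absurd h.symm (YY_strict L hL0 hL r y x hr hy hx h1).ne

theorem measurableSet_MM (hL0 : 0 < L) (hL : L < 1/2) (r : ℝ) (hr : 0 ≤ r) : MeasurableSet (MM L r) :=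
  measurableSet_Ico.image_of_measurable_injOn (measurable_YY L r) (YY_injOn L hL0 hL r hr)

theorem MM_subset (hL0 : 0 < L) (hL : L < 1/2) (r : ℝ) (hr : 0 ≤ r) : MM L r ⊆ Ico 0 1 := by
  rintro _ ⟨x, _, rfl⟩
  exact YY_mem L hL0 hL r x hr

/-- push forward -/
theorem push_pos (hL0 : 0 < L) (hL : L < 1/2) (r : ℝ) (hr : 0 < r) (F : ℝ → ℝ≥0∞) :
    ∫⁻ y in MM L r, F y = ENNReal.ofReal (ss L r) * ∫⁻ x in Ico (0:ℝ) 1, F (YY L r x) := by
  have hdy : MeasurableSet dy := dy_countable.measurableSet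
  have hsub : Ico (0:ℝ) 1 \ dy ⊆ Ico 0 1 := sdiff_subset
  have h1 := lintegral_image_eq_lintegral_abs_deriv_mul (s := Ico (0:ℝ) 1 \ dy) (f := YY L r)
    (f' := fun _ => ss L r) (measurableSet_Ico.diff hdy)
    (fun x hx => (YY_deriv L hL0 hL r hr x hx.2).hasDerivWithinAt)
    ((YY_injOn L hL0 hL r hr.le).mono hsub) F
  have h2 : (YY L r '' (Ico (0:ℝ) 1 \ dy) : Set ℝ) =ᵐ[volume] MM L r := by
    refine Filter.EventuallyLE.antisymm (Filter.Eventually.of_forall fun y hy => image_mono hsub hy) ?_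
    rw [ae_le_set]
    refine measure_mono_null (t := YY L r '' dy) ?_ ((dy_countable.image _).measure_zero _)
    rintro _ ⟨⟨x, hx, rfl⟩, h⟩
    by_cases hxd : x ∈ dy
    · exact ⟨x, hxd, rfl⟩
    · exact absurd ⟨x, ⟨hx, hxd⟩, rfl⟩ h
  have h3 : (Ico (0:ℝ) 1 \ dy : Set ℝ) =ᵐ[volume] Ico (0:ℝ) 1 :=
    sdiff_null_ae_eq_self (dy_countable.measure_zero _)
  rw [setLIntegral_congr h2, setLIntegral_congr h3] at h1
  rw [h1, abs_of_pos (ss_pos L hL0 hL r hr), lintegral_const_mul' _ _ ENNReal.ofReal_ne_top]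

/-- label of a point -/
noncomputable def lab (r y : ℝ) : ℝ := (volume {x : ℝ | x ∈ Ico (0:ℝ) 1 ∧ YY L r x ≤ y}).toReal

theorem lab_YY (hL0 : 0 < L) (hL : L < 1/2) (r x : ℝ) (hr : 0 ≤ r) (hx : x ∈ Ico (0:ℝ) 1) :
    lab L r (YY L r x) = x := by
  have h1 : {z : ℝ | z ∈ Ico (0:ℝ) 1 ∧ YY L r z ≤ YY L r x} = Icc 0 x := by
    ext z
    simp only [mem_ofPred_eq, mem_Icc]
    constructor
    · rintro ⟨h1, h2⟩
      refine ⟨h1.1, ?_⟩
      by_contra h3
      rw [not_le] at h3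
      exact absurd (YY_strict L hL0 hL r x z hr hx h1 h3) (not_lt.2 h2)
    · rintro ⟨h1, h2⟩
      have hz : z ∈ Ico (0:ℝ) 1 := ⟨h1, h2.trans_lt hx.2⟩
      refine ⟨hz, ?_⟩
      rcases h2.eq_or_lt with h3 | h3
      · rw [h3]
      · exact (YY_strict L hL0 hL r z x hr hz hx h3).le
  unfold lab
  rw [h1]
  simp [hx.1]

theorem mem_MM_iff (hL0 : 0 < L) (hL : L < 1/2) (r y : ℝ) (hr : 0 ≤ r) :
    y ∈ MM L r ↔ lab L r y ∈ Ico (0:ℝ) 1 ∧ YY L r (lab L r y) = y := by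
  constructor
  · rintro ⟨x, hx, rfl⟩
    rw [lab_YY L hL0 hL r x hr hx]
    exact ⟨hx, rfl⟩
  · rintro ⟨h1, h2⟩
    exact ⟨_, h1, h2⟩

theorem measurable_lab : Measurable (fun q : ℝ × ℝ => lab L q.1 q.2) := by
  have hs : MeasurableSet {z : (ℝ × ℝ) × ℝ | z.2 ∈ Ico (0:ℝ) 1 ∧ YY L z.1.1 z.2 ≤ z.1.2} := by
    refine MeasurableSet.inter ?_ ?_
    · exact measurable_snd measurableSet_Ico
    · refine measurableSet_le ?_ (measurable_snd.comp measurable_fst)
      exact (measurable_YY2 L).comp (f := fun z : (ℝ × ℝ) × ℝ => (z.1.1, z.2)) (by fun_prop)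
  have h1 := measurable_measure_prodMk_left (ν := (volume : Measure ℝ)) hs
  unfold lab
  exact h1.ennreal_toReal

/-- the moving region (height `r`, position `y`) -/
theorem measurableSet_MM2 : MeasurableSet {q : ℝ × ℝ | lab L q.1 q.2 ∈ Ico (0:ℝ) 1 ∧
    YY L q.1 (lab L q.1 q.2) = q.2} := by
  have h1 := measurable_lab L
  refine (h1 measurableSet_Ico).inter ?_
  refine measurableSet_eq_fun ?_ measurable_snd
  exact (measurable_YY2 L).comp (f := fun q : ℝ × ℝ => (q.1, lab L q.1 q.2)) (by fun_prop)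

end

end Pool.Agent.Lib.B7ins
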