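import Mathlib
import Pool.Agent.Lib.MP_b7ec12_an.Flow

set_option autoImplicit false
open MeasureTheory Set Filter Topology
open scoped ENNReal NNReal

namespace Pool.Agent.Lib.B7ins

/-- density of the one dimensional motion -/
structure Prof where
  w : ℝ → ℝ
  cont : Continuous w
  nonneg : ∀ x, 0 ≤ w x
  null : volume {x | w x = 0} = 0
  per : ∀ x, w (x + 1) = w x

namespace Prof

variable (P : Prof)

noncomputable def tau (x : ℝ) : ℝ := ∫ t in (0:ℝ)..x, P.w t

theorem hasDerivAt_tau (x : ℝ) : HasDerivAt P.tau (P.w x) x :=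
  intervalIntegral.integral_hasDerivAt_right (P.cont.intervalIntegrable _ _)
    (P.cont.stronglyMeasurableAtFilter _ _) P.cont.continuousAt

theorem cont_tau : Continuous P.tau :=
  continuous_iff_continuousAt.2 fun x => (P.hasDerivAt_tau x).continuousAt

theorem tau_sub (x y : ℝ) : P.tau y - P.tau x = ∫ t in x..y, P.w t := by
  have hint : ∀ a b : ℝ, IntervalIntegrable P.w volume a b := fun a b => P.cont.intervalIntegrable _ _
  simp only [tau]
  rw [sub_eq_iff_eq_add, add_comm, intervalIntegral.integral_add_adjacent_intervals (hint _ _) (hint _ _)]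

theorem ae_pos : ∀ᵐ x, 0 < P.w x := by
  have h := measure_eq_zero_iff_ae_notMem.1 P.null
  filter_upwards [h] with x hx
  exact lt_of_le_of_ne (P.nonneg x) (fun h => hx h.symm)

theorem strictMono_tau : StrictMono P.tau := by
  intro x y hxy
  have h1 : 0 < P.tau y - P.tau x := by
    rw [P.tau_sub, intervalIntegral.integral_of_le hxy.le,
      integral_pos_iff_support_of_nonneg_ae (Eventually.of_forall P.nonneg)
        (P.cont.integrableOn_Icc.mono_set Ioc_subset_Icc_self)]
    have h2 : volume.restrict (Ioc x y) (Function.support P.w) = volume.restrict (Ioc x y) univ := by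
      refine measure_congr ?_
      rw [ae_eq_univ]
      refine measure_mono_null ?_ (Measure.absolutelyContinuous_of_le Measure.restrict_le_self P.null)
      intro z hz
      simpa [Function.mem_support] using hz
    rw [h2]; simp [hxy]
  linarith

noncomputable def A : ℝ := P.tau 1

theorem tau_zero : P.tau 0 = 0 := by simp [tau]

theorem A_pos : 0 < P.A := by
  have := P.strictMono_tau (show (0:ℝ) < 1 by norm_num)
  rwa [P.tau_zero] at this

theorem tau_add (x : ℝ) : P.tau (x + 1) = P.tau x + P.A := by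
  have hper : Function.Periodic P.w 1 := P.per
  have h1 := P.tau_sub x (x+1)
  have h2 := P.tau_sub 0 (0+1)
  rw [hper.intervalIntegral_add_eq x 0] at h1
  rw [← h2, zero_add, P.tau_zero, sub_zero] at h1
  rw [A]; linarith

noncomputable def e : ℝ ≃o ℝ :=
  P.strictMono_tau.orderIsoOfSurjective P.tau
    (Pool.Agent.Lib.B7ec12.surj_of_add P.cont_tau P.strictMono_tau.monotone P.A_pos P.tau_add)

theorem e_apply (x : ℝ) : P.e x = P.tau x := rfl

/-- inverse of tau -/
noncomputable def phi (r : ℝ) : ℝ := P.e.symm r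

theorem phi_tau (x : ℝ) : P.phi (P.tau x) = x := by rw [← e_apply, phi, P.e.symm_apply_apply]

theorem tau_phi (x : ℝ) : P.tau (P.phi x) = x := by rw [← e_apply, phi, P.e.apply_symm_apply]

theorem cont_phi : Continuous P.phi := P.e.symm.continuous

theorem phi_mono : Monotone P.phi := P.e.symm.monotone

theorem phi_add (r : ℝ) : P.phi (r + P.A) = P.phi r + 1 := by
  conv_lhs => rw [← P.tau_phi r, ← P.tau_add, P.phi_tau]

/-- the trajectories in the first coordinate -/
noncomputable def p (x t : ℝ) : ℝ := P.phi (P.tau x + t)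

theorem p_zero (x : ℝ) : P.p x 0 = x := by rw [p, add_zero, P.phi_tau]

theorem tau_p (x t : ℝ) : P.tau (P.p x t) = P.tau x + t := by rw [p, P.tau_phi]

theorem cont_p : Continuous (Function.uncurry P.p) := by
  have h1 := P.cont_phi
  have h2 := P.cont_tau
  unfold p
  simp only [Function.uncurry_def]
  fun_prop

theorem p_A (x : ℝ) : P.p x P.A = x + 1 := by rw [p, P.phi_add, P.phi_tau]

theorem p_add (x t : ℝ) : P.p (x + 1) t = P.p x t + 1 := by
  rw [p, P.tau_add, add_right_comm, P.phi_add, p]

theorem le_p (x t : ℝ) (ht : 0 ≤ t) : x ≤ P.p x t := by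
  rw [← P.strictMono_tau.le_iff_le, P.tau_p]; linarith

theorem image_Icc (a b : ℝ) : P.tau '' Icc a b = Icc (P.tau a) (P.tau b) := by
  exact P.e.image_Icc a b

section cov
variable {F : Type*} [NormedAddCommGroup F] [NormedSpace ℝ F]

theorem integrableOn_comp_phi (a b : ℝ) (g : ℝ → F) :
    IntegrableOn (fun r => g (P.phi r)) (Icc (P.tau a) (P.tau b)) ↔
      IntegrableOn (fun x => P.w x • g x) (Icc a b) := by
  rw [← P.image_Icc a b, integrableOn_image_iff_integrableOn_abs_deriv_smul measurableSet_Icc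
    (fun x _ => (P.hasDerivAt_tau x).hasDerivWithinAt) P.strictMono_tau.injective.injOn]
  simp_rw [P.phi_tau, abs_of_nonneg (P.nonneg _)]

theorem integral_comp_phi (a b : ℝ) (g : ℝ → F) :
    ∫ r in Icc (P.tau a) (P.tau b), g (P.phi r) = ∫ x in Icc a b, P.w x • g x := by
  rw [← P.image_Icc a b, integral_image_eq_integral_abs_deriv_smul measurableSet_Icc
    (fun x _ => (P.hasDerivAt_tau x).hasDerivWithinAt) P.strictMono_tau.injective.injOn]
  simp_rw [P.phi_tau, abs_of_nonneg (P.nonneg _)]

end cov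

theorem lintegral_comp_phi (a b : ℝ) (g : ℝ → ENNReal) :
    ∫⁻ r in Icc (P.tau a) (P.tau b), g (P.phi r) = ∫⁻ x in Icc a b, ENNReal.ofReal (P.w x) * g x := by
  rw [← P.image_Icc a b, lintegral_image_eq_lintegral_abs_deriv_mul measurableSet_Icc
    (fun x _ => (P.hasDerivAt_tau x).hasDerivWithinAt) P.strictMono_tau.injective.injOn]
  simp_rw [P.phi_tau, abs_of_nonneg (P.nonneg _)]

/-- integrability along a trajectory -/
theorem integrableOn_comp_p (x t : ℝ) (g : ℝ → ℝ) :
    IntegrableOn (fun s => g (P.p x s)) (Icc 0 t) ↔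
      IntegrableOn (fun z => P.w z * g z) (Icc x (P.p x t)) := by
  have h1 := P.integrableOn_comp_phi x (P.p x t) g
  rw [P.tau_p] at h1
  rw [show (fun z => P.w z * g z) = fun z => P.w z • g z from rfl, ← h1]
  have h2 : Icc 0 t = (fun s => P.tau x + s) ⁻¹' (Icc (P.tau x) (P.tau x + t)) := by
    rw [preimage_const_add_Icc]; simp
  have hm : MeasurePreserving (fun s => P.tau x + s) volume volume := measurePreserving_add_left _ _
  rw [h2]
  exact hm.integrableOn_comp_preimage (measurableEmbedding_addLeft _)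
    (f := fun r => g (P.phi r)) (s := Icc (P.tau x) (P.tau x + t))

theorem integral_comp_p (x t : ℝ) (ht : 0 ≤ t) (g : ℝ → ℝ) :
    ∫ s in (0:ℝ)..t, g (P.p x s) = ∫ z in x..(P.p x t), P.w z * g z := by
  have h1 := P.integral_comp_phi x (P.p x t) g
  rw [P.tau_p] at h1
  rw [intervalIntegral.integral_of_le (P.le_p x t ht), ← integral_Icc_eq_integral_Ioc]
  simp only [smul_eq_mul] at h1
  rw [← h1]
  have h3 := intervalIntegral.integral_comp_add_left (a := 0) (b := t) (fun r => g (P.phi r)) (P.tau x)
  simp only [p]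
  rw [h3, add_zero, intervalIntegral.integral_of_le (by linarith), ← integral_Icc_eq_integral_Ioc]

/-- null sets are transported to null sets of times -/
theorem null_times' (x : ℝ) (N : Set ℝ) (hN : volume N = 0) : volume {s | P.p x s ∈ N} = 0 := by
  have h1 : volume (P.tau '' N) = 0 :=
    addHaar_image_eq_zero_of_differentiableOn_of_addHaar_eq_zero volume
      (fun y _ => (P.hasDerivAt_tau y).differentiableAt.differentiableWithinAt) hN
  have h2 : {s | P.p x s ∈ N} = (fun s => P.tau x + s) ⁻¹' (P.tau '' N) := by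
    ext s
    simp only [mem_ofPred_eq, mem_preimage, mem_image]
    constructor
    · intro h
      exact ⟨P.p x s, h, P.tau_p x s⟩
    · rintro ⟨y, hy, h⟩
      rw [p, ← h, P.phi_tau]; exact hy
  rw [h2, measure_preimage_add, h1]

theorem ae_times (x : ℝ) (Q : ℝ → Prop) (hQ : ∀ᵐ z, Q z) : ∀ᵐ s, Q (P.p x s) := by
  have h := P.null_times' x {z | ¬ Q z} hQ
  exact h

theorem integrableOn_inv (x t : ℝ) :
    IntegrableOn (fun s => 1 / P.w (P.p x s)) (Icc 0 t) := by
  rw [P.integrableOn_comp_p x t (fun z => 1 / P.w z)]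
  have h1 : IntegrableOn (fun _ : ℝ => (1:ℝ)) (Icc x (P.p x t)) := by simp
  refine h1.congr_fun_ae ?_
  filter_upwards [ae_restrict_of_ae P.ae_pos] with z hz
  field_simp

theorem integral_inv (x t : ℝ) (ht : 0 ≤ t) :
    ∫ s in (0:ℝ)..t, 1 / P.w (P.p x s) = P.p x t - x := by
  rw [P.integral_comp_p x t ht (fun z => 1 / P.w z)]
  have : ∫ z in x..(P.p x t), P.w z * (1 / P.w z) = ∫ z in x..(P.p x t), (1:ℝ) := by
    refine intervalIntegral.integral_congr_ae ?_
    filter_upwards [P.ae_pos] with z hz _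
    field_simp
  rw [this]; simp

variable (g : ℝ → ℝ) (K : ℝ≥0) (hg : LipschitzWith K g)

include hg in
theorem integrableOn_deriv (x t : ℝ) (ht : 0 ≤ t) :
    IntegrableOn (fun s => deriv g (P.p x s) / P.w (P.p x s)) (Icc 0 t) := by
  rw [P.integrableOn_comp_p x t (fun z => deriv g z / P.w z)]
  have hac : AbsolutelyContinuousOnInterval g x (P.p x t) :=
    (hg.lipschitzOnWith (s := uIcc x (P.p x t))).absolutelyContinuousOnInterval
  have h1 : IntegrableOn (deriv g) (Icc x (P.p x t)) := by
    have := hac.intervalIntegrable_deriv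
    rw [intervalIntegrable_iff_integrableOn_Icc_of_le (P.le_p x t ht)] at this
    exact this
  refine h1.congr_fun_ae ?_
  filter_upwards [ae_restrict_of_ae P.ae_pos] with z hz
  field_simp

include hg in
theorem integral_deriv (x t : ℝ) (ht : 0 ≤ t) :
    ∫ s in (0:ℝ)..t, deriv g (P.p x s) / P.w (P.p x s) = g (P.p x t) - g x := by
  rw [P.integral_comp_p x t ht (fun z => deriv g z / P.w z)]
  have hac : AbsolutelyContinuousOnInterval g x (P.p x t) :=
    (hg.lipschitzOnWith (s := uIcc x (P.p x t))).absolutelyContinuousOnInterval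
  rw [← hac.integral_deriv_eq_sub]
  refine intervalIntegral.integral_congr_ae ?_
  filter_upwards [P.ae_pos] with z hz _
  field_simp

/-- invariance of weighted integrals under the one-dimensional flow -/
theorem lintegral_shift (G : ℝ → ℝ≥0∞) (hG : ∀ q, G (q + 1) = G q) (t : ℝ) :
    ∫⁻ a in Ico (0:ℝ) 1, ENNReal.ofReal (P.w a) * G (P.p a t) =
      ∫⁻ r in Ioc (0:ℝ) P.A, G (P.phi r) := by
  have h1 := P.lintegral_comp_phi 0 1 (fun x => G (P.p x t))
  rw [P.tau_zero] at h1
  have h2 : ∫⁻ a in Ico (0:ℝ) 1, ENNReal.ofReal (P.w a) * G (P.p a t) =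
      ∫⁻ a in Icc (0:ℝ) 1, ENNReal.ofReal (P.w a) * G (P.p a t) :=
    setLIntegral_congr Ico_ae_eq_Icc
  rw [h2, ← h1]
  have h3 : ∫⁻ r in Icc 0 (P.tau 1), G (P.p (P.phi r) t) = ∫⁻ r in Ioc 0 P.A, G (P.phi (r + t)) := by
    rw [show P.tau 1 = P.A from rfl]
    rw [setLIntegral_congr Ioc_ae_eq_Icc.symm]
    simp only [p, P.tau_phi]
  rw [h3]
  have hm : MeasurePreserving (fun r : ℝ => r + t) volume volume := measurePreserving_add_right _ _
  have h4 : Ioc 0 P.A = (fun r => r + t) ⁻¹' (Ioc t (t + P.A)) := by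
    rw [preimage_add_const_Ioc]; simp
  rw [h4, hm.setLIntegral_comp_preimage_emb (measurableEmbedding_addRight t) (fun r => G (P.phi r))]
  have h5 := (isAddFundamentalDomain_Ioc P.A_pos t volume).setLIntegral_eq
    (isAddFundamentalDomain_Ioc P.A_pos 0 volume) (fun r => G (P.phi r)) (by
      have hper : Function.Periodic (fun r => G (P.phi r)) P.A := by
        intro r
        simp only [P.phi_add, hG]
      exact hper.map_vadd_zmultiples)
  rw [h5, zero_add, ← h4]

end Prof

end Pool.Agent.Lib.B7ins
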