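import Mathlib
import Pool.Agent.Lib.MP_b7ec12_an.Ins.Gate
import Pool.Agent.Lib.MP_b7ec12_an.Ins.Cant
import Pool.Agent.Lib.MP_b7ec12_an.Ins.Prof

set_option autoImplicit false
open MeasureTheory Set Filter Topology
open scoped ENNReal NNReal

namespace Pool.Agent.Lib.B7ins

/-- the two ratios -/
structure Par where
  l : ℝ
  L : ℝ
  l0 : 0 < l
  l1 : l < 1/2
  L0 : 0 < L
  L1 : L < 1/2

namespace Par

variable (q : Par)

/-- distance to the horizontal Cantor set -/
noncomputable def wd (x : ℝ) : ℝ := dE q.l x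

theorem wd_nonneg (x : ℝ) : 0 ≤ q.wd x := dE_nonneg _ _
theorem wd_cont : Continuous q.wd := dE_cont _
theorem wd_add (x : ℝ) : q.wd (x + 1) = q.wd x := dE_add _ _
theorem wd_lip (x y : ℝ) : |q.wd x - q.wd y| ≤ |x - y| := by
  have := (dE_lip q.l).dist_le_mul x y
  rwa [Real.dist_eq, Real.dist_eq, NNReal.coe_one, one_mul] at this

theorem wd_int (x : ℝ) (k : ℤ) : q.wd (x + k) = q.wd x := by
  have hper : Function.Periodic q.wd 1 := q.wd_add
  have := hper.int_mul k x
  simpa using this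

/-- density -/
noncomputable def prof : Prof where
  w := fun x => ss q.L (q.wd x)
  cont := (ss_cont q.L q.L0 q.L1).comp q.wd_cont
  nonneg := fun x => ss_nonneg q.L q.L0 q.L1 _ (q.wd_nonneg x)
  null := by
    refine measure_mono_null ?_ (EE_null q.l q.l0 q.l1)
    intro x hx
    rw [mem_ofPred_eq] at hx
    rw [← dE_eq_zero]
    by_contra h
    have : 0 < q.wd x := lt_of_le_of_ne (q.wd_nonneg x) (fun h2 => h h2.symm)
    exact absurd hx (ss_pos q.L q.L0 q.L1 _ this).ne'
  per := fun x => by rw [q.wd_add]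

noncomputable def W (x : ℝ) : ℝ := ss q.L (q.wd x)

theorem prof_w (x : ℝ) : q.prof.w x = q.W x := rfl
theorem W_cont : Continuous q.W := q.prof.cont
theorem W_nonneg (x : ℝ) : 0 ≤ q.W x := q.prof.nonneg x

theorem W_int (x : ℝ) (k : ℤ) : q.W (x + k) = q.W x := by
  unfold W; rw [q.wd_int]

theorem W_pos_iff (x : ℝ) : 0 < q.W x ↔ 0 < q.wd x := by
  constructor
  · intro h
    by_contra h2
    have h3 : q.wd x = 0 := le_antisymm (not_lt.1 h2) (q.wd_nonneg x)
    unfold W at h
    rw [h3, ss_zero q.L q.L0 q.L1] at h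
    exact lt_irrefl _ h
  · intro h
    exact ss_pos q.L q.L0 q.L1 _ h

theorem ae_wd_pos : ∀ᵐ x, 0 < q.wd x := by
  filter_upwards [q.prof.ae_pos] with x hx
  exact (q.W_pos_iff x).1 hx

/-- flow line with label `th` as a graph over the first coordinate -/
noncomputable def gl (th x : ℝ) : ℝ := YY q.L (q.wd x) th

theorem om_le : (1-2*q.L)/(1-q.L) ≤ 1 := by
  have := q.L0
  have := q.L1
  rw [div_le_one (by linarith)]
  linarith

theorem om_nonneg : 0 ≤ (1-2*q.L)/(1-q.L) := by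
  have := q.L0
  have := q.L1
  exact div_nonneg (by linarith) (by linarith)

theorem om_lt : (1-2*q.L)/(1-q.L) < 1 := by
  have := q.L0
  have := q.L1
  rw [div_lt_one (by linarith)]
  linarith

theorem gl_lip (th : ℝ) : LipschitzWith 1 (q.gl th) := by
  refine LipschitzWith.of_dist_le_mul fun x y => ?_
  rw [Real.dist_eq, Real.dist_eq, NNReal.coe_one, one_mul]
  have h1 := YY_lip q.L q.L0 q.L1 (q.wd x) (q.wd y) th
  have h2 := q.wd_lip x y
  have h3 := q.om_le
  have h4 := q.om_nonneg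
  refine h1.trans ?_
  calc (1-2*q.L)/(1-q.L) * |q.wd x - q.wd y| ≤ 1 * |q.wd x - q.wd y| :=
        mul_le_mul_of_nonneg_right h3 (abs_nonneg _)
    _ ≤ |x - y| := by rw [one_mul]; exact h2

theorem measurable_gl : Measurable (fun z : ℝ × ℝ => q.gl z.1 z.2) := by
  have h1 := q.wd_cont
  exact (measurable_YY2 q.L).comp (f := fun z : ℝ × ℝ => (q.wd z.2, z.1)) (by fun_prop)

/-- derivative of a flow line as a Borel function of label and place -/
noncomputable def DQ (th x : ℝ) : ℝ :=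
  max (-1) (min 1 (limsup (fun n : ℕ => ((n:ℝ)+1) * (q.gl th (x + 1/((n:ℝ)+1)) - q.gl th x)) atTop))

theorem abs_DQ_le (th x : ℝ) : |q.DQ th x| ≤ 1 := by
  unfold DQ
  rw [abs_le]
  constructor
  · exact le_max_left _ _
  · exact max_le (by norm_num) (min_le_left _ _)

theorem measurable_DQ : Measurable (fun z : ℝ × ℝ => q.DQ z.1 z.2) := by
  unfold DQ
  refine measurable_const.max (measurable_const.min ?_)
  refine Measurable.limsup fun n => ?_
  have h1 : Measurable (fun z : ℝ × ℝ => q.gl z.1 (z.2 + 1/((n:ℝ)+1))) :=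
    q.measurable_gl.comp (f := fun z : ℝ × ℝ => (z.1, z.2 + 1/((n:ℝ)+1))) (by fun_prop)
  exact (h1.sub q.measurable_gl).const_mul _

theorem DQ_eq (th x : ℝ) (h : DifferentiableAt ℝ (q.gl th) x) : q.DQ th x = deriv (q.gl th) x := by
  have h1 : |deriv (q.gl th) x| ≤ 1 := by
    have := norm_deriv_le_of_lipschitz (q.gl_lip th) (x₀ := x)
    simpa using this
  have h2 : Tendsto (fun n : ℕ => ((n:ℝ)+1) * (q.gl th (x + 1/((n:ℝ)+1)) - q.gl th x)) atTop
      (𝓝 (deriv (q.gl th) x)) := by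
    have h3 := h.hasDerivAt.tendsto_slope_zero
    have h4 : Tendsto (fun n : ℕ => 1/((n:ℝ)+1)) atTop (𝓝[≠] 0) := by
      rw [tendsto_nhdsWithin_iff]
      refine ⟨tendsto_one_div_add_atTop_nhds_zero_nat, Eventually.of_forall fun n => ?_⟩
      simp only [mem_compl_iff, mem_singleton_iff]
      positivity
    refine (h3.comp h4).congr fun n => ?_
    simp
  rw [abs_le] at h1
  unfold DQ
  rw [h2.limsup_eq, min_eq_right h1.2, max_eq_right h1.1]

theorem ae_diff (th : ℝ) : ∀ᵐ x, DifferentiableAt ℝ (q.gl th) x := (q.gl_lip th).ae_differentiableAt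

/-- moving region -/
def InM (z : ℝ × ℝ) : Prop := Int.fract z.2 ∈ MM q.L (q.wd z.1)

noncomputable instance (z : ℝ × ℝ) : Decidable (q.InM z) := Classical.propDecidable _

/-- label of a point of the moving region -/
noncomputable def th (z : ℝ × ℝ) : ℝ := lab q.L (q.wd z.1) (Int.fract z.2)

theorem measurable_th : Measurable q.th := by
  have h1 := q.wd_cont.measurable
  unfold th
  exact (measurable_lab q.L).comp (f := fun z : ℝ × ℝ => (q.wd z.1, Int.fract z.2))
    ((h1.comp measurable_fst).prodMk (measurable_fract.comp measurable_snd))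

theorem InM_iff (z : ℝ × ℝ) : q.InM z ↔ q.th z ∈ Ico (0:ℝ) 1 ∧ q.gl (q.th z) z.1 = Int.fract z.2 :=
  mem_MM_iff q.L q.L0 q.L1 _ _ (q.wd_nonneg _)

theorem measurableSet_InM : MeasurableSet {z | q.InM z} := by
  have h1 := q.measurable_th
  have h2 : Measurable (fun z : ℝ × ℝ => q.gl (q.th z) z.1) :=
    q.measurable_gl.comp (f := fun z : ℝ × ℝ => (q.th z, z.1)) (by fun_prop)
  have h3 : {z | q.InM z} = {z | q.th z ∈ Ico (0:ℝ) 1} ∩ {z | q.gl (q.th z) z.1 = Int.fract z.2} := by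
    ext z
    exact q.InM_iff z
  rw [h3]
  exact (h1 measurableSet_Ico).inter (measurableSet_eq_fun h2 (measurable_fract.comp measurable_snd))

/-- point with first coordinate `x`, label `th` and integer part `k` -/
theorem point_mem (x t : ℝ) (k : ℤ) (ht : t ∈ Ico (0:ℝ) 1) :
    q.InM (x, k + q.gl t x) ∧ q.th (x, k + q.gl t x) = t ∧ Int.fract ((k:ℝ) + q.gl t x) = q.gl t x := by
  have h1 : q.gl t x ∈ Ico (0:ℝ) 1 := YY_mem q.L q.L0 q.L1 _ _ (q.wd_nonneg _)
  have h2 : Int.fract ((k:ℝ) + q.gl t x) = q.gl t x := by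
    rw [Int.fract_intCast_add]; exact Int.fract_eq_self.2 h1
  refine ⟨?_, ?_, h2⟩
  · unfold InM
    simp only
    rw [h2]
    exact ⟨t, ht, rfl⟩
  · unfold th
    simp only
    rw [h2]
    exact lab_YY q.L q.L0 q.L1 _ t (q.wd_nonneg _) ht

/-- The flow on the plane. -/
noncomputable def XX (t : ℝ) (z : ℝ × ℝ) : ℝ × ℝ :=
  if q.InM z then (q.prof.p z.1 t, ⌊z.2⌋ + q.gl (q.th z) (q.prof.p z.1 t)) else z

theorem measurable_XX : Measurable (fun u : ℝ × (ℝ × ℝ) => q.XX u.1 u.2) := by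
  have h1 := q.prof.cont_p.measurable
  have h2 := q.measurable_th
  have h3 : Measurable (fun u : ℝ × (ℝ × ℝ) => q.prof.p u.2.1 u.1) :=
    h1.comp (f := fun u : ℝ × (ℝ × ℝ) => (u.2.1, u.1)) (by fun_prop)
  unfold XX
  refine Measurable.ite ?_ ?_ measurable_snd
  · exact measurable_snd q.measurableSet_InM
  · refine h3.prodMk (Measurable.add ?_ ?_)
    · exact (measurable_of_countable (fun k : ℤ => (k:ℝ))).comp
        (Int.measurable_floor.comp (measurable_snd.comp measurable_snd))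
    · exact q.measurable_gl.comp (f := fun u : ℝ × (ℝ × ℝ) => (q.th u.2, q.prof.p u.2.1 u.1))
        ((h2.comp measurable_snd).prodMk h3)

theorem measurable_XX' (t : ℝ) : Measurable (q.XX t) :=
  q.measurable_XX.comp (f := fun z => (t, z)) (by fun_prop)

theorem XX_not (t : ℝ) (z : ℝ × ℝ) (h : ¬ q.InM z) : q.XX t z = z := by
  unfold XX; rw [if_neg h]

theorem XX_yes (t : ℝ) (z : ℝ × ℝ) (h : q.InM z) :
    q.XX t z = (q.prof.p z.1 t, ⌊z.2⌋ + q.gl (q.th z) (q.prof.p z.1 t)) := by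
  unfold XX; rw [if_pos h]

theorem XX_zero (z : ℝ × ℝ) : q.XX 0 z = z := by
  by_cases h : q.InM z
  · rw [q.XX_yes 0 z h, q.prof.p_zero, ((q.InM_iff z).1 h).2]
    ext
    · rfl
    · exact Int.floor_add_fract z.2
  · exact q.XX_not 0 z h

theorem XX_A (z : ℝ × ℝ) : ∃ k : ℤ, q.XX q.prof.A z = (z.1 + k, z.2) := by
  by_cases h : q.InM z
  · refine ⟨1, ?_⟩
    rw [q.XX_yes _ z h, q.prof.p_A]
    have h1 : q.gl (q.th z) (z.1 + 1) = q.gl (q.th z) z.1 := by
      unfold gl; rw [q.wd_add]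
    rw [h1, ((q.InM_iff z).1 h).2, Int.floor_add_fract]
    simp
  · refine ⟨0, ?_⟩
    rw [q.XX_not _ z h]; simp

theorem InM_add (z : ℝ × ℝ) (k m : ℤ) : q.InM (z.1 + k, z.2 + m) ↔ q.InM z := by
  unfold InM
  simp only [Int.fract_add_intCast, q.wd_int]

theorem th_add (z : ℝ × ℝ) (k m : ℤ) : q.th (z.1 + k, z.2 + m) = q.th z := by
  unfold th
  simp only [Int.fract_add_intCast, q.wd_int]

theorem p_int (x t : ℝ) (k : ℤ) : q.prof.p (x + k) t = q.prof.p x t + k := by
  induction k using Int.induction_on with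
  | zero => simp
  | succ k ih =>
    push_cast at ih ⊢
    rw [← add_assoc, q.prof.p_add, ih]; ring
  | pred k ih =>
    push_cast at ih ⊢
    have h1 := q.prof.p_add (x + (-(k:ℝ) - 1)) t
    have h2 : x + (-(k:ℝ) - 1) + 1 = x + -(k:ℝ) := by ring
    rw [h2, ih] at h1
    linarith

theorem XX_add (t : ℝ) (z : ℝ × ℝ) (k m : ℤ) :
    q.XX t (z.1 + k, z.2 + m) = ((q.XX t z).1 + k, (q.XX t z).2 + m) := by
  by_cases h : q.InM z
  · rw [q.XX_yes t z h, q.XX_yes t _ ((q.InM_add z k m).2 h), q.th_add]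
    simp only
    rw [q.p_int, Int.floor_add_intCast]
    have : ∀ s x, q.gl s (x + (k:ℝ)) = q.gl s x := by
      intro s x
      unfold gl; rw [q.wd_int]
    rw [this]
    push_cast
    ext
    · rfl
    · simp only; ring
  · rw [q.XX_not t z h, q.XX_not t _ (fun h2 => h ((q.InM_add z k m).1 h2))]

noncomputable def frp (z : ℝ × ℝ) : ℝ × ℝ := (Int.fract z.1, Int.fract z.2)

theorem measurable_frp : Measurable frp := by
  unfold frp
  exact (measurable_fract.comp measurable_fst).prodMk (measurable_fract.comp measurable_snd)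

theorem lintegral_XX (t : ℝ) (F : ℝ × ℝ → ℝ≥0∞) (hF : Measurable F) :
    ∫⁻ z in (Ico (0:ℝ) 1) ×ˢ (Ico (0:ℝ) 1), F (frp (q.XX t z)) =
      (∫⁻ r in Ioc (0:ℝ) q.prof.A, ∫⁻ s in Ico (0:ℝ) 1,
        F (Int.fract (q.prof.phi r), q.gl s (q.prof.phi r))) +
      ∫⁻ a in Ico (0:ℝ) 1, ∫⁻ b in Ico (0:ℝ) 1 \ MM q.L (q.wd a), F (a, b) := by
  have hmeas : Measurable (fun z => F (frp (q.XX t z))) :=
    hF.comp (measurable_frp.comp (q.measurable_XX' t))
  set G : ℝ → ℝ≥0∞ := fun x => ∫⁻ s in Ico (0:ℝ) 1, F (Int.fract x, q.gl s x) with hG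
  have hGm : Measurable G := by
    refine Measurable.lintegral_prod_right' (f := fun z : ℝ × ℝ => F (Int.fract z.1, q.gl z.2 z.1)) ?_
    refine hF.comp ?_
    have h3 : Measurable (fun z : ℝ × ℝ => Int.fract z.1) := measurable_fract.comp measurable_fst
    exact h3.prodMk (q.measurable_gl.comp (f := fun z : ℝ × ℝ => (z.2, z.1)) (by fun_prop))
  have hGper : ∀ x, G (x + 1) = G x := by
    intro x
    simp only [hG, Int.fract_add_one, gl, q.wd_add]
  have h0 := q.prof.lintegral_shift G hGper t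
  rw [← h0]
  rw [Measure.volume_eq_prod, setLIntegral_prod _ hmeas.aemeasurable]
  have hGp : Measurable (fun a => ENNReal.ofReal (q.prof.w a) * G (q.prof.p a t)) := by
    have h2 := q.prof.cont.measurable
    have h3 : Measurable (fun a => q.prof.p a t) :=
      q.prof.cont_p.measurable.comp (f := fun a => (a, t)) (by fun_prop)
    exact (h2.ennreal_ofReal).mul (hGm.comp h3)
  rw [← lintegral_add_left hGp]
  refine setLIntegral_congr_fun_ae measurableSet_Ico ?_
  filter_upwards [q.ae_wd_pos] with a hapos ha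
  have hsub : MM q.L (q.wd a) ⊆ Ico (0:ℝ) 1 := MM_subset q.L q.L0 q.L1 _ (q.wd_nonneg a)
  have hMm : MeasurableSet (MM q.L (q.wd a)) := measurableSet_MM q.L q.L0 q.L1 _ (q.wd_nonneg a)
  have hdec : Ico (0:ℝ) 1 = MM q.L (q.wd a) ∪ (Ico (0:ℝ) 1 \ MM q.L (q.wd a)) := by
    rw [union_sdiff_cancel hsub]
  conv_lhs => rw [hdec]
  rw [lintegral_union (measurableSet_Ico.diff hMm) disjoint_sdiff_right]
  congr 1
  · rw [push_pos q.L q.L0 q.L1 _ hapos, hG, q.prof_w]
    simp only
    unfold W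
    congr 1
    refine setLIntegral_congr_fun measurableSet_Ico ?_
    intro s hs
    simp only
    obtain ⟨h1, h2, h3⟩ := q.point_mem a s 0 hs
    simp only [Int.cast_zero, zero_add] at h1 h2 h3
    have h4 : q.XX t (a, YY q.L (q.wd a) s) = (q.prof.p a t, q.gl s (q.prof.p a t)) := by
      have h5 := q.XX_yes t (a, q.gl s a) h1
      rw [h2] at h5
      have h6 : ⌊q.gl s a⌋ = 0 := by
        have h7 : q.gl s a ∈ Ico (0:ℝ) 1 := YY_mem q.L q.L0 q.L1 _ _ (q.wd_nonneg _)
        exact Int.floor_eq_zero_iff.2 h7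
      simp only [h6, Int.cast_zero, zero_add] at h5
      exact h5
    rw [h4, frp]
    simp only
    congr 2
    exact (q.point_mem (q.prof.p a t) s 0 hs).2.2 ▸ (by simp)
  · refine setLIntegral_congr_fun (measurableSet_Ico.diff hMm) ?_
    intro b hb
    simp only
    have hfb : Int.fract b = b := Int.fract_eq_self.2 hb.1
    have hb' : ¬ q.InM (a, b) := by
      unfold InM
      simp only
      rw [hfb]; exact hb.2
    rw [q.XX_not t _ hb', frp]
    simp only
    rw [Int.fract_eq_self.2 ha, hfb]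

theorem map_XX (t : ℝ) :
    Measure.map (fun z => frp (q.XX t z)) (volume.restrict ((Ico (0:ℝ) 1) ×ˢ (Ico (0:ℝ) 1))) =
      volume.restrict ((Ico (0:ℝ) 1) ×ˢ (Ico (0:ℝ) 1)) := by
  have hm : Measurable (fun z => frp (q.XX t z)) := measurable_frp.comp (q.measurable_XX' t)
  refine Measure.ext_of_lintegral _ ?_
  intro F hF
  rw [lintegral_map hF hm, q.lintegral_XX t F hF, ← q.lintegral_XX 0 F hF]
  refine setLIntegral_congr_fun (measurableSet_Ico.prod measurableSet_Ico) ?_
  rintro ⟨a, b⟩ ⟨ha, hb⟩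
  simp only
  rw [q.XX_zero, frp]
  simp only
  rw [Int.fract_eq_self.2 ha, Int.fract_eq_self.2 hb]

end Par

end Pool.Agent.Lib.B7ins
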