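import Mathlib
import Pool.Agent.Lib.MP_b7ec12_an.Ins.Flow2

set_option autoImplicit false
open MeasureTheory Set Filter Topology
open scoped ENNReal NNReal

namespace Pool.Agent.Lib.B7ins

theorem YY_small (L : ℝ) (hL0 : 0 < L) (hL : L < 1/2) (n : ℕ) : ∀ r x, L ^ n ≤ r → 0 ≤ x →
    x < (1/2) ^ n → YY L r x = ss L r * x := by
  induction n with
  | zero =>
    intro r x hr hx0 hx1
    have hr1 : 1 ≤ r := by simpa using hr
    have hx1' : x < 1 := by simpa using hx1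
    rw [YY_big L hL0 hL r x (by linarith), ss_big L hL0 hL r (by linarith), max_eq_left hr1,
      Int.fract_eq_self.2 ⟨hx0, hx1'⟩]
    ring
  | succ n ih =>
    intro r x hr hx0 hx1
    have hp : ((1:ℝ)/2) ^ n ≤ 1 := pow_le_one₀ (by norm_num) (by norm_num)
    rw [pow_succ] at hx1
    have hxh : x < 1/2 := by nlinarith
    have hx : x ∈ Ico (0:ℝ) 1 := ⟨hx0, by linarith⟩
    have h2 : Int.fract (2*x) = 2*x := Int.fract_eq_self.2 ⟨by linarith, by linarith⟩
    rcases le_or_gt L r with hLr | hLr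
    · rw [YY_big L hL0 hL r x hLr, ss_big L hL0 hL r hLr, h2, Int.fract_eq_self.2 hx]
      ring
    · have hr1 : r / L ≤ 1 := by rw [div_le_one hL0]; exact hLr.le
      have e1 : L * (r / L) = r := by field_simp
      have h3 := YY_rec L hL0 hL (r / L) x hr1
      have h4 := ss_rec L hL0 hL (r / L) hr1
      rw [e1] at h3 h4
      rw [h3, h4, h2, Int.fract_eq_self.2 hx, ih (r / L) (2*x)
        (by rw [le_div_iff₀ hL0]; rw [pow_succ] at hr; exact hr) (by linarith) (by linarith)]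
      ring

namespace Par

variable (q : Par)

theorem exists_open : ∃ U : Set (ℝ × ℝ), IsOpen U ∧ U.Nonempty ∧ ∀ z ∈ U, q.InM z := by
  obtain ⟨x0, hx0⟩ := q.ae_wd_pos.exists
  obtain ⟨n, hn⟩ := exists_pow_lt_of_lt_one hx0 (show q.L < 1 by linarith [q.L1])
  have hL0 := q.L0
  have hLn : 0 < q.L ^ n := by positivity
  refine ⟨{z | q.L ^ n < q.wd z.1 ∧ 0 < z.2 ∧ z.2 < q.L ^ n}, ?_, ?_, ?_⟩
  · have c1 : Continuous (fun z : ℝ × ℝ => q.wd z.1) := q.wd_cont.comp continuous_fst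
    exact (isOpen_lt continuous_const c1).inter
      ((isOpen_lt continuous_const continuous_snd).inter (isOpen_lt continuous_snd continuous_const))
  · exact ⟨(x0, q.L ^ n / 2), hn, by simp only; linarith, by simp only; linarith⟩
  · rintro z ⟨h1, h2, h3⟩
    have hle : q.L ^ n ≤ 1 := pow_le_one₀ hL0.le (by linarith [q.L1])
    unfold InM
    rw [Int.fract_eq_self.2 ⟨h2.le, by linarith⟩]
    have hs := ss_lower q.L q.L0 q.L1 n (q.wd z.1) h1.le
    have hs0 : 0 < (2 * q.L) ^ n := by positivity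
    have hsp : 0 < ss q.L (q.wd z.1) := hs0.trans_le hs
    have hx : z.2 / ss q.L (q.wd z.1) < (1/2) ^ n := by
      rw [div_lt_iff₀ hsp]
      calc z.2 < q.L ^ n := h3
        _ = (1/2) ^ n * (2 * q.L) ^ n := by
            rw [← mul_pow]; congr 1; ring
        _ ≤ (1/2) ^ n * ss q.L (q.wd z.1) := mul_le_mul_of_nonneg_left hs (by positivity)
    have hx0' : 0 ≤ z.2 / ss q.L (q.wd z.1) := div_nonneg h2.le hsp.le
    have hp : ((1:ℝ)/2) ^ n ≤ 1 := pow_le_one₀ (by norm_num) (by norm_num)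
    refine ⟨z.2 / ss q.L (q.wd z.1), ⟨hx0', by linarith⟩, ?_⟩
    rw [YY_small q.L q.L0 q.L1 n _ _ h1.le hx0' hx]
    field_simp

/-- finitely many translates of the moving region cover the torus -/
theorem exists_cover : ∃ (N : ℕ) (v : Fin N → ℝ × ℝ), ∀ z : ℝ × ℝ, ∃ i, q.InM (z + v i) := by
  obtain ⟨U, hUo, ⟨w, hw⟩, hU⟩ := q.exists_open
  have hK : IsCompact ((Icc (0:ℝ) 1) ×ˢ (Icc (0:ℝ) 1)) := isCompact_Icc.prod isCompact_Icc
  obtain ⟨t, ht⟩ := hK.elim_finite_subcover (fun v : ℝ × ℝ => (fun z : ℝ × ℝ => z + v) ⁻¹' U)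
    (fun v => hUo.preimage (by fun_prop)) (by
      intro z _
      refine mem_iUnion.2 ⟨w - z, ?_⟩
      simp only [mem_preimage, add_sub_cancel]
      exact hw)
  refine ⟨t.card, fun i => (t.equivFin.symm i : ℝ × ℝ), fun z => ?_⟩
  have hz : (Int.fract z.1, Int.fract z.2) ∈ (Icc (0:ℝ) 1) ×ˢ (Icc (0:ℝ) 1) :=
    ⟨⟨Int.fract_nonneg _, (Int.fract_lt_one _).le⟩, ⟨Int.fract_nonneg _, (Int.fract_lt_one _).le⟩⟩
  obtain ⟨v, hv, hzv⟩ := mem_iUnion₂.1 (ht hz)
  refine ⟨t.equivFin ⟨v, hv⟩, ?_⟩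
  simp only [Equiv.symm_apply_apply]
  have h1 := hU _ hzv
  have h2 := (q.InM_add ((Int.fract z.1, Int.fract z.2) + v) ⌊z.1⌋ ⌊z.2⌋).2 h1
  have e : (((Int.fract z.1, Int.fract z.2) + v).1 + (⌊z.1⌋:ℝ), ((Int.fract z.1, Int.fract z.2) + v).2 +
      (⌊z.2⌋:ℝ)) = z + v := by
    ext
    · simp only [Prod.fst_add]
      have := Int.fract_add_floor z.1
      linarith
    · simp only [Prod.snd_add]
      have := Int.fract_add_floor z.2
      linarith
  rw [e] at h2
  exact h2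

end Par
end Pool.Agent.Lib.B7ins
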