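import Mathlib
import Pool.Agent.Lib.MP_b7ec12_an.Ins.Flow2

set_option autoImplicit false
open MeasureTheory Set Filter Topology
open scoped ENNReal NNReal

namespace Pool.Agent.Lib.B7ins
namespace Par

variable (q : Par)

/-- periodic Cantor-type function -/
noncomputable def kt (x : ℝ) : ℝ := Real.cos (2 * Real.pi * kk q.l x) / (2 * Real.pi)

theorem kt_cont : Continuous q.kt := by
  have h := kk_cont q.l q.l0 q.l1
  unfold kt
  fun_prop

theorem kk_mono' : Monotone (kk q.l) := kk_mono q.l q.l0 q.l1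

theorem kt_sub_le (x y : ℝ) : |q.kt x - q.kt y| ≤ |kk q.l x - kk q.l y| := by
  have hpi := Real.pi_pos
  unfold kt
  rw [← sub_div, abs_div, abs_of_pos (show 0 < 2 * Real.pi by positivity), div_le_iff₀ (by positivity)]
  refine (Real.abs_cos_sub_cos_le _ _).trans ?_
  rw [← mul_sub, abs_mul, abs_of_pos (show 0 < 2 * Real.pi by positivity), mul_comm]

theorem abs_kt_le (x : ℝ) : |q.kt x| ≤ 1 := by
  have hpi := Real.pi_gt_three
  unfold kt
  rw [abs_div, abs_of_pos (show 0 < 2 * Real.pi by positivity), div_le_one (by positivity)]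
  exact (Real.abs_cos_le_one _).trans (by linarith)

theorem kt_add (x : ℝ) : q.kt (x + 1) = q.kt x := by
  unfold kt
  rw [kk_add q.l q.l0 q.l1, mul_add, mul_one, Real.cos_add_two_pi]

theorem kt_int (x : ℝ) (k : ℤ) : q.kt (x + k) = q.kt x := by
  have hper : Function.Periodic q.kt 1 := q.kt_add
  have := hper.int_mul k x
  simpa using this

theorem kt_const (x y : ℝ) (h : |y - x| < q.wd x) : q.kt y = q.kt x := by
  unfold kt
  rw [kk_const' q.l q.l0 q.l1 x y h]

/-- primitive -/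
noncomputable def Kt (x : ℝ) : ℝ := ∫ t in (0:ℝ)..x, q.kt t

theorem hasDerivAt_Kt (x : ℝ) : HasDerivAt q.Kt (q.kt x) x :=
  intervalIntegral.integral_hasDerivAt_right (q.kt_cont.intervalIntegrable _ _)
    (q.kt_cont.stronglyMeasurableAtFilter _ _) q.kt_cont.continuousAt

theorem cont_Kt : Continuous q.Kt :=
  continuous_iff_continuousAt.2 fun x => (q.hasDerivAt_Kt x).continuousAt

theorem Kt_sub (x y : ℝ) : q.Kt y - q.Kt x = ∫ t in x..y, q.kt t := by
  have hint : ∀ a b : ℝ, IntervalIntegrable q.kt volume a b := fun a b => q.kt_cont.intervalIntegrable _ _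
  simp only [Kt]
  rw [sub_eq_iff_eq_add, add_comm, intervalIntegral.integral_add_adjacent_intervals (hint _ _) (hint _ _)]

/-- mean of `kt` over the interval of radius `δ` -/
noncomputable def mp (x δ : ℝ) : ℝ := (1/2) * ∫ s in (-1:ℝ)..1, q.kt (x + δ * s)

theorem cont_mp : Continuous (fun z : ℝ × ℝ => q.mp z.1 z.2) := by
  unfold mp
  have h1 := q.kt_cont
  have h3 : Continuous (fun z : ℝ × ℝ => ∫ s in (-1:ℝ)..1, q.kt (z.1 + z.2 * s)) := by
    refine intervalIntegral.continuous_parametric_intervalIntegral_of_continuous'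
      (f := fun (z : ℝ × ℝ) s => q.kt (z.1 + z.2 * s)) ?_ _ _
    simp only [Function.uncurry_def]
    fun_prop
  fun_prop

theorem mp_eq (x δ : ℝ) (hδ : δ ≠ 0) : q.mp x δ = (q.Kt (x + δ) - q.Kt (x - δ)) / (2 * δ) := by
  unfold mp
  rw [intervalIntegral.integral_comp_add_mul _ hδ, q.Kt_sub, smul_eq_mul]
  have e1 : x + δ * (-1) = x - δ := by ring
  have e2 : x + δ * 1 = x + δ := by ring
  rw [e1, e2]
  field_simp

theorem mp_zero (x : ℝ) : q.mp x 0 = q.kt x := by
  unfold mp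
  simp only [zero_mul, add_zero, intervalIntegral.integral_const, smul_eq_mul]
  ring

theorem mp_const (x δ : ℝ) (h : |δ| < q.wd x) : q.mp x δ = q.kt x := by
  unfold mp
  have h1 : ∫ s in (-1:ℝ)..1, q.kt (x + δ * s) = ∫ s in (-1:ℝ)..1, q.kt x := by
    refine intervalIntegral.integral_congr ?_
    intro s hs
    rw [uIcc_of_le (by norm_num)] at hs
    simp only
    refine q.kt_const x _ ?_
    rw [add_sub_cancel_left, abs_mul]
    have h2 : |s| ≤ 1 := abs_le.2 hs
    have h3 := abs_nonneg δ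
    nlinarith [abs_nonneg s]
  rw [h1, intervalIntegral.integral_const, smul_eq_mul]
  ring

theorem abs_mp_le (x δ : ℝ) : |q.mp x δ| ≤ 1 := by
  unfold mp
  rw [abs_mul, abs_of_pos (show (0:ℝ) < 1/2 by norm_num)]
  have h1 : ‖∫ s in (-1:ℝ)..1, q.kt (x + δ * s)‖ ≤ 1 * |1 - (-1)| :=
    intervalIntegral.norm_integral_le_of_norm_le_const fun s _ => by
      rw [Real.norm_eq_abs]; exact q.abs_kt_le _
  rw [Real.norm_eq_abs] at h1
  norm_num at h1
  linarith

/-- derivative of `mp` in the radius -/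
noncomputable def mp' (x δ : ℝ) : ℝ :=
  (q.kt (x + δ) + q.kt (x - δ)) / (2 * δ) - (q.Kt (x + δ) - q.Kt (x - δ)) / (2 * δ ^ 2)

theorem hasDerivAt_mp (x δ : ℝ) (hδ : δ ≠ 0) : HasDerivAt (q.mp x) (q.mp' x δ) δ := by
  have h1 : q.mp x =ᶠ[𝓝 δ] fun δ => (q.Kt (x + δ) - q.Kt (x - δ)) / (2 * δ) := by
    filter_upwards [isOpen_ne.mem_nhds hδ] with b hb
    exact q.mp_eq x b hb
  refine HasDerivAt.congr_of_eventuallyEq ?_ h1
  have h2 : HasDerivAt (fun b => q.Kt (x + b)) (q.kt (x + δ)) δ := by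
    simpa using (q.hasDerivAt_Kt (x + δ)).comp_const_add x δ
  have h3 : HasDerivAt (fun b => q.Kt (x - b)) (- q.kt (x - δ)) δ := by
    simpa using (q.hasDerivAt_Kt (x - δ)).comp_const_sub x δ
  have h4 : HasDerivAt (fun b : ℝ => 2 * b) 2 δ := by
    simpa using (hasDerivAt_id δ).const_mul (2:ℝ)
  have h5 := (h2.sub h3).div h4 (by simpa using hδ)
  have h6 : ((q.kt (x + δ) - -q.kt (x - δ)) * (2 * δ) - (q.Kt (x + δ) - q.Kt (x - δ)) * 2) / (2 * δ) ^ 2
      = q.mp' x δ := by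
    unfold mp'
    field_simp
    ring
  rw [← h6]
  exact h5

theorem abs_mp'_le (x δ : ℝ) (hδ : 0 ≤ δ) :
    |q.mp' x δ| ≤ (kk q.l (x + δ) - kk q.l (x - δ)) / δ := by
  rcases hδ.eq_or_lt with h | h
  · unfold mp'
    rw [← h]; simp
  · set c := kk q.l (x + δ) - kk q.l (x - δ) with hc
    have hosc : ∀ s ∈ Icc (x - δ) (x + δ), |q.kt s - (q.kt (x + δ) + q.kt (x - δ))/2| ≤ c := by
      intro s hs
      have m1 := q.kk_mono' hs.1
      have m2 := q.kk_mono' hs.2
      have h1 := q.kt_sub_le s (x + δ)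
      have h2 := q.kt_sub_le s (x - δ)
      rw [abs_sub_comm (kk q.l s), abs_of_nonneg (a := kk q.l (x + δ) - kk q.l s) (by linarith)] at h1
      rw [abs_of_nonneg (a := kk q.l s - kk q.l (x - δ)) (by linarith)] at h2
      rw [abs_le] at h1 h2 ⊢
      constructor <;> linarith [h1.1, h1.2, h2.1, h2.2]
    have h2 : |∫ s in (x - δ)..(x + δ), (q.kt s - (q.kt (x + δ) + q.kt (x - δ))/2)| ≤ c * (2 * δ) := by
      have := intervalIntegral.norm_integral_le_of_norm_le_const (a := x - δ) (b := x + δ) (C := c)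
        (f := fun s => q.kt s - (q.kt (x + δ) + q.kt (x - δ))/2) (fun s hs => by
          rw [uIoc_of_le (by linarith)] at hs
          rw [Real.norm_eq_abs]
          exact hosc s ⟨hs.1.le, hs.2⟩)
      rw [Real.norm_eq_abs] at this
      refine this.trans ?_
      have e : x + δ - (x - δ) = 2 * δ := by ring
      rw [e, abs_of_pos (by linarith)]
    rw [intervalIntegral.integral_sub (q.kt_cont.intervalIntegrable _ _) (by simp), ← q.Kt_sub,
      intervalIntegral.integral_const, smul_eq_mul] at h2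
    have h3 : q.mp' x δ = - (q.Kt (x + δ) - q.Kt (x - δ) -
        (x + δ - (x - δ)) * ((q.kt (x + δ) + q.kt (x - δ))/2)) / (2 * δ ^ 2) := by
      unfold mp'
      field_simp
      ring
    rw [h3, abs_div, abs_neg, abs_of_pos (show 0 < 2 * δ ^ 2 by positivity), div_le_div_iff₀
      (by positivity) h]
    calc |q.Kt (x + δ) - q.Kt (x - δ) - (x + δ - (x - δ)) * ((q.kt (x + δ) + q.kt (x - δ))/2)| * δ
        ≤ (c * (2 * δ)) * δ := mul_le_mul_of_nonneg_right h2 h.le
      _ = c * (2 * δ ^ 2) := by ring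

theorem hasDerivAt_mp_zero (x : ℝ) (hx : 0 < q.wd x) : HasDerivAt (q.mp x) (q.mp' x 0) 0 := by
  have h1 : q.mp' x 0 = 0 := by unfold mp'; simp
  rw [h1]
  refine (hasDerivAt_const (0:ℝ) (q.kt x)).congr_of_eventuallyEq ?_
  have h2 : {b : ℝ | |b| < q.wd x} ∈ 𝓝 (0:ℝ) :=
    (isOpen_lt continuous_abs continuous_const).mem_nhds (by simpa using hx)
  filter_upwards [h2] with b hb
  exact q.mp_const x b hb

theorem mp_lip (x : ℝ) (hx : 0 < q.wd x) : ∃ C : ℝ≥0, LipschitzOnWith C (q.mp x) (Icc 0 1) := by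
  refine ⟨(2 / q.wd x).toNNReal, (convex_Icc 0 1).lipschitzOnWith_of_nnnorm_hasDerivWithin_le
    (f' := q.mp' x) ?_ ?_⟩
  · intro δ hδ
    rcases hδ.1.eq_or_lt with h | h
    · rw [← h]; exact (q.hasDerivAt_mp_zero x hx).hasDerivWithinAt
    · exact (q.hasDerivAt_mp x δ h.ne').hasDerivWithinAt
  · intro δ hδ
    have h0 := hδ.1
    rw [← NNReal.coe_le_coe, coe_nnnorm, Real.norm_eq_abs, Real.coe_toNNReal _ (by positivity)]
    refine (q.abs_mp'_le x δ h0).trans ?_
    rcases lt_or_ge δ (q.wd x) with h1 | h1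
    · have e1 : kk q.l (x + δ) = kk q.l x := kk_const' q.l q.l0 q.l1 x _ (by
        rw [add_sub_cancel_left, abs_of_nonneg h0]; exact h1)
      have e2 : kk q.l (x - δ) = kk q.l x := kk_const' q.l q.l0 q.l1 x _ (by
        rw [sub_sub_cancel_left, abs_neg, abs_of_nonneg h0]; exact h1)
      rw [e1, e2, sub_self, zero_div]
      positivity
    · have h2 : kk q.l (x + δ) - kk q.l (x - δ) ≤ 2 := by
        have m1 := q.kk_mono' (show x + δ ≤ x + 1 by linarith [hδ.2])
        have m2 := q.kk_mono' (show x - 1 ≤ x - δ by linarith [hδ.2])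
        have m3 := kk_add q.l q.l0 q.l1 x
        have m4 := kk_add q.l q.l0 q.l1 (x - 1)
        rw [sub_add_cancel] at m4
        linarith
      have hδ0 : 0 < δ := hx.trans_le h1
      calc (kk q.l (x + δ) - kk q.l (x - δ)) / δ ≤ 2 / δ := div_le_div_of_nonneg_right h2 h0
        _ ≤ 2 / q.wd x := div_le_div_of_nonneg_left (by norm_num) hx h1

/-- smoothing radius -/
noncomputable def dd (y : ℝ) : ℝ := dE q.L y / 2

theorem dd_nonneg (y : ℝ) : 0 ≤ q.dd y := by
  have := dE_nonneg q.L y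
  unfold dd; linarith

theorem dd_le (y : ℝ) : q.dd y ≤ 1/2 := by
  have := dE_le_one q.L y
  unfold dd; linarith

theorem dd_cont : Continuous q.dd := by
  have := dE_cont q.L
  unfold dd; fun_prop

theorem dd_lip : LipschitzWith 1 q.dd := by
  refine LipschitzWith.of_dist_le_mul fun x y => ?_
  have h := (dE_lip q.L).dist_le_mul x y
  rw [Real.dist_eq, NNReal.coe_one, one_mul] at h ⊢
  have e : q.dd x - q.dd y = (dE q.L x - dE q.L y) / 2 := by unfold dd; ring
  rw [e, abs_div, abs_of_pos (show (0:ℝ) < 2 by norm_num)]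
  have := abs_nonneg (dE q.L x - dE q.L y)
  linarith

theorem dd_add (y : ℝ) : q.dd (y + 1) = q.dd y := by
  unfold dd; rw [dE_add]

theorem dd_int (y : ℝ) (k : ℤ) : q.dd (y + k) = q.dd y := by
  have hper : Function.Periodic q.dd 1 := q.dd_add
  have := hper.int_mul k y
  simpa using this

theorem deriv_dd_int (y : ℝ) (k : ℤ) : deriv q.dd (y + k) = deriv q.dd y := by
  rw [← deriv_comp_add_const]
  congr 1
  funext y
  exact q.dd_int y k

theorem ae_dd_pos : ∀ᵐ y, 0 < q.dd y := by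
  have h := measure_eq_zero_iff_ae_notMem.1 (EE_null q.L q.L0 q.L1)
  filter_upwards [h] with y hy
  refine lt_of_le_of_ne (q.dd_nonneg y) fun h2 => hy ?_
  rw [← dE_eq_zero]
  unfold dd at h2
  linarith

/-- the function -/
noncomputable def u (z : ℝ × ℝ) : ℝ := q.mp z.1 (q.dd z.2)

theorem u_cont : Continuous q.u := by
  have h1 : Continuous (fun z : ℝ × ℝ => (z.1, q.dd z.2)) :=
    continuous_fst.prodMk (q.dd_cont.comp continuous_snd)
  have h2 := q.cont_mp.comp h1
  unfold u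
  exact h2

theorem abs_u_le (z : ℝ × ℝ) : |q.u z| ≤ 1 := q.abs_mp_le _ _

theorem u_add (z : ℝ × ℝ) (k m : ℤ) : q.u (z.1 + k, z.2 + m) = q.u z := by
  unfold u mp
  simp only
  rw [q.dd_int]
  have : ∀ s, q.kt (z.1 + k + q.dd z.2 * s) = q.kt (z.1 + q.dd z.2 * s) := by
    intro s
    rw [show z.1 + (k:ℝ) + q.dd z.2 * s = z.1 + q.dd z.2 * s + k by ring, q.kt_int]
  simp_rw [this]

/-- derivative in the first variable -/
noncomputable def D1 (z : ℝ × ℝ) : ℝ := (q.kt (z.1 + q.dd z.2) - q.kt (z.1 - q.dd z.2)) / (2 * q.dd z.2)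

/-- derivative in the second variable -/
noncomputable def D2 (z : ℝ × ℝ) : ℝ := q.mp' z.1 (q.dd z.2) * deriv q.dd z.2

theorem measurable_D1 : Measurable q.D1 := by
  have h1 := q.kt_cont.measurable
  have h2 := q.dd_cont.measurable
  unfold D1
  fun_prop

theorem measurable_D2 : Measurable q.D2 := by
  have h1 := q.kt_cont.measurable
  have h2 := q.dd_cont.measurable
  have h3 : Measurable (fun z : ℝ × ℝ => deriv q.dd z.2) := (measurable_deriv _).comp measurable_snd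
  have h4 := q.cont_Kt.measurable
  unfold D2 mp'
  fun_prop

theorem D1_add (z : ℝ × ℝ) (k m : ℤ) : q.D1 (z.1 + k, z.2 + m) = q.D1 z := by
  unfold D1
  simp only
  rw [q.dd_int, show z.1 + (k:ℝ) + q.dd z.2 = z.1 + q.dd z.2 + k by ring,
    show z.1 + (k:ℝ) - q.dd z.2 = z.1 - q.dd z.2 + k by ring, q.kt_int, q.kt_int]

theorem D2_add (z : ℝ × ℝ) (k m : ℤ) : q.D2 (z.1 + k, z.2 + m) = q.D2 z := by
  unfold D2
  simp only
  rw [q.dd_int, q.deriv_dd_int]
  congr 1
  rcases (q.dd_nonneg z.2).eq_or_lt with h | h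
  · rw [← h]; simp [mp']
  · unfold mp'
    have e3 : ∀ x, q.Kt (x + (k:ℝ) + q.dd z.2) - q.Kt (x + k - q.dd z.2) =
        q.Kt (x + q.dd z.2) - q.Kt (x - q.dd z.2) := by
      intro x
      rw [q.Kt_sub, q.Kt_sub]
      have h5 := intervalIntegral.integral_comp_add_right (a := x - q.dd z.2) (b := x + q.dd z.2)
        q.kt (k:ℝ)
      simp_rw [q.kt_int] at h5
      rw [h5]
      congr 1 <;> ring
    rw [e3, show z.1 + (k:ℝ) + q.dd z.2 = z.1 + q.dd z.2 + k by ring,
      show z.1 + (k:ℝ) - q.dd z.2 = z.1 - q.dd z.2 + k by ring, q.kt_int, q.kt_int]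

theorem hasDerivAt_u1 (a b : ℝ) (hb : 0 < q.dd b) :
    HasDerivAt (fun a => q.u (a, b)) (q.D1 (a, b)) a := by
  have h1 : (fun a => q.u (a, b)) = fun a => (q.Kt (a + q.dd b) - q.Kt (a - q.dd b)) / (2 * q.dd b) := by
    funext a; exact q.mp_eq a _ hb.ne'
  rw [h1]
  have h2 : HasDerivAt (fun a => q.Kt (a + q.dd b)) (q.kt (a + q.dd b)) a := by
    simpa using (q.hasDerivAt_Kt (a + q.dd b)).comp_add_const a (q.dd b)
  have h3 : HasDerivAt (fun a => q.Kt (a - q.dd b)) (q.kt (a - q.dd b)) a := by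
    simpa using (q.hasDerivAt_Kt (a - q.dd b)).comp_sub_const a (q.dd b)
  exact (h2.sub h3).div_const _

theorem lip_u1 (b : ℝ) (hb : 0 < q.dd b) : ∃ C : ℝ≥0, LipschitzWith C (fun a => q.u (a, b)) := by
  refine ⟨(1 / q.dd b).toNNReal, lipschitzWith_of_nnnorm_deriv_le
    (fun a => (q.hasDerivAt_u1 a b hb).differentiableAt) fun a => ?_⟩
  rw [(q.hasDerivAt_u1 a b hb).deriv, ← NNReal.coe_le_coe, coe_nnnorm, Real.norm_eq_abs,
    Real.coe_toNNReal _ (by positivity)]
  unfold D1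
  rw [abs_div, abs_of_pos (show 0 < 2 * q.dd b by linarith), div_le_div_iff₀ (by linarith) hb]
  have h1 := q.abs_kt_le (a + q.dd b)
  have h2 := q.abs_kt_le (a - q.dd b)
  have h3 : |q.kt (a + q.dd b) - q.kt (a - q.dd b)| ≤ 2 := by
    rw [abs_le] at h1 h2 ⊢
    constructor <;> linarith [h1.1, h1.2, h2.1, h2.2]
  nlinarith

theorem lip_u2 (a : ℝ) (ha : 0 < q.wd a) : ∃ C : ℝ≥0, LipschitzWith C (fun b => q.u (a, b)) := by
  obtain ⟨C, hC⟩ := q.mp_lip a ha
  refine ⟨C, LipschitzWith.of_dist_le_mul fun x y => ?_⟩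
  have hx : q.dd x ∈ Icc (0:ℝ) 1 := ⟨q.dd_nonneg x, (q.dd_le x).trans (by norm_num)⟩
  have hy : q.dd y ∈ Icc (0:ℝ) 1 := ⟨q.dd_nonneg y, (q.dd_le y).trans (by norm_num)⟩
  have h1 := hC.dist_le_mul _ hx _ hy
  have h2 := q.dd_lip.dist_le_mul x y
  rw [NNReal.coe_one, one_mul] at h2
  exact h1.trans (mul_le_mul_of_nonneg_left h2 C.coe_nonneg)

theorem hasDerivAt_u2 (a b : ℝ) (ha : 0 < q.wd a) (hb : DifferentiableAt ℝ q.dd b) :
    HasDerivAt (fun b => q.u (a, b)) (q.D2 (a, b)) b := by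
  have h1 : HasDerivAt (q.mp a) (q.mp' a (q.dd b)) (q.dd b) := by
    rcases (q.dd_nonneg b).eq_or_lt with h | h
    · rw [← h]; exact q.hasDerivAt_mp_zero a ha
    · exact q.hasDerivAt_mp a _ h.ne'
  exact h1.comp b hb.hasDerivAt

/-- the channel condition -/
theorem chan (z : ℝ × ℝ) (h : q.InM z) : q.dd z.2 < q.wd z.1 ∨ q.dd z.2 = 0 := by
  obtain ⟨s, hs, hsz⟩ := h
  have h1 : YY q.L 0 s ∈ EE q.L := by
    have h2 := cc_mem_EE q.L s
    unfold cc at h2
    rw [Int.floor_eq_zero_iff.2 hs] at h2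
    simpa using h2
  have h2 : dE q.L z.2 = dE q.L (Int.fract z.2) := by
    have hper : Function.Periodic (dE q.L) 1 := dE_add q.L
    have := hper.int_mul ⌊z.2⌋ (Int.fract z.2)
    rw [mul_one, Int.fract_add_floor] at this
    exact this
  have h3 : dE q.L (Int.fract z.2) ≤ dist (Int.fract z.2) (YY q.L 0 s) :=
    Metric.infDist_le_dist_of_mem h1
  rw [← hsz, Real.dist_eq] at h3
  have h4 := YY_lip q.L q.L0 q.L1 (q.wd z.1) 0 s
  rw [sub_zero, abs_of_nonneg (q.wd_nonneg z.1)] at h4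
  have h5 : dE q.L z.2 ≤ q.wd z.1 := by
    rw [h2, ← hsz]
    refine (h3.trans h4).trans ?_
    have := q.om_le
    have := q.wd_nonneg z.1
    nlinarith
  unfold dd
  rcases (q.wd_nonneg z.1).eq_or_lt with h6 | h6
  · right
    have := dE_nonneg q.L z.2
    rw [← h6] at h5
    linarith
  · left; linarith

theorem u_chan (z : ℝ × ℝ) (h : q.InM z) : q.u z = q.kt z.1 := by
  unfold u
  rcases q.chan z h with h1 | h1
  · refine q.mp_const _ _ ?_
    rw [abs_of_nonneg (q.dd_nonneg _)]; exact h1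
  · rw [h1, q.mp_zero]

theorem D1_chan (z : ℝ × ℝ) (h : q.InM z) : q.D1 z = 0 := by
  unfold D1
  rcases q.chan z h with h1 | h1
  · have e1 : q.kt (z.1 + q.dd z.2) = q.kt z.1 := q.kt_const _ _ (by
      rw [add_sub_cancel_left, abs_of_nonneg (q.dd_nonneg _)]; exact h1)
    have e2 : q.kt (z.1 - q.dd z.2) = q.kt z.1 := q.kt_const _ _ (by
      rw [sub_sub_cancel_left, abs_neg, abs_of_nonneg (q.dd_nonneg _)]; exact h1)
    rw [e1, e2, sub_self, zero_div]
  · rw [h1]; simp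

theorem D2_chan (z : ℝ × ℝ) (h : q.InM z) : q.D2 z = 0 := by
  have h3 : |q.mp' z.1 (q.dd z.2)| ≤ 0 := by
    refine (q.abs_mp'_le _ _ (q.dd_nonneg _)).trans ?_
    rcases q.chan z h with h1 | h1
    · have e1 : kk q.l (z.1 + q.dd z.2) = kk q.l z.1 := kk_const' q.l q.l0 q.l1 _ _ (by
        rw [add_sub_cancel_left, abs_of_nonneg (q.dd_nonneg _)]; exact h1)
      have e2 : kk q.l (z.1 - q.dd z.2) = kk q.l z.1 := kk_const' q.l q.l0 q.l1 _ _ (by
        rw [sub_sub_cancel_left, abs_neg, abs_of_nonneg (q.dd_nonneg _)]; exact h1)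
      rw [e1, e2, sub_self, zero_div]
    · rw [h1]; simp
  unfold D2
  rw [abs_nonpos_iff.1 h3, zero_mul]

/-- the dominating difference quotient -/
noncomputable def G (z : ℝ × ℝ) : ℝ :=
  (kk q.l (z.1 + q.dd z.2) - kk q.l (z.1 - q.dd z.2)) / (2 * q.dd z.2)

theorem G_nonneg (z : ℝ × ℝ) : 0 ≤ q.G z := by
  unfold G
  have h1 := q.dd_nonneg z.2
  have h2 := q.kk_mono' (show z.1 - q.dd z.2 ≤ z.1 + q.dd z.2 by linarith)
  exact div_nonneg (by linarith) (by linarith)

theorem abs_D1_le (z : ℝ × ℝ) : |q.D1 z| ≤ 2 * q.G z := by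
  have h0 := q.G_nonneg z
  have h1 := q.dd_nonneg z.2
  have h2 := q.kk_mono' (show z.1 - q.dd z.2 ≤ z.1 + q.dd z.2 by linarith)
  have h3 : |q.D1 z| ≤ q.G z := by
    unfold D1 G
    rw [abs_div, abs_of_nonneg (show 0 ≤ 2 * q.dd z.2 by linarith)]
    refine div_le_div_of_nonneg_right ?_ (by linarith)
    have := q.kt_sub_le (z.1 + q.dd z.2) (z.1 - q.dd z.2)
    rwa [abs_of_nonneg (a := kk q.l (z.1 + q.dd z.2) - kk q.l (z.1 - q.dd z.2)) (by linarith)] at this
  linarith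

theorem abs_deriv_dd_le (y : ℝ) : |deriv q.dd y| ≤ 1 := by
  have := norm_deriv_le_of_lipschitz q.dd_lip (x₀ := y)
  simpa using this

theorem abs_D2_le (z : ℝ × ℝ) : |q.D2 z| ≤ 2 * q.G z := by
  unfold D2
  rw [abs_mul]
  have h1 := q.abs_mp'_le z.1 (q.dd z.2) (q.dd_nonneg _)
  have h2 := q.abs_deriv_dd_le z.2
  have h3 : (kk q.l (z.1 + q.dd z.2) - kk q.l (z.1 - q.dd z.2)) / q.dd z.2 = 2 * q.G z := by
    unfold G
    rcases (q.dd_nonneg z.2).eq_or_lt with h | h
    · rw [← h]; simp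
    · field_simp
  rw [h3] at h1
  have h4 := q.G_nonneg z
  have h5 := abs_nonneg (q.mp' z.1 (q.dd z.2))
  have h6 := abs_nonneg (deriv q.dd z.2)
  nlinarith

end Par
end Pool.Agent.Lib.B7ins
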