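import Mathlib
import Pool.Agent.Lib.MP_b7ec12_an.Ins.Smooth

set_option autoImplicit false
open MeasureTheory Set Filter Topology
open scoped ENNReal NNReal

namespace Pool.Agent.Lib.B7ins
namespace Par

variable (q : Par)

theorem measurable_G : Measurable q.G := by
  have h1 := (kk_cont q.l q.l0 q.l1).measurable
  have h2 := q.dd_cont.measurable
  unfold G
  fun_prop

/-- the mean of the difference quotient over a period -/
theorem int_G (b : ℝ) (hb : 0 < q.dd b) : ∫⁻ a in Ico (0:ℝ) 1, ENNReal.ofReal (q.G (a, b)) = 1 := by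
  have hk := kk_cont q.l q.l0 q.l1
  have hcont : Continuous (fun a => q.G (a, b)) := by
    unfold G
    simp only
    exact (by fun_prop : Continuous fun a => kk q.l (a + q.dd b) - kk q.l (a - q.dd b)).div_const _
  have hint : ∀ a b : ℝ, IntervalIntegrable (kk q.l) volume a b := fun a b => hk.intervalIntegrable _ _
  rw [← ofReal_integral_eq_lintegral_ofReal]
  · rw [integral_Ico_eq_integral_Ioo, ← integral_Ioc_eq_integral_Ioo,
      ← intervalIntegral.integral_of_le zero_le_one]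
    have h1 : ∫ a in (0:ℝ)..1, q.G (a, b) = 1 := by
      unfold G
      simp only
      rw [intervalIntegral.integral_div, intervalIntegral.integral_sub
        (Continuous.intervalIntegrable (by fun_prop) _ _) (Continuous.intervalIntegrable (by fun_prop) _ _),
        intervalIntegral.integral_comp_add_right, intervalIntegral.integral_comp_sub_right,
        div_eq_one_iff_eq (by linarith)]
      have e1 := intervalIntegral.integral_add_adjacent_intervals (hint (0 - q.dd b) (0 + q.dd b))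
        (hint (0 + q.dd b) (1 + q.dd b))
      have e2 := intervalIntegral.integral_add_adjacent_intervals (hint (0 - q.dd b) (1 - q.dd b))
        (hint (1 - q.dd b) (1 + q.dd b))
      have e3 : ∫ x in (1 - q.dd b)..(1 + q.dd b), kk q.l x =
          ∫ x in (0 - q.dd b)..(0 + q.dd b), kk q.l (x + 1) := by
        rw [intervalIntegral.integral_comp_add_right]
        congr 1 <;> ring
      have e4 : ∫ x in (0 - q.dd b)..(0 + q.dd b), kk q.l (x + 1) =
          (∫ x in (0 - q.dd b)..(0 + q.dd b), kk q.l x) + 2 * q.dd b := by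
        simp_rw [kk_add q.l q.l0 q.l1]
        rw [intervalIntegral.integral_add (hint _ _) (by simp), intervalIntegral.integral_const,
          smul_eq_mul]
        ring
      linarith
    rw [h1]; simp
  · exact (hcont.integrableOn_Icc (a := 0) (b := 1)).mono_set Ico_subset_Icc_self
  · exact Eventually.of_forall fun a => q.G_nonneg _

theorem G_le (D : ℝ) (hD : q.l ^ (1-D) = 1/2) (hD1 : D < 1) (a b : ℝ) (hb : 0 < q.dd b) :
    q.G (a, b) ≤ (((1-2*q.l) * q.l ^ 2) ^ (1-D))⁻¹ * dE q.L b ^ (-D) := by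
  have h0 := q.l0
  have h1 := q.l1
  have hc : 0 < (1-2*q.l) * q.l ^ 2 := mul_pos (by linarith) (by positivity)
  have hd : 2 * q.dd b = dE q.L b := by unfold dd; ring
  have hd0 : 0 < dE q.L b := by rw [← hd]; linarith
  have hd1 := dE_le_one q.L b
  have h2 := kk_holder q.l h0 h1 D hD hD1 (a - q.dd b) (a + q.dd b) (by linarith)
    (by linarith)
  have e : a + q.dd b - (a - q.dd b) = dE q.L b := by rw [← hd]; ring
  rw [e, Real.div_rpow hd0.le hc.le] at h2
  unfold G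
  simp only
  rw [hd, div_le_iff₀ hd0]
  refine h2.trans (le_of_eq ?_)
  have e2 : dE q.L b ^ (1-D) = dE q.L b ^ (-D) * dE q.L b := by
    nth_rewrite 3 [← Real.rpow_one (dE q.L b)]
    rw [← Real.rpow_add hd0]
    congr 1
    ring
  rw [e2]
  field_simp

theorem lint_G (D e r : ℝ) (hD : q.l ^ (1-D) = 1/2) (he : q.L ^ (1-e) = 1/2) (hD0 : 0 ≤ D) (hD1 : D < 1)
    (hr : 1 ≤ r) (h : D * (r-1) < e) :
    ∫⁻ z in (Ico (0:ℝ) 1) ×ˢ (Ico (0:ℝ) 1), ENNReal.ofReal (q.G z) ^ r < ∞ := by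
  have hm : Measurable (fun z => ENNReal.ofReal (q.G z) ^ r) := (q.measurable_G.ennreal_ofReal).pow_const r
  rw [Measure.volume_eq_prod, setLIntegral_prod_symm _ hm.aemeasurable]
  have hc : 0 < (1-2*q.l) * q.l ^ 2 := mul_pos (by linarith [q.l1]) (by have := q.l0; positivity)
  set C : ℝ := (((1-2*q.l) * q.l ^ 2) ^ (1-D))⁻¹ with hC
  have hC0 : 0 ≤ C := by rw [hC]; positivity
  have h1 := int_dE q.L e (D*(r-1)) q.L0 q.L1 he (mul_nonneg hD0 (by linarith)) h
  have h2 : ∫⁻ b in Ico (0:ℝ) 1, ∫⁻ a in Ico (0:ℝ) 1, ENNReal.ofReal (q.G (a, b)) ^ r ≤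
      ∫⁻ b in Ico (0:ℝ) 1, ENNReal.ofReal (C ^ (r-1)) * ENNReal.ofReal (dE q.L b ^ (-(D*(r-1)))) := by
    refine lintegral_mono_ae ?_
    filter_upwards [ae_restrict_of_ae q.ae_dd_pos] with b hb
    have hd0 : 0 < dE q.L b := by
      have hb' := hb
      unfold dd at hb'
      linarith
    have h3 : ∀ a, ENNReal.ofReal (q.G (a, b)) ^ r ≤
        ENNReal.ofReal ((C * dE q.L b ^ (-D)) ^ (r-1)) * ENNReal.ofReal (q.G (a, b)) := by
      intro a
      have hg := q.G_nonneg (a, b)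
      have h4 := q.G_le D hD hD1 a b hb
      rw [ENNReal.ofReal_rpow_of_nonneg hg (by linarith), ← ENNReal.ofReal_mul (by positivity)]
      refine ENNReal.ofReal_le_ofReal ?_
      have e1 : q.G (a, b) ^ r = q.G (a, b) ^ (r-1) * q.G (a, b) := by
        nth_rewrite 3 [← Real.rpow_one (q.G (a, b))]
        rw [← Real.rpow_add_of_nonneg hg (by linarith) zero_le_one]
        congr 1
        ring
      rw [e1]
      exact mul_le_mul_of_nonneg_right (Real.rpow_le_rpow hg h4 (by linarith)) hg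
    calc ∫⁻ a in Ico (0:ℝ) 1, ENNReal.ofReal (q.G (a, b)) ^ r
        ≤ ∫⁻ a in Ico (0:ℝ) 1, ENNReal.ofReal ((C * dE q.L b ^ (-D)) ^ (r-1)) *
            ENNReal.ofReal (q.G (a, b)) := lintegral_mono fun a => h3 a
      _ = ENNReal.ofReal ((C * dE q.L b ^ (-D)) ^ (r-1)) := by
          rw [lintegral_const_mul' _ _ ENNReal.ofReal_ne_top, q.int_G b hb, mul_one]
      _ = ENNReal.ofReal (C ^ (r-1)) * ENNReal.ofReal (dE q.L b ^ (-(D*(r-1)))) := by
          rw [← ENNReal.ofReal_mul (by positivity), Real.mul_rpow hC0 (by positivity),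
            ← Real.rpow_mul hd0.le, neg_mul]
  refine h2.trans_lt ?_
  rw [lintegral_const_mul' _ _ ENNReal.ofReal_ne_top]
  exact ENNReal.mul_lt_top ENNReal.ofReal_lt_top h1

theorem lint_of_le (D e r : ℝ) (hD : q.l ^ (1-D) = 1/2) (he : q.L ^ (1-e) = 1/2) (hD0 : 0 ≤ D)
    (hD1 : D < 1) (hr : 1 ≤ r) (h : D * (r-1) < e) (F : ℝ × ℝ → ℝ) (hF : ∀ z, |F z| ≤ 2 * q.G z) :
    ∫⁻ z in (Ico (0:ℝ) 1) ×ˢ (Ico (0:ℝ) 1), ‖F z‖ₑ ^ r < ∞ := by
  have h1 := q.lint_G D e r hD he hD0 hD1 hr h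
  have h2 : ∀ z, ‖F z‖ₑ ^ r ≤ (2:ℝ≥0∞) ^ r * ENNReal.ofReal (q.G z) ^ r := by
    intro z
    rw [← ENNReal.mul_rpow_of_nonneg _ _ (by linarith)]
    refine ENNReal.rpow_le_rpow ?_ (by linarith)
    rw [← ofReal_norm, Real.norm_eq_abs]
    refine (ENNReal.ofReal_le_ofReal (hF z)).trans (le_of_eq ?_)
    rw [ENNReal.ofReal_mul (by norm_num)]
    simp
  refine (lintegral_mono fun z => h2 z).trans_lt ?_
  have h3 : (2:ℝ≥0∞) ^ r < ∞ := ENNReal.rpow_lt_top_of_nonneg (by linarith) (by simp)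
  rw [lintegral_const_mul' _ _ h3.ne]
  exact ENNReal.mul_lt_top h3 h1

end Par

/-- from the unit square to all bounded boxes -/
theorem lint_box (F : ℝ × ℝ → ℝ≥0∞) (hper : ∀ (z : ℝ × ℝ) (k m : ℤ), F (z.1 + k, z.2 + m) = F z)
    (h : ∫⁻ z in (Ico (0:ℝ) 1) ×ˢ (Ico (0:ℝ) 1), F z < ∞) (R : ℝ) :
    ∫⁻ z in (Icc (-R) R) ×ˢ (Icc (-R) R), F z < ∞ := by
  set M : ℕ := ⌈R⌉₊ + 1 with hM
  have hR : R ≤ ⌈R⌉₊ := Nat.le_ceil R
  set T : Finset (ℤ × ℤ) := (Finset.Icc (-(M:ℤ)) M) ×ˢ (Finset.Icc (-(M:ℤ)) M) with hT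
  have hsub : (Icc (-R) R) ×ˢ (Icc (-R) R) ⊆ ⋃ k : T,
      (fun z : ℝ × ℝ => z + (((k.1.1:ℤ):ℝ), ((k.1.2:ℤ):ℝ))) ⁻¹' ((Ico (0:ℝ) 1) ×ˢ (Ico (0:ℝ) 1)) := by
    rintro ⟨x, y⟩ ⟨hx, hy⟩
    simp only [mem_Icc] at hx hy
    have key : ∀ x : ℝ, -R ≤ x → x ≤ R → -⌊x⌋ ∈ Finset.Icc (-(M:ℤ)) M := by
      intro x h1 h2
      have h3 := Int.floor_le x
      have h4 := Int.lt_floor_add_one x
      rw [Finset.mem_Icc]
      constructor
      · have : (⌊x⌋:ℝ) ≤ (M:ℤ) := by rw [hM]; push_cast; linarith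
        have : ⌊x⌋ ≤ (M:ℤ) := by exact_mod_cast this
        omega
      · have : -((M:ℤ):ℝ) ≤ ⌊x⌋ := by rw [hM]; push_cast; linarith
        have : -(M:ℤ) ≤ ⌊x⌋ := by exact_mod_cast this
        omega
    refine mem_iUnion.2 ⟨⟨(-⌊x⌋, -⌊y⌋), ?_⟩, ?_⟩
    · rw [hT, Finset.mem_product]
      exact ⟨key x hx.1 hx.2, key y hy.1 hy.2⟩
    · simp only [mem_preimage, Prod.mk_add_mk, mem_prod, mem_Ico]
      push_cast
      refine ⟨⟨?_, ?_⟩, ⟨?_, ?_⟩⟩
      · linarith [Int.floor_le x]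
      · linarith [Int.lt_floor_add_one x]
      · linarith [Int.floor_le y]
      · linarith [Int.lt_floor_add_one y]
  refine (lintegral_mono_set hsub).trans_lt ?_
  refine (lintegral_iUnion_le _ _).trans_lt ?_
  rw [tsum_fintype]
  refine ENNReal.sum_lt_top.2 fun k _ => ?_
  have hm : MeasurePreserving (fun z : ℝ × ℝ => z + (((k.1.1:ℤ):ℝ), ((k.1.2:ℤ):ℝ))) volume volume :=
    measurePreserving_add_right _ _
  have h1 := hm.setLIntegral_comp_preimage_emb (measurableEmbedding_addRight _) F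
    ((Ico (0:ℝ) 1) ×ˢ (Ico (0:ℝ) 1))
  have h2 : ∀ z : ℝ × ℝ, F (z + (((k.1.1:ℤ):ℝ), ((k.1.2:ℤ):ℝ))) = F z := fun z => hper z k.1.1 k.1.2
  simp_rw [h2] at h1
  rw [h1]
  exact h

end Pool.Agent.Lib.B7ins
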