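import Mathlib

set_option autoImplicit false
open MeasureTheory Set Filter Topology
open scoped ENNReal NNReal

namespace Pool.Agent.Lib.B7ins

/-- ramp from 0 to 1 on `[c, c+h]` -/
noncomputable def rp (c h t : ℝ) : ℝ := max 0 (min 1 ((t - c) / h))

/-- its derivative -/
noncomputable def dr (c h t : ℝ) : ℝ := if c < t ∧ t < c + h then 1 / h else 0

theorem rp_nonneg (c h t : ℝ) : 0 ≤ rp c h t := le_max_left _ _
theorem rp_le (c h t : ℝ) : rp c h t ≤ 1 := max_le zero_le_one (min_le_left _ _)

theorem rp_cont (c h : ℝ) : Continuous (rp c h) := by unfold rp; fun_prop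

theorem rp_left (c h t : ℝ) (hh : 0 < h) (ht : t ≤ c) : rp c h t = 0 := by
  unfold rp
  have : (t - c) / h ≤ 0 := div_nonpos_of_nonpos_of_nonneg (by linarith) hh.le
  rw [min_eq_right (by linarith), max_eq_left this]

theorem rp_right (c h t : ℝ) (hh : 0 < h) (ht : c + h ≤ t) : rp c h t = 1 := by
  unfold rp
  have : 1 ≤ (t - c) / h := by rw [le_div_iff₀ hh]; linarith
  rw [min_eq_left this, max_eq_right zero_le_one]

theorem rp_mid (c h t : ℝ) (hh : 0 < h) (h1 : c ≤ t) (h2 : t ≤ c + h) : rp c h t = (t - c) / h := by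
  unfold rp
  have h3 : (t - c) / h ≤ 1 := by rw [div_le_one hh]; linarith
  have h4 : 0 ≤ (t - c) / h := div_nonneg (by linarith) hh.le
  rw [min_eq_right h3, max_eq_right h4]

theorem dr_meas (c h : ℝ) : Measurable (dr c h) := by
  unfold dr
  exact Measurable.ite ((measurableSet_Ioi).inter (measurableSet_Iio)) measurable_const measurable_const

theorem dr_zero (c h t : ℝ) (ht : ¬ (c < t ∧ t < c + h)) : dr c h t = 0 := by
  unfold dr; rw [if_neg ht]

theorem dr_abs_le (c h t : ℝ) (hh : 0 < h) : |dr c h t| ≤ 1 / h := by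
  unfold dr
  split_ifs
  · rw [abs_of_pos (by positivity)]
  · rw [abs_zero]; positivity

theorem rp_lip (c h : ℝ) (hh : 0 < h) : LipschitzWith (1 / h).toNNReal (rp c h) := by
  have h1 : LipschitzWith (1 / h).toNNReal (fun t => (t - c) / h) := by
    refine LipschitzWith.of_dist_le_mul fun s t => ?_
    rw [Real.dist_eq, Real.dist_eq, Real.coe_toNNReal _ (by positivity)]
    have : (s - c) / h - (t - c) / h = 1 / h * (s - t) := by field_simp; ring
    rw [this, abs_mul, abs_of_pos (show 0 < 1 / h by positivity)]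
  unfold rp
  exact (h1.const_min 1).const_max 0

theorem rp_deriv (c h : ℝ) (hh : 0 < h) : ∀ᵐ t, HasDerivAt (rp c h) (dr c h t) t := by
  have h0 : ∀ᵐ t : ℝ, t ∉ ({c, c + h} : Set ℝ) :=
    measure_eq_zero_iff_ae_notMem.1 (((finite_singleton (c + h)).insert c).measure_zero volume)
  filter_upwards [h0] with t ht
  simp only [mem_insert_iff, mem_singleton_iff, not_or] at ht
  rcases lt_trichotomy t c with h1 | h1 | h1
  · rw [dr_zero c h t (fun h2 => by linarith [h2.1])]
    refine (hasDerivAt_const t (0:ℝ)).congr_of_eventuallyEq ?_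
    filter_upwards [Iio_mem_nhds h1] with s hs
    exact rp_left c h s hh (le_of_lt hs)
  · exact absurd h1 ht.1
  · rcases lt_trichotomy t (c + h) with h2 | h2 | h2
    · have h3 : dr c h t = 1 / h := by unfold dr; rw [if_pos ⟨h1, h2⟩]
      rw [h3]
      have h4 : HasDerivAt (fun t => (t - c) / h) (1 / h) t :=
        ((hasDerivAt_id t).sub_const c).div_const h
      refine h4.congr_of_eventuallyEq ?_
      filter_upwards [Ioo_mem_nhds h1 h2] with s hs
      exact rp_mid c h s hh hs.1.le hs.2.le
    · exact absurd h2 ht.2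
    · rw [dr_zero c h t (fun h3 => by linarith [h3.2])]
      refine (hasDerivAt_const t (1:ℝ)).congr_of_eventuallyEq ?_
      filter_upwards [Ioi_mem_nhds h2] with s hs
      exact rp_right c h s hh (le_of_lt hs)

theorem rp_mid' (c h t b : ℝ) (hh : 0 < h) (h1 : c < t) (hb : b = min t (c+h)) :
    rp c h t = (b - c) / h := by
  rcases le_total t (c+h) with h2 | h2
  · rw [hb, min_eq_left h2, rp_mid c h t hh h1.le h2]
  · rw [hb, min_eq_right h2, rp_right c h t hh h2]
    field_simp
    ring

/-- substitution along a ramp -/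
theorem ramp_subst (A c h : ℝ) (hA : 0 < A) (hc : 0 ≤ c) (hh : 0 < h) (g : ℝ → ℝ)
    (hg : IntegrableOn g (Icc 0 A)) (t : ℝ) (ht : 0 ≤ t) :
    IntervalIntegrable (fun s => (A * dr c h s) * g (A * rp c h s)) volume 0 t ∧
    ∫ s in (0:ℝ)..t, (A * dr c h s) * g (A * rp c h s) = ∫ r in (0:ℝ)..(A * rp c h t), g r := by
  set K := A / h with hK
  have hK0 : 0 < K := by positivity
  have hloc : ∀ s, (A * dr c h s) * g (A * rp c h s) =
      (Ioo c (c+h)).indicator (fun s => K * g (K * s - K * c)) s := by
    intro s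
    by_cases hs : c < s ∧ s < c + h
    · rw [indicator_of_mem (show s ∈ Ioo c (c+h) from hs), rp_mid c h s hh hs.1.le hs.2.le]
      have : dr c h s = 1 / h := by unfold dr; rw [if_pos hs]
      rw [this]
      have e1 : A * (1 / h) = K := by rw [hK]; ring
      have e2 : A * ((s - c) / h) = K * s - K * c := by rw [hK]; ring
      rw [e1, e2]
    · rw [indicator_of_notMem (show s ∉ Ioo c (c+h) from hs), dr_zero c h s hs]; ring
  have hgI : IntervalIntegrable g volume 0 A := by
    rw [intervalIntegrable_iff_integrableOn_Icc_of_le hA.le]; exact hg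
  have hint : IntegrableOn (fun s => K * g (K * s - K * c)) (Icc c (c+h)) := by
    have h1 : IntervalIntegrable (fun s => g (K * s)) volume (0 / K) (A / K) := hgI.comp_mul_left
    have h2 := h1.comp_sub_right c
    have e1 : (0:ℝ) / K + c = c := by simp
    have e2 : A / K + c = c + h := by
      rw [hK]; field_simp; ring
    rw [e1, e2, intervalIntegrable_iff_integrableOn_Icc_of_le (by linarith)] at h2
    have h3 : IntegrableOn (fun s => K * g (K * (s - c))) (Icc c (c+h)) := h2.const_mul K
    refine h3.congr_fun (fun s _ => ?_) measurableSet_Icc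
    simp only
    rw [mul_sub]
  simp_rw [hloc]
  have hind : Integrable ((Ioo c (c+h)).indicator (fun s => K * g (K * s - K * c))) :=
    (integrable_indicator_iff measurableSet_Ioo).2 (hint.mono_set Ioo_subset_Icc_self)
  refine ⟨hind.intervalIntegrable, ?_⟩
  rw [intervalIntegral.integral_of_le ht, setIntegral_indicator measurableSet_Ioo]
  rcases le_or_gt t c with h1 | h1
  · have : Ioc 0 t ∩ Ioo c (c+h) = ∅ := by
      ext s; simp only [mem_inter_iff, mem_Ioc, mem_Ioo, mem_empty_iff_false, iff_false]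
      rintro ⟨⟨_, h2⟩, h3, _⟩
      linarith
    rw [this, rp_left c h t hh h1]; simp
  · set b := min t (c+h) with hb
    have hb1 : c < b := lt_min h1 (by linarith)
    have hset : (Ioc 0 t ∩ Ioo c (c+h) : Set ℝ) =ᵐ[volume] Ioc c b := by
      have h2 : (Ioo c (c+h) : Set ℝ) =ᵐ[volume] Ioc c (c+h) := Ioo_ae_eq_Ioc
      have h3 : (Ioc 0 t ∩ Ioo c (c+h) : Set ℝ) =ᵐ[volume] (Ioc 0 t ∩ Ioc c (c+h) : Set ℝ) :=
        (Filter.EventuallyEq.refl _ _).inter h2
      refine h3.trans ?_
      have h4 : (Ioc 0 t ∩ Ioc c (c+h) : Set ℝ) = Ioc c b := by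
        rw [Ioc_inter_Ioc, max_eq_right hc]
      exact Filter.EventuallyEq.of_eq h4
    rw [setIntegral_congr_set hset, ← intervalIntegral.integral_of_le hb1.le,
      intervalIntegral.integral_const_mul]
    have h5 := intervalIntegral.smul_integral_comp_mul_sub (a := c) (b := b) g K (K * c)
    rw [smul_eq_mul, sub_self] at h5
    rw [h5]
    congr 1
    rw [rp_mid' c h t b hh h1 hb]
    rw [hK]; ring

end Pool.Agent.Lib.B7ins
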