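import Mathlib
import Pool.Agent.Lib.MP_b7ec12_an.Ins.Flow2

set_option autoImplicit false
open MeasureTheory Set Filter Topology
open scoped ENNReal NNReal

namespace Pool.Agent.Lib.B7ins
namespace Par

variable (q : Par)

/-- velocity -/
noncomputable def vv (z : ℝ × ℝ) : ℝ × ℝ :=
  if q.InM z then (1 / q.W z.1, q.DQ (q.th z) z.1 / q.W z.1) else (0, 0)

theorem measurable_vv : Measurable q.vv := by
  have h1 : Measurable (fun z : ℝ × ℝ => q.W z.1) := q.W_cont.measurable.comp measurable_fst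
  have h2 := q.measurable_th
  have h3 : Measurable (fun z : ℝ × ℝ => q.DQ (q.th z) z.1) :=
    q.measurable_DQ.comp (f := fun z : ℝ × ℝ => (q.th z, z.1)) (by fun_prop)
  unfold vv
  refine Measurable.ite q.measurableSet_InM ?_ measurable_const
  exact (measurable_const.div h1).prodMk (h3.div h1)

theorem DQ_int (s x : ℝ) (k : ℤ) : q.DQ s (x + k) = q.DQ s x := by
  have h : ∀ y, q.gl s (y + (k:ℝ)) = q.gl s y := by
    intro y
    unfold gl; rw [q.wd_int]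
  unfold DQ
  have h2 : ∀ n : ℕ, x + (k:ℝ) + 1/((n:ℝ)+1) = x + 1/((n:ℝ)+1) + k := fun n => by ring
  simp_rw [h2, h]

theorem vv_add (z : ℝ × ℝ) (k m : ℤ) : q.vv (z.1 + k, z.2 + m) = q.vv z := by
  unfold vv
  by_cases h : q.InM z
  · rw [if_pos h, if_pos ((q.InM_add z k m).2 h), q.th_add]
    simp only
    rw [q.W_int, q.DQ_int]
  · rw [if_neg h, if_neg (fun h2 => h ((q.InM_add z k m).1 h2))]

theorem vv_not (z : ℝ × ℝ) (h : ¬ q.InM z) : q.vv z = (0, 0) := by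
  unfold vv; rw [if_neg h]

theorem vv_yes (z : ℝ × ℝ) (h : q.InM z) :
    q.vv z = (1 / q.W z.1, q.DQ (q.th z) z.1 / q.W z.1) := by
  unfold vv; rw [if_pos h]

theorem InM_XX (t : ℝ) (z : ℝ × ℝ) (h : q.InM z) : q.InM (q.XX t z) ∧ q.th (q.XX t z) = q.th z := by
  have h1 := ((q.InM_iff z).1 h).1
  rw [q.XX_yes t z h]
  obtain ⟨h2, h3, _⟩ := q.point_mem (q.prof.p z.1 t) (q.th z) ⌊z.2⌋ h1
  exact ⟨h2, h3⟩

theorem vv_XX (z : ℝ × ℝ) (h : q.InM z) : ∀ᵐ s, q.vv (q.XX s z) =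
    (1 / q.prof.w (q.prof.p z.1 s), deriv (q.gl (q.th z)) (q.prof.p z.1 s) / q.prof.w (q.prof.p z.1 s)) := by
  filter_upwards [q.prof.ae_times z.1 _ (q.ae_diff (q.th z))] with s hs
  obtain ⟨h1, h2⟩ := q.InM_XX s z h
  rw [q.vv_yes _ h1, h2, q.XX_yes s z h]
  simp only
  rw [q.DQ_eq _ _ hs]
  rfl

theorem flow_ok (z : ℝ × ℝ) (t : ℝ) (ht : 0 ≤ t) :
    IntegrableOn (fun s => (q.vv (q.XX s z)).1) (Icc 0 t) ∧
    IntegrableOn (fun s => (q.vv (q.XX s z)).2) (Icc 0 t) ∧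
    (∫ s in (0:ℝ)..t, (q.vv (q.XX s z)).1) = (q.XX t z).1 - z.1 ∧
    (∫ s in (0:ℝ)..t, (q.vv (q.XX s z)).2) = (q.XX t z).2 - z.2 := by
  by_cases h : q.InM z
  · have hae := q.vv_XX z h
    have hae1 : ∀ᵐ s, (q.vv (q.XX s z)).1 = 1 / q.prof.w (q.prof.p z.1 s) :=
      hae.mono fun s hs => by rw [hs]
    have hae2 : ∀ᵐ s, (q.vv (q.XX s z)).2 =
        deriv (q.gl (q.th z)) (q.prof.p z.1 s) / q.prof.w (q.prof.p z.1 s) :=
      hae.mono fun s hs => by rw [hs]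
    refine ⟨?_, ?_, ?_, ?_⟩
    · exact (q.prof.integrableOn_inv z.1 t).congr_fun_ae
        (ae_restrict_of_ae (hae1.mono fun s hs => hs.symm))
    · exact (q.prof.integrableOn_deriv _ 1 (q.gl_lip (q.th z)) z.1 t ht).congr_fun_ae
        (ae_restrict_of_ae (hae2.mono fun s hs => hs.symm))
    · rw [intervalIntegral.integral_congr_ae (hae1.mono fun s hs _ => hs),
        q.prof.integral_inv z.1 t ht, q.XX_yes t z h]
    · rw [intervalIntegral.integral_congr_ae (hae2.mono fun s hs _ => hs),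
        q.prof.integral_deriv _ 1 (q.gl_lip (q.th z)) z.1 t ht, q.XX_yes t z h]
      have h1 := ((q.InM_iff z).1 h).2
      have h2 := Int.floor_add_fract z.2
      simp only
      linarith
  · have h1 : ∀ s, q.XX s z = z := fun s => q.XX_not s z h
    have h2 : q.vv z = (0, 0) := q.vv_not z h
    simp [h1, h2]

theorem vol_MM (L : ℝ) (hL0 : 0 < L) (hL : L < 1/2) (r : ℝ) (hr : 0 < r) :
    volume (MM L r) = ENNReal.ofReal (ss L r) := by
  have h := push_pos L hL0 hL r hr (fun _ => 1)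
  simpa using h

theorem ss_lower' (L : ℝ) (hL0 : 0 < L) (hL : L < 1/2) (e : ℝ) (he : L ^ (1-e) = 1/2) (he0 : 0 ≤ e)
    (r : ℝ) (hr : 0 < r) (hr1 : r ≤ 1) : (L * r) ^ e ≤ ss L r := by
  obtain ⟨n, hn1, hn2⟩ : ∃ n : ℕ, L ^ (n+1) ≤ r ∧ r ≤ L ^ n := by
    have hex : ∃ n : ℕ, L ^ (n+1) ≤ r := by
      obtain ⟨n, hn⟩ := exists_pow_lt_of_lt_one hr (show L < 1 by linarith)
      exact ⟨n, (pow_le_pow_of_le_one hL0.le (by linarith) (Nat.le_succ n)).trans hn.le⟩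
    classical
    refine ⟨Nat.find hex, Nat.find_spec hex, ?_⟩
    rcases Nat.eq_zero_or_pos (Nat.find hex) with h2 | h2
    · rw [h2, pow_zero]; exact hr1
    · have h3 := Nat.find_min hex (m := Nat.find hex - 1) (by omega)
      rw [not_le] at h3
      have h4 : Nat.find hex - 1 + 1 = Nat.find hex := by omega
      rw [h4] at h3
      exact h3.le
  have h2L : 2 * L = L ^ e := by
    have e1 : L ^ (1:ℝ) = L ^ (1-e) * L ^ e := by
      rw [← Real.rpow_add hL0]; congr 1; ring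
    rw [Real.rpow_one, he] at e1
    linarith
  have h3 := ss_lower L hL0 hL (n+1) r hn1
  refine le_trans ?_ h3
  rw [h2L, ← Real.rpow_natCast, ← Real.rpow_mul hL0.le, mul_comm e, Real.rpow_mul hL0.le,
    Real.rpow_natCast]
  refine Real.rpow_le_rpow (by positivity) ?_ he0
  rw [pow_succ']
  exact mul_le_mul_of_nonneg_left hn2 hL0.le

theorem int_W (D e a : ℝ) (hD : q.l ^ (1-D) = 1/2) (he : q.L ^ (1-e) = 1/2) (he0 : 0 ≤ e)
    (ha0 : 0 ≤ a) (ha : e * a < D) : ∫⁻ x in Ico (0:ℝ) 1, ENNReal.ofReal (q.W x ^ (-a)) < ∞ := by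
  have h1 := int_dE q.l D (e*a) q.l0 q.l1 hD (mul_nonneg he0 ha0) ha
  have h2 : ∫⁻ x in Ico (0:ℝ) 1, ENNReal.ofReal (q.W x ^ (-a)) ≤
      ∫⁻ x in Ico (0:ℝ) 1, ENNReal.ofReal (q.L ^ (-(e*a))) * ENNReal.ofReal (dE q.l x ^ (-(e*a))) := by
    refine lintegral_mono_ae ?_
    filter_upwards [ae_restrict_of_ae q.ae_wd_pos] with x hx
    rw [← ENNReal.ofReal_mul (Real.rpow_nonneg q.L0.le _)]
    refine ENNReal.ofReal_le_ofReal ?_
    have h3 := ss_lower' q.L q.L0 q.L1 e he he0 (q.wd x) hx (dE_le_one _ _)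
    have h4 : 0 < (q.L * q.wd x) ^ e := Real.rpow_pos_of_pos (mul_pos q.L0 hx) _
    calc q.W x ^ (-a) ≤ ((q.L * q.wd x) ^ e) ^ (-a) :=
          Real.rpow_le_rpow_of_nonpos h4 h3 (by linarith)
      _ = q.L ^ (-(e*a)) * dE q.l x ^ (-(e*a)) := by
          rw [← Real.rpow_mul (mul_pos q.L0 hx).le, Real.mul_rpow q.L0.le hx.le, mul_neg]
          rfl
  refine h2.trans_lt ?_
  rw [lintegral_const_mul' _ _ ENNReal.ofReal_ne_top]
  exact ENNReal.mul_lt_top ENNReal.ofReal_lt_top h1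

/-- the velocity is in `L^p` -/
theorem lint_vv (D e p : ℝ) (hD : q.l ^ (1-D) = 1/2) (he : q.L ^ (1-e) = 1/2) (he0 : 0 ≤ e)
    (hp : 1 ≤ p) (h : e * (p-1) < D) :
    ∫⁻ z in (Ico (0:ℝ) 1) ×ˢ (Ico (0:ℝ) 1), ‖q.vv z‖ₑ ^ p < ∞ := by
  have hm : Measurable (fun z => ‖q.vv z‖ₑ ^ p) := (q.measurable_vv.enorm).pow_const p
  rw [Measure.volume_eq_prod, setLIntegral_prod _ hm.aemeasurable]
  refine lt_of_le_of_lt ?_ (q.int_W D e (p-1) hD he he0 (by linarith) h)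
  refine setLIntegral_mono_ae' measurableSet_Ico ?_
  filter_upwards [q.ae_wd_pos] with a ha _
  have hWp : 0 < q.W a := (q.W_pos_iff a).2 ha
  have hMm : MeasurableSet (MM q.L (q.wd a)) := measurableSet_MM q.L q.L0 q.L1 _ (q.wd_nonneg a)
  have h1 : ∀ b ∈ Ico (0:ℝ) 1, ‖q.vv (a, b)‖ₑ ^ p ≤
      (MM q.L (q.wd a)).indicator (fun _ => ENNReal.ofReal ((1 / q.W a) ^ p)) b := by
    intro b hb
    by_cases hM : q.InM (a, b)
    · have hb2 : b ∈ MM q.L (q.wd a) := by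
        have : Int.fract b ∈ MM q.L (q.wd a) := hM
        rwa [Int.fract_eq_self.2 hb] at this
      rw [indicator_of_mem hb2, ← ENNReal.ofReal_rpow_of_nonneg (by positivity) (by linarith)]
      refine ENNReal.rpow_le_rpow ?_ (by linarith)
      rw [← ofReal_norm]
      refine ENNReal.ofReal_le_ofReal ?_
      rw [q.vv_yes _ hM, Prod.norm_def]
      refine max_le ?_ ?_
      · simp only [Real.norm_eq_abs]
        rw [abs_of_pos (by positivity)]
      · simp only [Real.norm_eq_abs]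
        rw [abs_div, abs_of_pos hWp]
        exact div_le_div_of_nonneg_right (q.abs_DQ_le _ _) hWp.le
    · rw [q.vv_not _ hM]
      have : ‖((0:ℝ), (0:ℝ))‖ₑ = 0 := by
        rw [← Prod.zero_eq_mk]; simp
      rw [this, ENNReal.zero_rpow_of_pos (by linarith)]
      exact bot_le
  calc ∫⁻ b in Ico (0:ℝ) 1, ‖q.vv (a, b)‖ₑ ^ p
      ≤ ∫⁻ b in Ico (0:ℝ) 1, (MM q.L (q.wd a)).indicator (fun _ => ENNReal.ofReal ((1 / q.W a) ^ p)) b :=
        setLIntegral_mono' measurableSet_Ico h1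
    _ ≤ ∫⁻ b, (MM q.L (q.wd a)).indicator (fun _ => ENNReal.ofReal ((1 / q.W a) ^ p)) b :=
        setLIntegral_le_lintegral _ _
    _ = ENNReal.ofReal ((1 / q.W a) ^ p) * ENNReal.ofReal (q.W a) := by
        rw [lintegral_indicator hMm, setLIntegral_const, vol_MM q.L q.L0 q.L1 _ ha]
        rfl
    _ = ENNReal.ofReal (q.W a ^ (-(p-1))) := by
        rw [← ENNReal.ofReal_mul (by positivity)]
        congr 1
        rw [one_div, Real.inv_rpow hWp.le, ← Real.rpow_neg hWp.le]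
        nth_rewrite 2 [← Real.rpow_one (q.W a)]
        rw [← Real.rpow_add hWp]
        congr 1
        ring

end Par
end Pool.Agent.Lib.B7ins
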