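import Mathlib
import Pool.Agent.Lib.MP_b7ec12_an.Ins.Vel
import Pool.Agent.Lib.MP_b7ec12_an.Ins.Lq
import Pool.Agent.Lib.MP_b7ec12_an.Ins.Cover
import Pool.Agent.Lib.MP_b7ec12_an.Ins.Ramp

set_option autoImplicit false
open MeasureTheory Set Filter Topology
open scoped ENNReal NNReal

namespace Pool.Agent.Lib.B7ins

/-- translation modulo one preserves Lebesgue measure on `[0,1)` -/
theorem mp1 (c : ℝ) : MeasurePreserving (fun x : ℝ => Int.fract (x + c)) (volume.restrict (Ico (0:ℝ) 1))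
    (volume.restrict (Ico (0:ℝ) 1)) := by
  have hmeas : Measurable (fun x : ℝ => Int.fract (x + c)) := measurable_fract.comp (by fun_prop)
  refine ⟨hmeas, Measure.ext_of_lintegral _ fun F hF => ?_⟩
  rw [lintegral_map hF hmeas]
  have hper : Function.Periodic (fun x : ℝ => F (Int.fract x)) 1 := by
    intro x
    simp only [Int.fract_add_one]
  have hm : MeasurePreserving (fun r : ℝ => r + c) volume volume := measurePreserving_add_right _ _
  have h4 : Ioc (0:ℝ) 1 = (fun r => r + c) ⁻¹' (Ioc c (c + 1)) := by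
    rw [preimage_add_const_Ioc]; simp
  have h5 := (isAddFundamentalDomain_Ioc (zero_lt_one' ℝ) c volume).setLIntegral_eq
    (isAddFundamentalDomain_Ioc (zero_lt_one' ℝ) 0 volume) (fun x => F (Int.fract x))
    hper.map_vadd_zmultiples
  calc ∫⁻ x in Ico (0:ℝ) 1, F (Int.fract (x + c)) = ∫⁻ x in Ioc (0:ℝ) 1, F (Int.fract (x + c)) :=
        setLIntegral_congr Ico_ae_eq_Ioc
    _ = ∫⁻ x in Ioc c (c+1), F (Int.fract x) := by
        rw [h4]
        exact hm.setLIntegral_comp_preimage_emb (measurableEmbedding_addRight c)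
          (fun r => F (Int.fract r)) _
    _ = ∫⁻ x in Ioc (0:ℝ) 1, F (Int.fract x) := by rw [h5, zero_add]
    _ = ∫⁻ x in Ico (0:ℝ) 1, F (Int.fract x) := (setLIntegral_congr Ico_ae_eq_Ioc).symm
    _ = ∫⁻ x in Ico (0:ℝ) 1, F x := by
        refine setLIntegral_congr_fun measurableSet_Ico fun x hx => ?_
        show F (Int.fract x) = F x
        rw [Int.fract_eq_self.2 hx]

/-- unit square in the plane -/
abbrev Q2 : Set (ℝ × ℝ) := (Ico (0:ℝ) 1) ×ˢ (Ico (0:ℝ) 1)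

open Par in
theorem mp2 (v : ℝ × ℝ) : MeasurePreserving (fun z : ℝ × ℝ => frp (z + v)) (volume.restrict Q2)
    (volume.restrict Q2) := by
  have h := (mp1 v.1).prod (mp1 v.2)
  rw [Measure.prod_restrict, ← Measure.volume_eq_prod] at h
  exact h

namespace Par

theorem frp_int (z : ℝ × ℝ) (k m : ℤ) : frp (z + ((k:ℝ), (m:ℝ))) = frp z := by
  unfold frp
  simp

theorem frp_split (z : ℝ × ℝ) : z = frp z + ((⌊z.1⌋:ℝ), (⌊z.2⌋:ℝ)) := by
  unfold frp
  ext
  · simp only [Prod.mk_add_mk]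
    exact (Int.fract_add_floor z.1).symm
  · simp only [Prod.mk_add_mk]
    exact (Int.fract_add_floor z.2).symm

theorem frp_add_right (z v : ℝ × ℝ) : frp (frp z + v) = frp (z + v) := by
  conv_rhs => rw [frp_split z]
  rw [show frp z + ((⌊z.1⌋:ℝ), (⌊z.2⌋:ℝ)) + v = frp z + v + ((⌊z.1⌋:ℝ), (⌊z.2⌋:ℝ)) by abel, frp_int]

variable (q : Par)

theorem XX_add' (t : ℝ) (z : ℝ × ℝ) (k m : ℤ) :
    q.XX t (z + ((k:ℝ), (m:ℝ))) = q.XX t z + ((k:ℝ), (m:ℝ)) := q.XX_add t z k m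

theorem vv_add' (z : ℝ × ℝ) (k m : ℤ) : q.vv (z + ((k:ℝ), (m:ℝ))) = q.vv z := q.vv_add z k m

theorem u_add' (z : ℝ × ℝ) (k m : ℤ) : q.u (z + ((k:ℝ), (m:ℝ))) = q.u z := q.u_add z k m

theorem mp3 (s : ℝ) (v : ℝ × ℝ) : MeasurePreserving (fun z : ℝ × ℝ => frp (q.XX s (z + v) - v))
    (volume.restrict Q2) (volume.restrict Q2) := by
  have h2 : MeasurePreserving (fun z => frp (q.XX s z)) (volume.restrict Q2) (volume.restrict Q2) :=
    ⟨measurable_frp.comp (q.measurable_XX' s), q.map_XX s⟩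
  have h := ((mp2 (-v)).comp h2).comp (mp2 v)
  have e : (fun z : ℝ × ℝ => frp (q.XX s (z + v) - v)) =
      ((fun z : ℝ × ℝ => frp (z + -v)) ∘ (fun z => frp (q.XX s z))) ∘ (fun z : ℝ × ℝ => frp (z + v)) := by
    funext z
    simp only [Function.comp_apply]
    rw [frp_add_right]
    conv_lhs => rw [frp_split (z + v)]
    rw [q.XX_add', show q.XX s (frp (z + v)) + ((⌊(z+v).1⌋:ℝ), (⌊(z+v).2⌋:ℝ)) - v =
      q.XX s (frp (z + v)) + -v + ((⌊(z+v).1⌋:ℝ), (⌊(z+v).2⌋:ℝ)) by abel, frp_int]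
  rw [e]
  exact h

end Par

section
variable (q : Par) (N : ℕ) (v : Fin N → ℝ × ℝ) (h : ℝ)

/-- amplitude -/
noncomputable def et (i : Fin N) (t : ℝ) : ℝ := rp (3*(i:ℝ)*h) h t - rp (3*(i:ℝ)*h + 2*h) h t
noncomputable def et' (i : Fin N) (t : ℝ) : ℝ := dr (3*(i:ℝ)*h) h t - dr (3*(i:ℝ)*h + 2*h) h t
/-- internal time -/
noncomputable def sg (i : Fin N) (t : ℝ) : ℝ := q.prof.A * rp (3*(i:ℝ)*h + h) h t
noncomputable def sg' (i : Fin N) (t : ℝ) : ℝ := q.prof.A * dr (3*(i:ℝ)*h + h) h t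

noncomputable def bb (t : ℝ) (z : ℝ × ℝ) : ℝ × ℝ := ∑ i, sg' q N h i t • q.vv (z + v i)
noncomputable def XS (t : ℝ) (z : ℝ × ℝ) : ℝ × ℝ := z + ∑ i, (q.XX (sg q N h i t) (z + v i) - (z + v i))
noncomputable def fs (t : ℝ) (z : ℝ × ℝ) : ℝ := ∑ i, et N h i t * q.u (z + v i)
noncomputable def fst' (t : ℝ) (z : ℝ × ℝ) : ℝ := ∑ i, et' N h i t * q.u (z + v i)
noncomputable def Ds1 (t : ℝ) (z : ℝ × ℝ) : ℝ := ∑ i, et N h i t * q.D1 (z + v i)
noncomputable def Ds2 (t : ℝ) (z : ℝ × ℝ) : ℝ := ∑ i, et N h i t * q.D2 (z + v i)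

theorem sum_int {ι : Type*} (s : Finset ι) (F : ι → ℝ × ℝ) (hF : ∀ j ∈ s, ∃ k : ℤ, F j = ((k:ℝ), ((0:ℤ):ℝ))) :
    ∃ k : ℤ, ∑ j ∈ s, F j = ((k:ℝ), ((0:ℤ):ℝ)) := by
  classical
  induction s using Finset.induction_on with
  | empty => exact ⟨0, by ext <;> simp⟩
  | insert a s ha ih =>
    obtain ⟨k, hk⟩ := ih fun j hj => hF j (Finset.mem_insert_of_mem hj)
    obtain ⟨m, hm⟩ := hF a (Finset.mem_insert_self _ _)
    refine ⟨m + k, ?_⟩
    rw [Finset.sum_insert ha, hk, hm]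
    ext
    · simp
    · simp

/-- if all other stages are at rest, the position is that of stage `i` up to an integer vector -/
theorem XS_key (i : Fin N) (t : ℝ) (z : ℝ × ℝ)
    (hr : ∀ j, j ≠ i → rp (3*(j:ℝ)*h + h) h t = 0 ∨ rp (3*(j:ℝ)*h + h) h t = 1) :
    ∃ k : ℤ, XS q N v h t z + v i = q.XX (sg q N h i t) (z + v i) + ((k:ℝ), ((0:ℤ):ℝ)) := by
  classical
  obtain ⟨k, hk⟩ := sum_int (Finset.univ.erase i)
    (fun j => q.XX (sg q N h j t) (z + v j) - (z + v j)) (by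
      intro j hj
      have hji := Finset.ne_of_mem_erase hj
      rcases hr j hji with h1 | h1
      · refine ⟨0, ?_⟩
        unfold sg
        rw [h1, mul_zero, q.XX_zero]
        ext <;> simp
      · obtain ⟨k, hk⟩ := q.XX_A (z + v j)
        refine ⟨k, ?_⟩
        unfold sg
        rw [h1, mul_one, hk]
        ext
        · simp
        · simp)
  refine ⟨k, ?_⟩
  unfold XS
  rw [← Finset.add_sum_erase _ _ (Finset.mem_univ i), hk]
  abel

section times
variable (hh : 0 < h)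
include hh

theorem cast_lt_iff {N : ℕ} (i j : Fin N) (hij : (j:ℕ) < i) : 3*(j:ℝ)*h + 3*h ≤ 3*(i:ℝ)*h := by
  have h1 : (j:ℝ) + 1 ≤ (i:ℝ) := by exact_mod_cast hij
  nlinarith

theorem rest_closed (i : Fin N) (t : ℝ) (h1 : 3*(i:ℝ)*h + h ≤ t) (h2 : t ≤ 3*(i:ℝ)*h + 2*h) :
    ∀ j, j ≠ i → rp (3*(j:ℝ)*h + h) h t = 0 ∨ rp (3*(j:ℝ)*h + h) h t = 1 := by
  intro j hji
  rcases lt_or_gt_of_ne (fun hv => hji (Fin.ext hv) : (j:ℕ) ≠ i) with h3 | h3
  · right
    have := cast_lt_iff h hh i j h3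
    exact rp_right _ _ _ hh (by linarith)
  · left
    have := cast_lt_iff h hh j i h3
    exact rp_left _ _ _ hh (by linarith)

theorem rest_all (i0 : Fin N) (t : ℝ) :
    ∃ i : Fin N, ∀ j, j ≠ i → rp (3*(j:ℝ)*h + h) h t = 0 ∨ rp (3*(j:ℝ)*h + h) h t = 1 := by
  by_cases hex : ∃ i : Fin N, 3*(i:ℝ)*h + h ≤ t ∧ t ≤ 3*(i:ℝ)*h + 2*h
  · obtain ⟨i, h1, h2⟩ := hex
    exact ⟨i, rest_closed N h hh i t h1 h2⟩
  · refine ⟨i0, fun j _ => ?_⟩
    push Not at hex
    rcases le_or_gt t (3*(j:ℝ)*h + h) with h1 | h1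
    · left; exact rp_left _ _ _ hh h1
    · right
      have := hex j h1.le
      exact rp_right _ _ _ hh (by linarith)

theorem et_other (i : Fin N) (t : ℝ) (h1 : 3*(i:ℝ)*h + h ≤ t) (h2 : t ≤ 3*(i:ℝ)*h + 2*h) :
    ∀ j, j ≠ i → et N h j t = 0 := by
  intro j hji
  unfold et
  rcases lt_or_gt_of_ne (fun hv => hji (Fin.ext hv) : (j:ℕ) ≠ i) with h3 | h3
  · have := cast_lt_iff h hh i j h3
    rw [rp_right _ _ _ hh (by linarith), rp_right _ _ _ hh (by linarith)]; ring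
  · have := cast_lt_iff h hh j i h3
    rw [rp_left _ _ _ hh (by linarith), rp_left _ _ _ hh (by linarith)]; ring

theorem et_self (i : Fin N) (t : ℝ) (h1 : 3*(i:ℝ)*h + h ≤ t) (h2 : t ≤ 3*(i:ℝ)*h + 2*h) :
    et N h i t = 1 := by
  unfold et
  rw [rp_right _ _ _ hh (by linarith), rp_left _ _ _ hh (by linarith)]; ring

omit hh in
theorem dr_active (i : Fin N) (t : ℝ) (hd : dr (3*(i:ℝ)*h + h) h t ≠ 0) :
    3*(i:ℝ)*h + h < t ∧ t < 3*(i:ℝ)*h + 2*h := by
  by_contra hcon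
  refine hd (dr_zero _ _ _ fun h2 => hcon ⟨h2.1, by linarith [h2.2]⟩)

/-- velocity along the flow -/
theorem bb_XS (t : ℝ) (z : ℝ × ℝ) : bb q N v h t (XS q N v h t z) =
    ∑ i, sg' q N h i t • q.vv (q.XX (sg q N h i t) (z + v i)) := by
  unfold bb
  refine Finset.sum_congr rfl fun i _ => ?_
  by_cases hd : dr (3*(i:ℝ)*h + h) h t = 0
  · unfold sg'
    rw [hd]; simp
  · obtain ⟨h1, h2⟩ := dr_active N h i t hd
    obtain ⟨k, hk⟩ := XS_key q N v h i t z (rest_closed N h hh i t h1.le h2.le)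
    rw [hk, q.vv_add']

theorem bb_D_zero (t : ℝ) (z : ℝ × ℝ) :
    (bb q N v h t z).1 * Ds1 q N v h t z + (bb q N v h t z).2 * Ds2 q N v h t z = 0 := by
  by_cases hex : ∃ i : Fin N, dr (3*(i:ℝ)*h + h) h t ≠ 0
  · obtain ⟨i, hd⟩ := hex
    obtain ⟨h1, h2⟩ := dr_active N h i t hd
    have e1 : Ds1 q N v h t z = et N h i t * q.D1 (z + v i) := by
      unfold Ds1
      refine Finset.sum_eq_single i (fun j _ hji => ?_) (by simp)
      rw [et_other N h hh i t h1.le h2.le j hji, zero_mul]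
    have e2 : Ds2 q N v h t z = et N h i t * q.D2 (z + v i) := by
      unfold Ds2
      refine Finset.sum_eq_single i (fun j _ hji => ?_) (by simp)
      rw [et_other N h hh i t h1.le h2.le j hji, zero_mul]
    have e3 : bb q N v h t z = sg' q N h i t • q.vv (z + v i) := by
      unfold bb
      refine Finset.sum_eq_single i (fun j _ hji => ?_) (by simp)
      have : dr (3*(j:ℝ)*h + h) h t = 0 := by
        by_contra hd2
        obtain ⟨h3, h4⟩ := dr_active N h j t hd2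
        rcases lt_or_gt_of_ne (fun hv => hji (Fin.ext hv) : (j:ℕ) ≠ i) with h5 | h5
        · have := cast_lt_iff h hh i j h5; linarith
        · have := cast_lt_iff h hh j i h5; linarith
      unfold sg'
      rw [this]; simp
    rw [e1, e2, e3]
    by_cases hM : q.InM (z + v i)
    · rw [q.D1_chan _ hM, q.D2_chan _ hM]; ring
    · rw [q.vv_not _ hM]; simp
  · push Not at hex
    have : bb q N v h t z = 0 := by
      unfold bb sg'
      refine Finset.sum_eq_zero fun i _ => ?_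
      rw [hex i]; simp
    rw [this]; simp

theorem start_nonneg (i : Fin N) : 0 ≤ 3*(i:ℝ)*h + h := by positivity

/-- the trajectories -/
theorem traj (z : ℝ × ℝ) (t : ℝ) (ht : 0 ≤ t) :
    IntervalIntegrable (fun s => (bb q N v h s (XS q N v h s z)).1) volume 0 t ∧
    IntervalIntegrable (fun s => (bb q N v h s (XS q N v h s z)).2) volume 0 t ∧
    (∫ s in (0:ℝ)..t, (bb q N v h s (XS q N v h s z)).1) = (XS q N v h t z).1 - z.1 ∧
    (∫ s in (0:ℝ)..t, (bb q N v h s (XS q N v h s z)).2) = (XS q N v h t z).2 - z.2 := by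
  have hA := q.prof.A_pos
  have hs1 : ∀ s, (bb q N v h s (XS q N v h s z)).1 =
      ∑ i : Fin N, (q.prof.A * dr (3*(i:ℝ)*h + h) h s) *
        (fun r => (q.vv (q.XX r (z + v i))).1) (q.prof.A * rp (3*(i:ℝ)*h + h) h s) := by
    intro s
    rw [bb_XS q N v h hh, Prod.fst_sum]
    rfl
  have hs2 : ∀ s, (bb q N v h s (XS q N v h s z)).2 =
      ∑ i : Fin N, (q.prof.A * dr (3*(i:ℝ)*h + h) h s) *
        (fun r => (q.vv (q.XX r (z + v i))).2) (q.prof.A * rp (3*(i:ℝ)*h + h) h s) := by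
    intro s
    rw [bb_XS q N v h hh, Prod.snd_sum]
    rfl
  have hrp : ∀ i : Fin N, 0 ≤ q.prof.A * rp (3*(i:ℝ)*h + h) h t := fun i =>
    mul_nonneg hA.le (rp_nonneg _ _ _)
  have k1 : ∀ i : Fin N, _ := fun i => ramp_subst q.prof.A (3*(i:ℝ)*h + h) h hA (start_nonneg N h hh i) hh
    (fun r => (q.vv (q.XX r (z + v i))).1) (q.flow_ok (z + v i) q.prof.A hA.le).1 t ht
  have k2 : ∀ i : Fin N, _ := fun i => ramp_subst q.prof.A (3*(i:ℝ)*h + h) h hA (start_nonneg N h hh i) hh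
    (fun r => (q.vv (q.XX r (z + v i))).2) (q.flow_ok (z + v i) q.prof.A hA.le).2.1 t ht
  simp_rw [hs1, hs2]
  refine ⟨?_, ?_, ?_, ?_⟩
  · have := IntervalIntegrable.sum (Finset.univ : Finset (Fin N)) (fun i _ => (k1 i).1)
    refine this.congr fun s _ => ?_
    simp only [Finset.sum_apply]
  · have := IntervalIntegrable.sum (Finset.univ : Finset (Fin N)) (fun i _ => (k2 i).1)
    refine this.congr fun s _ => ?_
    simp only [Finset.sum_apply]
  · rw [intervalIntegral.integral_finsetSum fun i _ => (k1 i).1]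
    unfold XS
    rw [Prod.fst_add, Prod.fst_sum, add_sub_cancel_left]
    refine Finset.sum_congr rfl fun i _ => ?_
    rw [(k1 i).2, (q.flow_ok (z + v i) _ (hrp i)).2.2.1]
    rfl
  · rw [intervalIntegral.integral_finsetSum fun i _ => (k2 i).1]
    unfold XS
    rw [Prod.snd_add, Prod.snd_sum, add_sub_cancel_left]
    refine Finset.sum_congr rfl fun i _ => ?_
    rw [(k2 i).2, (q.flow_ok (z + v i) _ (hrp i)).2.2.2]
    rfl

theorem XS_zero (z : ℝ × ℝ) : XS q N v h 0 z = z := by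
  unfold XS
  rw [Finset.sum_eq_zero, add_zero]
  intro i _
  unfold sg
  rw [rp_left _ _ _ hh (start_nonneg N h hh i), mul_zero, q.XX_zero, sub_self]

/-- measure preservation -/
theorem mpS (i0 : Fin N) (t : ℝ) : MeasurePreserving (fun z : ℝ × ℝ => Par.frp (XS q N v h t z))
    (volume.restrict Q2) (volume.restrict Q2) := by
  obtain ⟨i, hi⟩ := rest_all N h hh i0 t
  have h3 := q.mp3 (sg q N h i t) (v i)
  have e : (fun z : ℝ × ℝ => Par.frp (XS q N v h t z)) =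
      fun z : ℝ × ℝ => Par.frp (q.XX (sg q N h i t) (z + v i) - v i) := by
    funext z
    obtain ⟨k, hk⟩ := XS_key q N v h i t z hi
    have e2 : XS q N v h t z = q.XX (sg q N h i t) (z + v i) - v i + ((k:ℝ), ((0:ℤ):ℝ)) := by
      rw [← add_sub_cancel_right (XS q N v h t z) (v i), hk]
      abel
    rw [e2, Par.frp_int]
  rw [e]
  exact h3

/-- the function along the flow during stage `i` -/
theorem fs_XS (i : Fin N) (t : ℝ) (h1 : 3*(i:ℝ)*h + h ≤ t) (h2 : t ≤ 3*(i:ℝ)*h + 2*h) (z : ℝ × ℝ)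
    (hM : q.InM (z + v i)) :
    fs q N v h t (XS q N v h t z) = q.kt (q.prof.p (z + v i).1 (sg q N h i t)) := by
  have e1 : fs q N v h t (XS q N v h t z) = q.u (XS q N v h t z + v i) := by
    unfold fs
    rw [Finset.sum_eq_single i, et_self N h hh i t h1 h2, one_mul]
    · intro j _ hji
      rw [et_other N h hh i t h1 h2 j hji, zero_mul]
    · simp
  obtain ⟨k, hk⟩ := XS_key q N v h i t z (rest_closed N h hh i t h1 h2)
  rw [e1, hk, q.u_add', q.u_chan _ (q.InM_XX _ _ hM).1, q.XX_yes _ _ hM]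

end times

end

end Pool.Agent.Lib.B7ins
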