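import Mathlib
import Pool.Agent.Lib.MP_b7ec12_an.Ins.Stage

set_option autoImplicit false
open MeasureTheory Set Filter Topology
open scoped ENNReal NNReal

namespace Pool.Agent.Lib.B7ins

/-- the function of one trajectory is not constant over a period -/
theorem kt_not_const (q : Par) (x : ℝ) (C : ℝ) : ¬ ∀ s ∈ Icc (0:ℝ) q.prof.A, q.kt (q.prof.p x s) = C := by
  intro hC
  have hA := q.prof.A_pos
  have hpc : Continuous (fun s => q.prof.p x s) :=
    q.prof.cont_p.comp (by fun_prop : Continuous fun s : ℝ => (x, s))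
  have hkc : Continuous (fun s => kk q.l (q.prof.p x s)) := (kk_cont q.l q.l0 q.l1).comp hpc
  have hivt : ∀ y ∈ Icc (kk q.l x) (kk q.l x + 1), ∃ s ∈ Icc (0:ℝ) q.prof.A, kk q.l (q.prof.p x s) = y := by
    intro y hy
    have h1 := intermediate_value_Icc hA.le hkc.continuousOn
    simp only [q.prof.p_zero, q.prof.p_A, kk_add q.l q.l0 q.l1] at h1
    exact h1 hy
  have hval : ∀ r ∈ Icc (0:ℝ) 1, Real.cos (2 * Real.pi * kk q.l x + 2 * Real.pi * r) = C * (2 * Real.pi) := by
    intro r hr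
    obtain ⟨s, hs, hs2⟩ := hivt (kk q.l x + r) ⟨by linarith [hr.1], by linarith [hr.2]⟩
    have h1 := hC s hs
    unfold Par.kt at h1
    rw [hs2, div_eq_iff (by positivity)] at h1
    rw [← h1]
    congr 1
    ring
  have h0 := hval 0 ⟨le_rfl, zero_le_one⟩
  have h1 := hval (1/2) ⟨by norm_num, by norm_num⟩
  have h2 := hval (1/4) ⟨by norm_num, by norm_num⟩
  rw [mul_zero, add_zero] at h0
  rw [show 2 * Real.pi * kk q.l x + 2 * Real.pi * (1/2) = 2 * Real.pi * kk q.l x + Real.pi by ring,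
    Real.cos_add_pi] at h1
  rw [show 2 * Real.pi * kk q.l x + 2 * Real.pi * (1/4) = 2 * Real.pi * kk q.l x + Real.pi / 2 by ring,
    Real.cos_add_pi_div_two] at h2
  have h3 := Real.sin_sq_add_cos_sq (2 * Real.pi * kk q.l x)
  have h4 : Real.cos (2 * Real.pi * kk q.l x) = 0 := by linarith
  have h5 : Real.sin (2 * Real.pi * kk q.l x) = 0 := by linarith
  rw [h4, h5] at h3
  norm_num at h3

/-- the function of a stage is not absolutely continuous -/
theorem not_ac_stage (q : Par) (x c h : ℝ) (hh : 0 < h) (Φ : ℝ → ℝ)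
    (hΦ : ∀ t ∈ Icc c (c+h), Φ t = q.kt (q.prof.p x (q.prof.A * ((t - c) / h)))) :
    ¬ AbsolutelyContinuousOnInterval Φ c (c+h) := by
  intro hac
  have hA := q.prof.A_pos
  have hpc : Continuous (fun s => q.prof.p x s) :=
    q.prof.cont_p.comp (by fun_prop : Continuous fun s : ℝ => (x, s))
  have hae0 : ∀ᵐ s, 0 < q.wd (q.prof.p x s) := q.prof.ae_times x _ q.ae_wd_pos
  have hae : ∀ᵐ t, 0 < q.wd (q.prof.p x (q.prof.A * ((t - c) / h))) := by
    have hK : q.prof.A / h ≠ 0 := (div_pos hA hh).ne'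
    have h1 : volume ((fun t : ℝ => q.prof.A / h * t) ⁻¹' {s | ¬ 0 < q.wd (q.prof.p x s)}) = 0 := by
      rw [Real.volume_preimage_mul_left hK]
      have : volume {s | ¬ 0 < q.wd (q.prof.p x s)} = 0 := hae0
      rw [this, mul_zero]
    have h2 : volume ((fun t : ℝ => t - c) ⁻¹'
        ((fun t : ℝ => q.prof.A / h * t) ⁻¹' {s | ¬ 0 < q.wd (q.prof.p x s)})) = 0 := by
      have := measure_preimage_add_right (volume : Measure ℝ) (-c)
        ((fun t : ℝ => q.prof.A / h * t) ⁻¹' {s | ¬ 0 < q.wd (q.prof.p x s)})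
      simp only [← sub_eq_add_neg] at this
      rw [this, h1]
    refine measure_mono_null ?_ h2
    intro t ht
    simp only [mem_compl_iff, mem_ofPred_eq, mem_preimage] at ht ⊢
    rw [show q.prof.A / h * (t - c) = q.prof.A * ((t - c) / h) by ring]
    exact ht
  have hne : ∀ᵐ t : ℝ, t ∉ ({c, c + h} : Set ℝ) :=
    measure_eq_zero_iff_ae_notMem.1 (((finite_singleton (c + h)).insert c).measure_zero volume)
  have hder : ∀ᵐ t, t ∈ uIcc c (c+h) → HasDerivAt Φ 0 t := by
    filter_upwards [hae, hne] with t ht htn hI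
    rw [uIcc_of_le (by linarith)] at hI
    simp only [mem_insert_iff, mem_singleton_iff, not_or] at htn
    have hI2 : t ∈ Ioo c (c+h) := ⟨lt_of_le_of_ne hI.1 (fun h2 => htn.1 h2.symm), lt_of_le_of_ne hI.2 htn.2⟩
    set f : ℝ → ℝ := fun t => q.prof.p x (q.prof.A * ((t - c) / h)) with hf
    have hfc : Continuous f := hpc.comp (by fun_prop)
    have h3 : ∀ᶠ s in 𝓝 t, |f s - f t| < q.wd (f t) := by
      have h4 : ContinuousAt (fun s => |f s - f t|) t := ((hfc.sub continuous_const).abs).continuousAt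
      have h5 : (fun s => |f s - f t|) t < q.wd (f t) := by simpa using ht
      exact h4.eventually_lt continuousAt_const h5
    refine (hasDerivAt_const t (q.kt (f t))).congr_of_eventuallyEq ?_
    filter_upwards [h3, Ioo_mem_nhds hI2.1 hI2.2] with s hs hsI
    rw [hΦ s (Ioo_subset_Icc_self hsI)]
    exact q.kt_const (f t) (f s) hs
  obtain ⟨C, hC⟩ := hac.const_of_ae_hasDerivAt_zero hder
  refine kt_not_const q x C fun s hs => ?_
  have hs2 : c + h * (s / q.prof.A) ∈ Icc c (c+h) := by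
    have h1 : 0 ≤ s / q.prof.A := div_nonneg hs.1 hA.le
    have h2 : s / q.prof.A ≤ 1 := by rw [div_le_one hA]; exact hs.2
    constructor
    · nlinarith
    · nlinarith
  have h1 := hC _ (by rw [uIcc_of_le (by linarith)]; exact hs2)
  rw [hΦ _ hs2] at h1
  rw [← h1]
  congr 2
  field_simp
  ring

/-- no absolutely continuous representation of the composition, for any starting point -/
theorem not_ac (q : Par) (N : ℕ) (v : Fin N → ℝ × ℝ) (h : ℝ) (hh : 0 < h) (T : ℝ)
    (hT : 3 * (N:ℝ) * h = T) (z : ℝ × ℝ) (i : Fin N) (hM : q.InM (z + v i)) :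
    ¬ ∃ k : ℝ → ℝ, IntegrableOn k (Icc (0:ℝ) T) ∧ ∀ t ∈ Icc (0:ℝ) T,
      fs q N v h t (XS q N v h t z) = fs q N v h 0 (XS q N v h 0 z) + ∫ s in (0:ℝ)..t, k s := by
  rintro ⟨k, hk, hkt⟩
  have hi : 3*(i:ℝ)*h + 3*h ≤ T := by
    have h1 : (i:ℝ) + 1 ≤ (N:ℝ) := by exact_mod_cast i.2
    rw [← hT]
    nlinarith
  have hi0 : 0 ≤ 3*(i:ℝ)*h := by positivity
  have hT0 : 0 ≤ T := by linarith
  set c := 3*(i:ℝ)*h + h with hc
  have hsub : ∀ t ∈ Icc c (c+h), t ∈ Icc 0 T := fun t ht => ⟨by linarith [ht.1], by linarith [ht.2]⟩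
  have hkI : IntervalIntegrable k volume 0 T := by
    rw [intervalIntegrable_iff_integrableOn_Icc_of_le hT0]; exact hk
  have hac : AbsolutelyContinuousOnInterval (fun t => fs q N v h 0 (XS q N v h 0 z) +
      ∫ s in (0:ℝ)..t, k s) c (c+h) := by
    have h1 := hkI.absolutelyContinuousOnInterval_intervalIntegral (c := 0) left_mem_uIcc
    have h2 := h1.mono (c := c) (d := c+h) (by
      rw [uIcc_of_le (by linarith), uIcc_of_le hT0]
      exact fun t ht => hsub t ht)
    have h3 : AbsolutelyContinuousOnInterval (fun _ : ℝ => fs q N v h 0 (XS q N v h 0 z)) c (c+h) :=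
      ((LipschitzWith.const (fs q N v h 0 (XS q N v h 0 z))).lipschitzOnWith
        (s := uIcc c (c+h))).absolutelyContinuousOnInterval
    exact h3.add h2
  refine not_ac_stage q (z + v i).1 c h hh _ (fun t ht => ?_) hac
  rw [← hkt t (hsub t ht), fs_XS q N v h hh i t ht.1 (by linarith [ht.2]) z hM]
  unfold sg
  rw [← hc, rp_mid c h t hh ht.1 ht.2]

end Pool.Agent.Lib.B7ins
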