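import Mathlib
import Pool.Agent.Lib.MP_b7ec12_an.Weak

set_option autoImplicit false
open MeasureTheory Set Filter Topology
open scoped ENNReal NNReal

namespace Pool.Agent.Lib.B7ins

open Pool.Agent.Lib.B7ec12

/-- integration by parts for a Lipschitz function and a test function -/
theorem ibp_ac (v v' ψ ψ' : ℝ → ℝ) (C : ℝ≥0) (hv : LipschitzWith C v)
    (hv' : ∀ᵐ x, HasDerivAt v (v' x) x) (R : ℝ) (_ : 0 ≤ R)
    (hψ : ∀ x, HasDerivAt ψ (ψ' x) x) (hψ'c : Continuous ψ')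
    (hsupp : ∀ x, R ≤ |x| → ψ x = 0) (hsupp' : ∀ x, R ≤ |x| → ψ' x = 0) :
    ∫ x, ψ' x * v x = - ∫ x, ψ x * v' x := by
  have s1 : Function.support (fun x => ψ' x * v x) ⊆ Ioc (-R) R := by
    intro x hx
    by_contra h
    have : R ≤ |x| := by
      by_contra h2
      rw [not_le, abs_lt] at h2
      exact h ⟨h2.1, h2.2.le⟩
    exact hx (by simp [hsupp' x this])
  have s2 : Function.support (fun x => ψ x * v' x) ⊆ Ioc (-R) R := by
    intro x hx
    by_contra h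
    have : R ≤ |x| := by
      by_contra h2
      rw [not_le, abs_lt] at h2
      exact h ⟨h2.1, h2.2.le⟩
    exact hx (by simp [hsupp x this])
  rw [← intervalIntegral.integral_eq_integral_of_support_subset s1,
    ← intervalIntegral.integral_eq_integral_of_support_subset s2]
  have a1 : AbsolutelyContinuousOnInterval v (-R) R :=
    (hv.lipschitzOnWith (s := uIcc (-R) R)).absolutelyContinuousOnInterval
  have a2 : AbsolutelyContinuousOnInterval ψ (-R) R := by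
    refine ContDiffOn.absolutelyContinuousOnInterval ?_
    have hd : deriv ψ = ψ' := funext fun x => (hψ x).deriv
    have : ContDiff ℝ 1 ψ := by
      rw [contDiff_one_iff_deriv]
      exact ⟨fun x => (hψ x).differentiableAt, by rw [hd]; exact hψ'c⟩
    exact this.contDiffOn
  have h1 := a2.integral_mul_deriv_eq_deriv_mul a1
  have e1 : ψ R = 0 := hsupp R (le_abs_self R)
  have e2 : ψ (-R) = 0 := hsupp (-R) (by rw [abs_neg]; exact le_abs_self R)
  rw [e1, e2, zero_mul, zero_mul, sub_zero, zero_sub] at h1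
  have h2 : ∫ x in (-R)..R, ψ x * deriv v x = ∫ x in (-R)..R, ψ x * v' x := by
    refine intervalIntegral.integral_congr_ae ?_
    filter_upwards [hv'] with x hx _
    rw [hx.deriv]
  have h3 : ∫ x in (-R)..R, deriv ψ x * v x = ∫ x in (-R)..R, ψ' x * v x := by
    refine intervalIntegral.integral_congr_ae (Eventually.of_forall fun x _ => ?_)
    rw [(hψ x).deriv]
  rw [h2, h3] at h1
  linarith

section test
variable (φ : ℝ × (Fin 2 → ℝ) → ℝ) (hφ : ContDiff ℝ 1 φ) (hc : HasCompactSupport φ)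

include hφ hc in
theorem int_A2 (v : ℝ × (Fin 2 → ℝ)) (u : ℝ × (ℝ × ℝ) → ℝ) (hu : Continuous u) :
    Integrable (fun q : ℝ × (ℝ × ℝ) => fderiv ℝ φ (V q) v * u q) := by
  obtain ⟨R, hR, h⟩ := exists_R φ hc
  refine Continuous.integrable_of_hasCompactSupport ((cont_fderiv φ hφ v).mul hu) ?_
  refine HasCompactSupport.intro
    (K := Icc (-R) R ×ˢ (Icc (-R) R ×ˢ Icc (-R) R))
    (isCompact_Icc.prod (isCompact_Icc.prod isCompact_Icc)) ?_
  intro q hq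
  have : (R ≤ |q.1| ∨ R ≤ |q.2.1| ∨ R ≤ |q.2.2|) := by
    by_contra h2
    push Not at h2
    obtain ⟨h3, h4, h5⟩ := h2
    rw [abs_lt] at h3 h4 h5
    exact hq ⟨⟨h3.1.le, h3.2.le⟩, ⟨h4.1.le, h4.2.le⟩, ⟨h5.1.le, h5.2.le⟩⟩
  simp [(h q this).2]

include hφ hc in
theorem int_B2 (D : ℝ × ℝ → ℝ) (hD : ∀ R : ℝ, 0 ≤ R → IntegrableOn D (Icc (-R) R ×ˢ Icc (-R) R))
    (η : ℝ → ℝ) (hη : Measurable η) (M : ℝ) (hM : ∀ t, |η t| ≤ M) :
    Integrable (fun q : ℝ × (ℝ × ℝ) => φ (V q) * (η q.1 * D q.2)) := by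
  have h1 := int_B φ hφ hc D hD
  have h2 := h1.bdd_mul (c := M) (f := fun q : ℝ × (ℝ × ℝ) => η q.1)
    (hη.comp measurable_fst).aestronglyMeasurable
    (Eventually.of_forall fun q => by rw [Real.norm_eq_abs]; exact hM _)
  refine h2.congr (Eventually.of_forall fun q => ?_)
  simp only
  ring

include hφ hc in
theorem weakT (U : ℝ × ℝ → ℝ) (hU : Continuous U) (η η' : ℝ → ℝ) (C : ℝ≥0) (hη : LipschitzWith C η)
    (hη' : ∀ᵐ t, HasDerivAt η (η' t) t) (hm : Measurable η') (M : ℝ) (hM : ∀ t, |η' t| ≤ M) :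
    ∫ q : ℝ × (ℝ × ℝ), fderiv ℝ φ (V q) ((1:ℝ), (0 : Fin 2 → ℝ)) * (η q.1 * U q.2) =
      - ∫ q : ℝ × (ℝ × ℝ), φ (V q) * (η' q.1 * U q.2) := by
  obtain ⟨R, hR, h⟩ := exists_R φ hc
  have hcη := hη.continuous
  have hA := int_A2 φ hφ hc ((1:ℝ), (0 : Fin 2 → ℝ)) (fun q => η q.1 * U q.2) (by fun_prop)
  have hB := int_B2 φ hφ hc U (fun R _ => (hU.continuousOn.integrableOn_compact
    (isCompact_Icc.prod isCompact_Icc))) η' hm M hM
  rw [Measure.volume_eq_prod] at hA hB ⊢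
  rw [integral_prod_symm _ hA, integral_prod_symm _ hB, ← integral_neg]
  refine integral_congr_ae (Eventually.of_forall ?_)
  rintro ⟨a, b⟩
  simp only
  have := ibp_ac (fun t => η t * U (a, b)) (fun t => η' t * U (a, b)) (fun t => φ (V (t, (a, b))))
    (fun t => fderiv ℝ φ (V (t, (a, b))) ((1:ℝ), (0 : Fin 2 → ℝ)))
    (C * ‖U (a, b)‖₊) (by
      refine LipschitzWith.of_dist_le_mul fun s t => ?_
      have h1 := hη.dist_le_mul s t
      rw [Real.dist_eq] at h1 ⊢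
      rw [← sub_mul, abs_mul, NNReal.coe_mul, coe_nnnorm, Real.norm_eq_abs]
      calc |η s - η t| * |U (a, b)| ≤ (C * dist s t) * |U (a, b)| :=
            mul_le_mul_of_nonneg_right h1 (abs_nonneg _)
        _ = C * |U (a, b)| * dist s t := by ring)
    (hη'.mono fun t ht => ht.mul_const _) R hR
    (fun t => (hasFDerivAt_phi φ hφ _).comp_hasDerivAt t (line_t t a b))
    ((cont_fderiv φ hφ _).comp (by fun_prop : Continuous fun t : ℝ => (t, ((a, b) : ℝ × ℝ))))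
    (fun t ht => (h (t, (a, b)) (Or.inl ht)).1)
    (fun t ht => by simp [(h (t, (a, b)) (Or.inl ht)).2])
  exact this

include hφ hc in
theorem weakA (U D : ℝ × ℝ → ℝ) (hU : Continuous U)
    (hD : ∀ R : ℝ, 0 ≤ R → IntegrableOn D (Icc (-R) R ×ˢ Icc (-R) R))
    (hlip : ∀ᵐ b, ∃ C : ℝ≥0, LipschitzWith C (fun a => U (a, b)))
    (hder : ∀ᵐ b, ∀ᵐ a, HasDerivAt (fun a => U (a, b)) (D (a, b)) a)
    (η : ℝ → ℝ) (hη : Continuous η) (M : ℝ) (hM : ∀ t, |η t| ≤ M) :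
    ∫ q : ℝ × (ℝ × ℝ), fderiv ℝ φ (V q) ((0:ℝ), (Pi.single 0 (1:ℝ) : Fin 2 → ℝ)) * (η q.1 * U q.2) =
      - ∫ q : ℝ × (ℝ × ℝ), φ (V q) * (η q.1 * D q.2) := by
  obtain ⟨R, hR, h⟩ := exists_R φ hc
  refine fubini3 _ _ (int_A2 φ hφ hc _ (fun q => η q.1 * U q.2) (by fun_prop))
    (int_B2 φ hφ hc D hD η hη.measurable M hM) ?_
  intro t
  filter_upwards [hlip, hder] with b hb1 hb2
  obtain ⟨C, hC⟩ := hb1
  have := ibp_ac (fun a => U (a, b)) (fun a => D (a, b)) (fun a => φ (V (t, (a, b))))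
      (fun a => fderiv ℝ φ (V (t, (a, b))) ((0:ℝ), (Pi.single 0 (1:ℝ) : Fin 2 → ℝ))) C hC hb2 R hR
      (fun a => (hasFDerivAt_phi φ hφ _).comp_hasDerivAt a (line_a t a b))
      ((cont_fderiv φ hφ _).comp (by fun_prop : Continuous fun a : ℝ => (t, ((a, b) : ℝ × ℝ))))
      (fun a ht => (h (t, (a, b)) (Or.inr (Or.inl ht))).1)
      (fun a ht => by simp [(h (t, (a, b)) (Or.inr (Or.inl ht))).2])
  have e1 : ∀ a, fderiv ℝ φ (V (t, (a, b))) ((0:ℝ), (Pi.single 0 (1:ℝ) : Fin 2 → ℝ)) *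
      (η t * U (a, b)) = η t * (fderiv ℝ φ (V (t, (a, b))) ((0:ℝ), (Pi.single 0 (1:ℝ) : Fin 2 → ℝ)) *
      U (a, b)) := fun a => by ring
  have e2 : ∀ a, φ (V (t, (a, b))) * (η t * D (a, b)) = η t * (φ (V (t, (a, b))) * D (a, b)) :=
    fun a => by ring
  simp only [e1, e2]
  rw [integral_const_mul, integral_const_mul, this]
  ring

include hφ hc in
theorem weakB (U D : ℝ × ℝ → ℝ) (hU : Continuous U)
    (hD : ∀ R : ℝ, 0 ≤ R → IntegrableOn D (Icc (-R) R ×ˢ Icc (-R) R))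
    (hlip : ∀ᵐ a, ∃ C : ℝ≥0, LipschitzWith C (fun b => U (a, b)))
    (hder : ∀ᵐ a, ∀ᵐ b, HasDerivAt (fun b => U (a, b)) (D (a, b)) b)
    (η : ℝ → ℝ) (hη : Continuous η) (M : ℝ) (hM : ∀ t, |η t| ≤ M) :
    ∫ q : ℝ × (ℝ × ℝ), fderiv ℝ φ (V q) ((0:ℝ), (Pi.single 1 (1:ℝ) : Fin 2 → ℝ)) * (η q.1 * U q.2) =
      - ∫ q : ℝ × (ℝ × ℝ), φ (V q) * (η q.1 * D q.2) := by
  obtain ⟨R, hR, h⟩ := exists_R φ hc
  refine fubini3' _ _ (int_A2 φ hφ hc _ (fun q => η q.1 * U q.2) (by fun_prop))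
    (int_B2 φ hφ hc D hD η hη.measurable M hM) ?_
  intro t
  filter_upwards [hlip, hder] with a hb1 hb2
  obtain ⟨C, hC⟩ := hb1
  have := ibp_ac (fun b => U (a, b)) (fun b => D (a, b)) (fun b => φ (V (t, (a, b))))
      (fun b => fderiv ℝ φ (V (t, (a, b))) ((0:ℝ), (Pi.single 1 (1:ℝ) : Fin 2 → ℝ))) C hC hb2 R hR
      (fun b => (hasFDerivAt_phi φ hφ _).comp_hasDerivAt b (line_b t a b))
      ((cont_fderiv φ hφ _).comp (by fun_prop : Continuous fun b : ℝ => (t, ((a, b) : ℝ × ℝ))))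
      (fun b ht => (h (t, (a, b)) (Or.inr (Or.inr ht))).1)
      (fun b ht => by simp [(h (t, (a, b)) (Or.inr (Or.inr ht))).2])
  have e1 : ∀ b, fderiv ℝ φ (V (t, (a, b))) ((0:ℝ), (Pi.single 1 (1:ℝ) : Fin 2 → ℝ)) *
      (η t * U (a, b)) = η t * (fderiv ℝ φ (V (t, (a, b))) ((0:ℝ), (Pi.single 1 (1:ℝ) : Fin 2 → ℝ)) *
      U (a, b)) := fun b => by ring
  have e2 : ∀ b, φ (V (t, (a, b))) * (η t * D (a, b)) = η t * (φ (V (t, (a, b))) * D (a, b)) :=
    fun b => by ring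
  simp only [e1, e2]
  rw [integral_const_mul, integral_const_mul, this]
  ring

end test

end Pool.Agent.Lib.B7ins
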