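import Mathlib
import Pool.Agent.Lib.MP_b7ec12_an.Ins.NonAC
import Pool.Agent.Lib.MP_b7ec12_an.Ins.Weak2

set_option autoImplicit false
open MeasureTheory Set Filter Topology
open scoped ENNReal NNReal

namespace Pool.Agent.Lib.B7ins

/-- choice of the co-dimensions -/
theorem exists_par (p r : ℝ) (hp : 1 ≤ p) (hr : 1 ≤ r) (hpr : 1 < 1/p + 1/r) :
    ∃ (q : Par) (D e : ℝ), q.l ^ (1-D) = 1/2 ∧ q.L ^ (1-e) = 1/2 ∧ 0 ≤ D ∧ D < 1 ∧ 0 ≤ e ∧ 0 < e ∧
      e * (p-1) < D ∧ D * (r-1) < e := by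
  have hP : (p-1)*(r-1) < 1 := by
    have h1 : 1/p + 1/r = (p + r)/(p*r) := by field_simp; ring
    rw [h1, lt_div_iff₀ (by positivity)] at hpr
    nlinarith
  set t : ℝ := (r-1) + (1 - (p-1)*(r-1))/p with ht
  have hε : 0 < (1 - (p-1)*(r-1))/p := div_pos (by linarith) (by linarith)
  have ht0 : 0 < t := by rw [ht]; linarith
  have ht1 : r - 1 < t := by rw [ht]; linarith
  have ht2 : t * (p-1) < 1 := by
    have h1 : t * (p-1) = (p-1)*(r-1) + (1 - (p-1)*(r-1)) * ((p-1)/p) := by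
      rw [ht]; field_simp
    have h2 : (p-1)/p < 1 := by rw [div_lt_one (by linarith)]; linarith
    rw [h1]
    nlinarith
  have key : ∀ D : ℝ, 0 < D → D < 1 → (1/2:ℝ) ^ (1/(1-D)) < 1/2 ∧ 0 < (1/2:ℝ) ^ (1/(1-D)) ∧
      ((1/2:ℝ) ^ (1/(1-D))) ^ (1-D) = 1/2 := by
    intro D hD0 hD1
    have h1 : 1 < 1/(1-D) := by rw [lt_div_iff₀ (by linarith)]; linarith
    refine ⟨?_, by positivity, ?_⟩
    · calc (1/2:ℝ) ^ (1/(1-D)) < (1/2:ℝ) ^ (1:ℝ) :=
          Real.rpow_lt_rpow_of_exponent_gt (by norm_num) (by norm_num) h1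
        _ = 1/2 := by rw [Real.rpow_one]
    · rw [← Real.rpow_mul (by norm_num), one_div_mul_cancel (by linarith), Real.rpow_one]
  have hD0 : 0 < 1/(2*(1+t)) := by positivity
  have hD1 : 1/(2*(1+t)) < 1 := by rw [div_lt_one (by positivity)]; linarith
  have he0 : 0 < t/(2*(1+t)) := by positivity
  have he1 : t/(2*(1+t)) < 1 := by rw [div_lt_one (by positivity)]; linarith
  obtain ⟨a1, a2, a3⟩ := key _ hD0 hD1
  obtain ⟨b1, b2, b3⟩ := key _ he0 he1
  refine ⟨⟨_, _, a2, a1, b2, b1⟩, _, _, a3, b3, hD0.le, hD1, he0.le, he0, ?_, ?_⟩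
  · rw [div_mul_eq_mul_div, div_lt_div_iff_of_pos_right (by positivity)]; exact ht2
  · rw [div_mul_eq_mul_div, one_mul, div_lt_div_iff_of_pos_right (by positivity)]; exact ht1

/-- unit square -/
abbrev QQ : Set (Fin 2 → ℝ) := Set.pi Set.univ fun _ : Fin 2 => Set.Ico (0:ℝ) 1

/-- periodic functions: translates have the same integral over the unit square -/
theorem lint_translate (F : ℝ × ℝ → ℝ≥0∞) (hF : Measurable F)
    (hper : ∀ (z : ℝ × ℝ) (k m : ℤ), F (z.1 + k, z.2 + m) = F z) (v : ℝ × ℝ) :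
    ∫⁻ z in Q2, F (z + v) = ∫⁻ z in Q2, F z := by
  have h1 : ∀ z, F (Par.frp z) = F z := by
    intro z
    have := hper (Par.frp z) ⌊z.1⌋ ⌊z.2⌋
    rw [← this]
    congr 1
    exact (Par.frp_split z).symm
  calc ∫⁻ z in Q2, F (z + v) = ∫⁻ z in Q2, F (Par.frp (z + v)) := by simp_rw [h1]
    _ = ∫⁻ z in Q2, F z := (mp2 v).lintegral_comp hF

theorem box_eq (R : ℝ) (hR : 0 ≤ R) : Metric.closedBall (0 : Fin 2 → ℝ) R =
    (MeasurableEquiv.finTwoArrow (α := ℝ)) ⁻¹' (Icc (-R) R ×ˢ Icc (-R) R) := by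
  ext x
  rw [mem_closedBall_zero_iff, pi_norm_le_iff_of_nonneg hR, Fin.forall_fin_two,
    mem_preimage, mem_prod, Real.norm_eq_abs, Real.norm_eq_abs, abs_le, abs_le]
  rfl

theorem memLp_comp (F : ℝ × ℝ → ℝ) (hF : Measurable F)
    (hper : ∀ (z : ℝ × ℝ) (k m : ℤ), F (z.1 + k, z.2 + m) = F z) (p : ℝ) (hp : 1 ≤ p)
    (hfin : ∫⁻ z in Q2, ‖F z‖ₑ ^ p < ∞) (v : ℝ × ℝ) (η : ℝ → ℝ) (hη : Measurable η) (M : ℝ)
    (hM : ∀ t, |η t| ≤ M) (T R : ℝ) :
    MemLp (fun y : ℝ × (Fin 2 → ℝ) => η y.1 * F ((y.2 0, y.2 1) + v)) (ENNReal.ofReal p)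
      (volume.restrict (Set.Ioo (0:ℝ) T ×ˢ Metric.closedBall (0 : Fin 2 → ℝ) R)) := by
  rcases lt_or_ge R 0 with hR | hR
  · rw [Metric.closedBall_eq_empty.2 hR]; simp
  have hp0 : ENNReal.ofReal p ≠ 0 := by
    rw [Ne, ENNReal.ofReal_eq_zero]; linarith
  have hbox : ∫⁻ z in (Icc (-R) R) ×ˢ (Icc (-R) R), ‖F (z + v)‖ₑ ^ p < ∞ := by
    refine lint_box (fun z => ‖F (z + v)‖ₑ ^ p) (fun z k m => ?_) ?_ R
    · congr 2
      have := hper (z + v) k m
      rw [← this]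
      congr 1
      ext
      · simp only [Prod.fst_add]; ring
      · simp only [Prod.snd_add]; ring
    · have := lint_translate (fun z => ‖F z‖ₑ ^ p) ((hF.enorm).pow_const p) (fun z k m => by
        rw [hper]) v
      rw [this]; exact hfin
  have hmp : MeasurePreserving (MeasurableEquiv.finTwoArrow (α := ℝ)) volume volume :=
    volume_preserving_finTwoArrow ℝ
  have hmF : Measurable (fun x : Fin 2 → ℝ => F ((x 0, x 1) + v)) := hF.comp (by fun_prop)
  have h1 : MemLp (fun x : Fin 2 → ℝ => F ((x 0, x 1) + v)) (ENNReal.ofReal p)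
      (volume.restrict (Metric.closedBall (0 : Fin 2 → ℝ) R)) := by
    refine ⟨hmF.aestronglyMeasurable, ?_⟩
    rw [eLpNorm_lt_top_iff_lintegral_rpow_enorm_lt_top hp0 ENNReal.ofReal_ne_top,
      ENNReal.toReal_ofReal (by linarith), box_eq R hR]
    have := hmp.setLIntegral_comp_preimage_emb (MeasurableEquiv.measurableEmbedding _)
      (fun z => ‖F (z + v)‖ₑ ^ p) (Icc (-R) R ×ˢ Icc (-R) R)
    refine lt_of_eq_of_lt ?_ hbox
    rw [← this]
    rfl
  have h2 : MemLp (fun y : ℝ × (Fin 2 → ℝ) => F ((y.2 0, y.2 1) + v)) (ENNReal.ofReal p)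
      (volume.restrict (Set.Ioo (0:ℝ) T ×ˢ Metric.closedBall (0 : Fin 2 → ℝ) R)) := by
    rw [Measure.volume_eq_prod, ← Measure.prod_restrict]
    exact h1.comp_snd (volume.restrict (Set.Ioo (0:ℝ) T))
  refine h2.of_le_mul (c := M) ?_ (Eventually.of_forall fun y => ?_)
  · have h3 : Measurable (fun y : ℝ × (Fin 2 → ℝ) => F ((y.2 0, y.2 1) + v)) :=
      hmF.comp measurable_snd
    exact ((hη.comp measurable_fst).mul h3).aestronglyMeasurable
  · rw [norm_mul, Real.norm_eq_abs]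
    exact mul_le_mul_of_nonneg_right (hM _) (norm_nonneg _)

theorem intOn_of_fin (F : ℝ × ℝ → ℝ) (hF : Measurable F)
    (hper : ∀ (z : ℝ × ℝ) (k m : ℤ), F (z.1 + k, z.2 + m) = F z)
    (hfin : ∫⁻ z in Q2, ‖F z‖ₑ ^ (1:ℝ) < ∞) (v : ℝ × ℝ) (R : ℝ) :
    IntegrableOn (fun z => F (z + v)) (Icc (-R) R ×ˢ Icc (-R) R) := by
  have hm : Measurable (fun z => F (z + v)) := hF.comp (by fun_prop)
  refine ⟨hm.aestronglyMeasurable, ?_⟩
  have h := lint_box (fun z => ‖F (z + v)‖ₑ ^ (1:ℝ)) (fun z k m => by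
    congr 2
    have := hper (z + v) k m
    rw [← this]
    congr 1
    ext
    · simp only [Prod.fst_add]; ring
    · simp only [Prod.snd_add]; ring) (by
    have := lint_translate (fun z => ‖F z‖ₑ ^ (1:ℝ)) ((hF.enorm).pow_const _) (fun z k m => by
      rw [hper]) v
    rw [this]; exact hfin) R
  simp only [ENNReal.rpow_one] at h
  exact h

namespace Par
variable (q : Par)

theorem ae_shift (Q : ℝ → Prop) (hQ : ∀ᵐ x, Q x) (c : ℝ) : ∀ᵐ x, Q (x + c) := by
  have hm : MeasurePreserving (fun r : ℝ => r + c) volume volume := measurePreserving_add_right _ _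
  exact hm.quasiMeasurePreserving.ae hQ

theorem tr_lip1 (v : ℝ × ℝ) : ∀ᵐ b, ∃ C : ℝ≥0, LipschitzWith C (fun a => q.u ((a, b) + v)) := by
  filter_upwards [ae_shift _ q.ae_dd_pos v.2] with b hb
  obtain ⟨C, hC⟩ := q.lip_u1 (b + v.2) hb
  refine ⟨C, LipschitzWith.of_dist_le_mul fun x y => ?_⟩
  have := hC.dist_le_mul (x + v.1) (y + v.1)
  rw [dist_add_right] at this
  exact this

theorem tr_lip2 (v : ℝ × ℝ) : ∀ᵐ a, ∃ C : ℝ≥0, LipschitzWith C (fun b => q.u ((a, b) + v)) := by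
  filter_upwards [ae_shift _ q.ae_wd_pos v.1] with a ha
  obtain ⟨C, hC⟩ := q.lip_u2 (a + v.1) ha
  refine ⟨C, LipschitzWith.of_dist_le_mul fun x y => ?_⟩
  have := hC.dist_le_mul (x + v.2) (y + v.2)
  rw [dist_add_right] at this
  exact this

theorem tr_der1 (v : ℝ × ℝ) : ∀ᵐ b, ∀ᵐ a, HasDerivAt (fun a => q.u ((a, b) + v)) (q.D1 ((a, b) + v)) a := by
  filter_upwards [ae_shift _ q.ae_dd_pos v.2] with b hb
  refine Eventually.of_forall fun a => ?_
  exact (q.hasDerivAt_u1 (a + v.1) (b + v.2) hb).comp_add_const a v.1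

theorem tr_der2 (v : ℝ × ℝ) : ∀ᵐ a, ∀ᵐ b, HasDerivAt (fun b => q.u ((a, b) + v)) (q.D2 ((a, b) + v)) b := by
  filter_upwards [ae_shift _ q.ae_wd_pos v.1] with a ha
  filter_upwards [ae_shift _ (q.dd_lip.ae_differentiableAt) v.2] with b hb
  exact (q.hasDerivAt_u2 (a + v.1) (b + v.2) ha hb).comp_add_const b v.2

end Par

section
variable (q : Par) (N : ℕ) (v : Fin N → ℝ × ℝ) (h : ℝ)

noncomputable def Bf (t : ℝ) (x : Fin 2 → ℝ) : Fin 2 → ℝ :=
  ![(bb q N v h t (x 0, x 1)).1, (bb q N v h t (x 0, x 1)).2]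
noncomputable def Xf (t : ℝ) (x : Fin 2 → ℝ) : Fin 2 → ℝ :=
  ![(XS q N v h t (x 0, x 1)).1, (XS q N v h t (x 0, x 1)).2]
noncomputable def Ff (t : ℝ) (x : Fin 2 → ℝ) : Fin 2 → ℝ := fun _ => fs q N v h t (x 0, x 1)
noncomputable def Ftf (t : ℝ) (x : Fin 2 → ℝ) : Fin 2 → ℝ := fun _ => fst' q N v h t (x 0, x 1)
noncomputable def DFf (t : ℝ) (x : Fin 2 → ℝ) (j : Fin 2) : Fin 2 → ℝ :=
  fun _ => if j = 0 then Ds1 q N v h t (x 0, x 1) else Ds2 q N v h t (x 0, x 1)

theorem et_cont (i : Fin N) : Continuous (et N h i) := by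
  unfold et
  exact (rp_cont _ _).sub (rp_cont _ _)

theorem abs_et_le (i : Fin N) (t : ℝ) : |et N h i t| ≤ 1 := by
  unfold et
  have h1 := rp_nonneg (3*(i:ℝ)*h) h t
  have h2 := rp_le (3*(i:ℝ)*h) h t
  have h3 := rp_nonneg (3*(i:ℝ)*h + 2*h) h t
  have h4 := rp_le (3*(i:ℝ)*h + 2*h) h t
  rw [abs_le]; constructor <;> linarith

theorem et'_meas (i : Fin N) : Measurable (et' N h i) := by
  unfold et'
  exact (dr_meas _ _).sub (dr_meas _ _)

theorem abs_et'_le (hh : 0 < h) (i : Fin N) (t : ℝ) : |et' N h i t| ≤ 2/h := by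
  unfold et'
  have h1 := dr_abs_le (3*(i:ℝ)*h) h t hh
  have h2 := dr_abs_le (3*(i:ℝ)*h + 2*h) h t hh
  refine (abs_sub _ _).trans ?_
  have : 2/h = 1/h + 1/h := by ring
  linarith

theorem sg'_meas (i : Fin N) : Measurable (sg' q N h i) := by
  unfold sg'
  exact (dr_meas _ _).const_mul _

theorem abs_sg'_le (hh : 0 < h) (i : Fin N) (t : ℝ) : |sg' q N h i t| ≤ q.prof.A * (1/h) := by
  unfold sg'
  rw [abs_mul, abs_of_pos q.prof.A_pos]
  exact mul_le_mul_of_nonneg_left (dr_abs_le _ _ _ hh) q.prof.A_pos.le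

theorem int_vec (z : ℝ × ℝ) (k m : ℤ) (w : ℝ × ℝ) :
    ((z.1 + (k:ℝ), z.2 + (m:ℝ)) : ℝ × ℝ) + w = ((z + w).1 + (k:ℝ), (z + w).2 + (m:ℝ)) := by
  ext
  · simp only [Prod.fst_add]; ring
  · simp only [Prod.snd_add]; ring

theorem Bf_per (t : ℝ) (x : Fin 2 → ℝ) (k : Fin 2 → ℤ) :
    Bf q N v h t (x + (fun i => (k i : ℝ))) = Bf q N v h t x := by
  have h1 : bb q N v h t (x 0 + (k 0:ℝ), x 1 + (k 1:ℝ)) = bb q N v h t (x 0, x 1) := by
    unfold bb
    refine Finset.sum_congr rfl fun i _ => ?_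
    rw [int_vec (x 0, x 1), q.vv_add]
  unfold Bf
  simp only [Pi.add_apply]
  rw [h1]

theorem Xf_per (t : ℝ) (x : Fin 2 → ℝ) (k : Fin 2 → ℤ) :
    Xf q N v h t (x + (fun i => (k i : ℝ))) = Xf q N v h t x + (fun i => (k i : ℝ)) := by
  have h1 : XS q N v h t (x 0 + (k 0:ℝ), x 1 + (k 1:ℝ)) =
      XS q N v h t (x 0, x 1) + ((k 0:ℝ), (k 1:ℝ)) := by
    unfold XS
    have h2 : ∀ i, q.XX (sg q N h i t) (((x 0 + (k 0:ℝ), x 1 + (k 1:ℝ)) : ℝ × ℝ) + v i) -
        (((x 0 + (k 0:ℝ), x 1 + (k 1:ℝ)) : ℝ × ℝ) + v i) =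
        q.XX (sg q N h i t) ((x 0, x 1) + v i) - ((x 0, x 1) + v i) := by
      intro i
      rw [int_vec (x 0, x 1), q.XX_add]
      ext
      · simp
      · simp
    rw [Finset.sum_congr rfl fun i _ => h2 i]
    ext
    · simp only [Prod.fst_add]; ring
    · simp only [Prod.snd_add]; ring
  unfold Xf
  simp only [Pi.add_apply]
  rw [h1]
  funext i
  fin_cases i <;> simp

theorem Ff_per (t : ℝ) (x : Fin 2 → ℝ) (k : Fin 2 → ℤ) :
    Ff q N v h t (x + (fun i => (k i : ℝ))) = Ff q N v h t x := by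
  have h1 : fs q N v h t (x 0 + (k 0:ℝ), x 1 + (k 1:ℝ)) = fs q N v h t (x 0, x 1) := by
    unfold fs
    refine Finset.sum_congr rfl fun i _ => ?_
    rw [int_vec (x 0, x 1), q.u_add]
  unfold Ff
  simp only [Pi.add_apply]
  rw [h1]

theorem Bf_meas : Measurable (Function.uncurry (Bf q N v h)) := by
  have h1 : Measurable (fun y : ℝ × (Fin 2 → ℝ) => bb q N v h y.1 (y.2 0, y.2 1)) := by
    unfold bb
    refine Finset.measurable_sum _ fun i _ => ?_
    have h2 : Measurable (fun y : ℝ × (Fin 2 → ℝ) => q.vv ((y.2 0, y.2 1) + v i)) :=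
      q.measurable_vv.comp (by fun_prop)
    exact ((sg'_meas q N h i).comp measurable_fst).smul h2
  unfold Bf
  simp only [Function.uncurry_def]
  refine measurable_pi_iff.2 fun i => ?_
  fin_cases i
  · exact h1.fst
  · exact h1.snd

theorem Xf_meas : Measurable (Function.uncurry (Xf q N v h)) := by
  have h1 : Measurable (fun y : ℝ × (Fin 2 → ℝ) => XS q N v h y.1 (y.2 0, y.2 1)) := by
    unfold XS
    refine Measurable.add (by fun_prop) (Finset.measurable_sum _ fun i _ => ?_)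
    have hs : Continuous (sg q N h i) := by
      unfold sg
      exact continuous_const.mul (rp_cont _ _)
    have h2 : Measurable (fun y : ℝ × (Fin 2 → ℝ) => q.XX (sg q N h i y.1) ((y.2 0, y.2 1) + v i)) :=
      q.measurable_XX.comp (f := fun y : ℝ × (Fin 2 → ℝ) => (sg q N h i y.1, (y.2 0, y.2 1) + v i))
        ((hs.measurable.comp measurable_fst).prodMk (by fun_prop))
    exact h2.sub (by fun_prop)
  unfold Xf
  simp only [Function.uncurry_def]
  refine measurable_pi_iff.2 fun i => ?_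
  fin_cases i
  · exact h1.fst
  · exact h1.snd

theorem Ff_cont : Continuous (Function.uncurry (Ff q N v h)) := by
  unfold Ff
  simp only [Function.uncurry_def]
  refine continuous_pi fun _ => ?_
  unfold fs
  refine continuous_finsetSum _ fun i _ => ?_
  have h2 : Continuous (fun y : ℝ × (Fin 2 → ℝ) => q.u ((y.2 0, y.2 1) + v i)) :=
    q.u_cont.comp (by fun_prop)
  exact ((et_cont N h i).comp continuous_fst).mul h2

theorem Ftf_meas : Measurable (Function.uncurry (Ftf q N v h)) := by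
  unfold Ftf
  simp only [Function.uncurry_def]
  refine measurable_pi_iff.2 fun _ => ?_
  unfold fst'
  refine Finset.measurable_sum _ fun i _ => ?_
  have h2 : Continuous (fun y : ℝ × (Fin 2 → ℝ) => q.u ((y.2 0, y.2 1) + v i)) :=
    q.u_cont.comp (by fun_prop)
  exact ((et'_meas N h i).comp measurable_fst).mul h2.measurable

theorem DFf_meas : Measurable (Function.uncurry (DFf q N v h)) := by
  have hD : ∀ D : ℝ × ℝ → ℝ, Measurable D → Measurable (fun y : ℝ × (Fin 2 → ℝ) =>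
      ∑ i, et N h i y.1 * D ((y.2 0, y.2 1) + v i)) := by
    intro D hD
    refine Finset.measurable_sum _ fun i _ => ?_
    have h2 : Measurable (fun y : ℝ × (Fin 2 → ℝ) => D ((y.2 0, y.2 1) + v i)) :=
      hD.comp (by fun_prop)
    exact ((et_cont N h i).measurable.comp measurable_fst).mul h2
  have h1 := hD _ q.measurable_D1
  have h2 := hD _ q.measurable_D2
  unfold DFf
  simp only [Function.uncurry_def]
  refine measurable_pi_iff.2 fun j => measurable_pi_iff.2 fun _ => ?_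
  fin_cases j
  · exact h1
  · exact h2

section
variable (hh : 0 < h)
include hh

theorem traj_ok (T : ℝ) (hT : 0 ≤ T) (x : Fin 2 → ℝ) : Xf q N v h 0 x = x ∧
    IntegrableOn (fun t => Bf q N v h t (Xf q N v h t x)) (Set.Icc 0 T) ∧
    ∀ t ∈ Set.Icc (0:ℝ) T, Xf q N v h t x = x + ∫ s in (0:ℝ)..t, Bf q N v h s (Xf q N v h s x) := by
  have h0 : Xf q N v h 0 x = x := by
    unfold Xf
    rw [XS_zero q N v h hh]
    ext i; fin_cases i <;> rfl
  have hB : ∀ s, Bf q N v h s (Xf q N v h s x) =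
      ![(bb q N v h s (XS q N v h s (x 0, x 1))).1, (bb q N v h s (XS q N v h s (x 0, x 1))).2] := by
    intro s
    unfold Bf Xf
    simp
  have hI : ∀ t, 0 ≤ t → IntegrableOn (fun t => Bf q N v h t (Xf q N v h t x)) (Set.Icc 0 t) := by
    intro t ht
    obtain ⟨k1, k2, _, _⟩ := traj q N v h hh (x 0, x 1) t ht
    rw [intervalIntegrable_iff_integrableOn_Icc_of_le ht] at k1 k2
    simp_rw [hB]
    refine Integrable.of_eval fun i => ?_
    fin_cases i
    · exact k1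
    · exact k2
  refine ⟨h0, hI T hT, fun t ht => ?_⟩
  obtain ⟨_, _, k3, k4⟩ := traj q N v h hh (x 0, x 1) t ht.1
  have hev : ∀ i, (∫ s in (0:ℝ)..t, Bf q N v h s (Xf q N v h s x)) i =
      ∫ s in (0:ℝ)..t, Bf q N v h s (Xf q N v h s x) i := by
    intro i
    rw [intervalIntegral.integral_of_le ht.1, intervalIntegral.integral_of_le ht.1]
    exact eval_integral (fun i => (((hI t ht.1).mono_set Ioc_subset_Icc_self).eval i)) i
  ext i
  rw [Pi.add_apply, hev]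
  simp_rw [hB]
  fin_cases i
  · show (XS q N v h t (x 0, x 1)).1 = x 0 + ∫ s in (0:ℝ)..t, (bb q N v h s (XS q N v h s (x 0, x 1))).1
    rw [k3]; ring
  · show (XS q N v h t (x 0, x 1)).2 = x 1 + ∫ s in (0:ℝ)..t, (bb q N v h s (XS q N v h s (x 0, x 1))).2
    rw [k4]; ring

theorem mp_ok (i0 : Fin N) (t : ℝ) :
    Measure.map (fun x i => Int.fract (Xf q N v h t x i)) (volume.restrict QQ) = volume.restrict QQ := by
  set E := (MeasurableEquiv.finTwoArrow (α := ℝ)) with hE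
  have hmp : MeasurePreserving E volume volume := volume_preserving_finTwoArrow ℝ
  have hQ : QQ = E ⁻¹' (Ico (0:ℝ) 1 ×ˢ Ico (0:ℝ) 1) := by
    ext x
    simp only [QQ, Set.mem_pi, mem_univ, true_imp_iff, Fin.forall_fin_two, mem_preimage, mem_prod]
    rfl
  have h1 : MeasurePreserving E (volume.restrict QQ) (volume.restrict (Ico (0:ℝ) 1 ×ˢ Ico (0:ℝ) 1)) := by
    rw [hQ]
    exact hmp.restrict_preimage (measurableSet_Ico.prod measurableSet_Ico)
  have h2 := mpS q N v h hh i0 t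
  have h3 : MeasurePreserving E.symm (volume.restrict (Ico (0:ℝ) 1 ×ˢ Ico (0:ℝ) 1)) (volume.restrict QQ) :=
    h1.symm E
  have h4 := (h3.comp h2).comp h1
  have h5 : (fun (x : Fin 2 → ℝ) i => Int.fract (Xf q N v h t x i)) =
      (E.symm ∘ (fun z => Par.frp (XS q N v h t z))) ∘ E := by
    funext x i
    fin_cases i <;> rfl
  rw [h5]
  exact h4.map_eq

theorem BD_zero (t : ℝ) (x : Fin 2 → ℝ) : ∑ j : Fin 2, Bf q N v h t x j • DFf q N v h t x j = 0 := by
  have h1 := bb_D_zero q N v h hh t (x 0, x 1)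
  funext i
  simp only [Fin.sum_univ_two, Bf, DFf, Matrix.cons_val_zero, Matrix.cons_val_one, Pi.add_apply,
    Pi.smul_apply, smul_eq_mul, if_true, Pi.zero_apply]
  simpa using h1

theorem Ftf_bdd : ∃ M : ℝ, ∀ t x, ‖Ftf q N v h t x‖ ≤ M := by
  refine ⟨∑ _i : Fin N, 2/h, fun t x => ?_⟩
  rw [pi_norm_le_iff_of_nonneg (Finset.sum_nonneg fun _ _ => by positivity)]
  intro _
  unfold Ftf fst'
  rw [Real.norm_eq_abs]
  refine (Finset.abs_sum_le_sum_abs _ _).trans (Finset.sum_le_sum fun i _ => ?_)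
  rw [abs_mul]
  have h1 := abs_et'_le N h hh i t
  have h2 := q.abs_u_le ((x 0, x 1) + v i)
  have h3 := abs_nonneg (et' N h i t)
  nlinarith [abs_nonneg (q.u ((x 0, x 1) + v i))]

end

end

end Pool.Agent.Lib.B7ins
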