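import Mathlib
import Pool.Agent.Lib.MP_b7ec12_an.Ins.Final

set_option autoImplicit false
open MeasureTheory Set Filter Topology
open scoped ENNReal NNReal

namespace Pool.Agent.Lib.B7ins

open Pool.Agent.Lib.B7ec12 (V integral_V)

theorem const_smul_pi (s : ℝ) (r : ℝ) :
    s • (fun _ : Fin 2 => r) = (s * r) • (fun _ : Fin 2 => (1:ℝ)) := by
  funext i
  simp

/-- weak derivatives of vector valued functions with equal components -/
theorem weak_vec (φ : ℝ × (Fin 2 → ℝ) → ℝ) (w : ℝ × (Fin 2 → ℝ)) (f g : ℝ × (ℝ × ℝ) → ℝ)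
    (hw : ∫ y : ℝ × (ℝ × ℝ), fderiv ℝ φ (V y) w * f y = - ∫ y : ℝ × (ℝ × ℝ), φ (V y) * g y)
    (f2 g2 : ℝ × (Fin 2 → ℝ) → (Fin 2 → ℝ)) (hf : ∀ y, f2 (V y) = fun _ => f y)
    (hg : ∀ y, g2 (V y) = fun _ => g y) :
    (∫ p, fderiv ℝ φ p w • f2 p) = - ∫ p, φ p • g2 p := by
  have e1 : (∫ p, fderiv ℝ φ p w • f2 p) =
      (∫ y : ℝ × (ℝ × ℝ), fderiv ℝ φ (V y) w * f y) • (fun _ : Fin 2 => (1:ℝ)) := by
    rw [integral_V, ← integral_smul_const]
    refine integral_congr_ae (Eventually.of_forall fun y => ?_)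
    simp only
    rw [hf]
    exact const_smul_pi _ _
  have e2 : (∫ p, φ p • g2 p) =
      (∫ y : ℝ × (ℝ × ℝ), φ (V y) * g y) • (fun _ : Fin 2 => (1:ℝ)) := by
    rw [integral_V, ← integral_smul_const]
    refine integral_congr_ae (Eventually.of_forall fun y => ?_)
    simp only
    rw [hg]
    exact const_smul_pi _ _
  rw [e1, e2, hw, neg_smul]

theorem fin_D (q : Par) (D e r : ℝ) (hD : q.l ^ (1-D) = 1/2) (he : q.L ^ (1-e) = 1/2) (hD0 : 0 ≤ D)
    (hD1 : D < 1) (hr : 1 ≤ r) (h : D * (r-1) < e) :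
    ∫⁻ z in Q2, ‖q.D1 z‖ₑ ^ r < ∞ ∧ ∫⁻ z in Q2, ‖q.D2 z‖ₑ ^ r < ∞ :=
  ⟨q.lint_of_le D e r hD he hD0 hD1 hr h q.D1 q.abs_D1_le,
    q.lint_of_le D e r hD he hD0 hD1 hr h q.D2 q.abs_D2_le⟩

theorem fin_u (q : Par) (r : ℝ) (hr : 1 ≤ r) : ∫⁻ z in Q2, ‖q.u z‖ₑ ^ r < ∞ := by
  have h1 : ∀ z, ‖q.u z‖ₑ ^ r ≤ 1 := by
    intro z
    have h2 : ‖q.u z‖ₑ ≤ 1 := by
      rw [← ofReal_norm, Real.norm_eq_abs]
      exact ENNReal.ofReal_le_one.2 (q.abs_u_le z)
    exact ENNReal.rpow_le_one h2 (by linarith)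
  refine (lintegral_mono fun z => h1 z).trans_lt ?_
  rw [lintegral_one, Measure.restrict_apply MeasurableSet.univ, univ_inter, Measure.volume_eq_prod,
    Measure.prod_prod]
  simp

theorem fin_v (q : Par) (D e p : ℝ) (hD : q.l ^ (1-D) = 1/2) (he : q.L ^ (1-e) = 1/2) (he0 : 0 ≤ e)
    (hp : 1 ≤ p) (h : e * (p-1) < D) :
    ∫⁻ z in Q2, ‖(q.vv z).1‖ₑ ^ p < ∞ ∧ ∫⁻ z in Q2, ‖(q.vv z).2‖ₑ ^ p < ∞ := by
  have h0 := q.lint_vv D e p hD he he0 hp h
  constructor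
  · refine (lintegral_mono fun z => ?_).trans_lt h0
    refine ENNReal.rpow_le_rpow ?_ (by linarith)
    rw [← ofReal_norm, ← ofReal_norm]
    exact ENNReal.ofReal_le_ofReal (norm_fst_le _)
  · refine (lintegral_mono fun z => ?_).trans_lt h0
    refine ENNReal.rpow_le_rpow ?_ (by linarith)
    rw [← ofReal_norm, ← ofReal_norm]
    exact ENNReal.ofReal_le_ofReal (norm_snd_le _)

section
variable (q : Par) (N : ℕ) (v : Fin N → ℝ × ℝ) (h : ℝ) (hh : 0 < h)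

include hh in
theorem memLp_B (D e p : ℝ) (hD : q.l ^ (1-D) = 1/2) (he : q.L ^ (1-e) = 1/2) (he0 : 0 ≤ e)
    (hp : 1 ≤ p) (hlt : e * (p-1) < D) (T R : ℝ) :
    MemLp (Function.uncurry (Bf q N v h)) (ENNReal.ofReal p)
      (volume.restrict (Set.Ioo (0:ℝ) T ×ˢ Metric.closedBall (0 : Fin 2 → ℝ) R)) := by
  obtain ⟨f1, f2⟩ := fin_v q D e p hD he he0 hp hlt
  refine MemLp.of_eval fun j => ?_
  fin_cases j
  · have : ∀ y : ℝ × (Fin 2 → ℝ), Function.uncurry (Bf q N v h) y 0 =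
        ∑ i, sg' q N h i y.1 * (fun z => (q.vv z).1) ((y.2 0, y.2 1) + v i) := by
      intro y
      show (bb q N v h y.1 (y.2 0, y.2 1)).1 = _
      unfold bb
      rw [Prod.fst_sum]
      rfl
    simp only [Fin.zero_eta, this]
    exact memLp_finsetSum _ fun i _ => memLp_comp (fun z => (q.vv z).1) q.measurable_vv.fst
      (fun z k m => by simp only [q.vv_add]) p hp f1 (v i) _ (sg'_meas q N h i) _
      (abs_sg'_le q N h hh i) T R
  · have : ∀ y : ℝ × (Fin 2 → ℝ), Function.uncurry (Bf q N v h) y 1 =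
        ∑ i, sg' q N h i y.1 * (fun z => (q.vv z).2) ((y.2 0, y.2 1) + v i) := by
      intro y
      show (bb q N v h y.1 (y.2 0, y.2 1)).2 = _
      unfold bb
      rw [Prod.snd_sum]
      rfl
    simp only [Fin.mk_one, this]
    exact memLp_finsetSum _ fun i _ => memLp_comp (fun z => (q.vv z).2) q.measurable_vv.snd
      (fun z k m => by simp only [q.vv_add]) p hp f2 (v i) _ (sg'_meas q N h i) _
      (abs_sg'_le q N h hh i) T R

include hh in
theorem memLp_Ft (r : ℝ) (hr : 1 ≤ r) (T R : ℝ) :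
    MemLp (Function.uncurry (Ftf q N v h)) (ENNReal.ofReal r)
      (volume.restrict (Set.Ioo (0:ℝ) T ×ˢ Metric.closedBall (0 : Fin 2 → ℝ) R)) := by
  refine MemLp.of_eval fun j => ?_
  have : ∀ y : ℝ × (Fin 2 → ℝ), Function.uncurry (Ftf q N v h) y j =
      ∑ i, et' N h i y.1 * q.u ((y.2 0, y.2 1) + v i) := fun y => rfl
  simp only [this]
  exact memLp_finsetSum _ fun i _ => memLp_comp q.u q.u_cont.measurable q.u_add r hr
    (fin_u q r hr) (v i) _ (et'_meas N h i) _ (abs_et'_le N h hh i) T R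

theorem memLp_DF (D e r : ℝ) (hD : q.l ^ (1-D) = 1/2) (he : q.L ^ (1-e) = 1/2) (hD0 : 0 ≤ D)
    (hD1 : D < 1) (hr : 1 ≤ r) (hlt : D * (r-1) < e) (T R : ℝ) :
    MemLp (Function.uncurry (DFf q N v h)) (ENNReal.ofReal r)
      (volume.restrict (Set.Ioo (0:ℝ) T ×ˢ Metric.closedBall (0 : Fin 2 → ℝ) R)) := by
  obtain ⟨f1, f2⟩ := fin_D q D e r hD he hD0 hD1 hr hlt
  refine MemLp.of_eval fun j => MemLp.of_eval fun k => ?_
  fin_cases j
  · have : ∀ y : ℝ × (Fin 2 → ℝ), Function.uncurry (DFf q N v h) y 0 k =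
        ∑ i, et N h i y.1 * q.D1 ((y.2 0, y.2 1) + v i) := fun y => rfl
    simp only [Fin.zero_eta, this]
    exact memLp_finsetSum _ fun i _ => memLp_comp q.D1 q.measurable_D1 q.D1_add r hr
      f1 (v i) _ (et_cont N h i).measurable 1 (abs_et_le N h i) T R
  · have : ∀ y : ℝ × (Fin 2 → ℝ), Function.uncurry (DFf q N v h) y 1 k =
        ∑ i, et N h i y.1 * q.D2 ((y.2 0, y.2 1) + v i) := fun y => rfl
    simp only [Fin.mk_one, this]
    exact memLp_finsetSum _ fun i _ => memLp_comp q.D2 q.measurable_D2 q.D2_add r hr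
      f2 (v i) _ (et_cont N h i).measurable 1 (abs_et_le N h i) T R

section weak
variable (φ : ℝ × (Fin 2 → ℝ) → ℝ) (hφ : ContDiff ℝ 1 φ) (hc : HasCompactSupport φ)

include hφ hc in
/-- weak derivatives of finite sums -/
theorem weak_sum (w : ℝ × (Fin 2 → ℝ)) (η η' : Fin N → ℝ → ℝ) (U D : Fin N → ℝ × ℝ → ℝ)
    (hη : ∀ i, Continuous (η i)) (hη' : ∀ i, Measurable (η' i)) (M : ℝ) (hM : ∀ i t, |η' i t| ≤ M)
    (hU : ∀ i, Continuous (U i))
    (hD : ∀ i, ∀ R : ℝ, 0 ≤ R → IntegrableOn (D i) (Icc (-R) R ×ˢ Icc (-R) R))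
    (hw : ∀ i, ∫ y : ℝ × (ℝ × ℝ), fderiv ℝ φ (V y) w * (η i y.1 * U i y.2) =
      - ∫ y : ℝ × (ℝ × ℝ), φ (V y) * (η' i y.1 * D i y.2)) :
    ∫ y : ℝ × (ℝ × ℝ), fderiv ℝ φ (V y) w * (∑ i, η i y.1 * U i y.2) =
      - ∫ y : ℝ × (ℝ × ℝ), φ (V y) * (∑ i, η' i y.1 * D i y.2) := by
  simp_rw [Finset.mul_sum]
  rw [integral_finsetSum, integral_finsetSum, ← Finset.sum_neg_distrib]
  · exact Finset.sum_congr rfl fun i _ => hw i
  · intro i _
    exact int_B2 φ hφ hc (D i) (hD i) (η' i) (hη' i) M (hM i)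
  · intro i _
    have h1 := hη i
    have h2 := hU i
    exact int_A2 φ hφ hc w (fun y => η i y.1 * U i y.2) (by fun_prop)

theorem et_lip (hh : 0 < h) (i : Fin N) : ∃ C : ℝ≥0, LipschitzWith C (et N h i) := by
  unfold et
  exact ⟨_, (rp_lip _ _ hh).sub (rp_lip _ _ hh)⟩

theorem et_der (hh : 0 < h) (i : Fin N) : ∀ᵐ t, HasDerivAt (et N h i) (et' N h i t) t := by
  filter_upwards [rp_deriv (3*(i:ℝ)*h) h hh, rp_deriv (3*(i:ℝ)*h + 2*h) h hh] with t h1 h2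
  exact h1.sub h2

include hφ hc hh in
theorem weak_ok (D e : ℝ) (hD : q.l ^ (1-D) = 1/2) (he : q.L ^ (1-e) = 1/2) (hD0 : 0 ≤ D)
    (hD1 : D < 1) (he0 : 0 < e) :
    ((∫ p, fderiv ℝ φ p ((1:ℝ), (0 : Fin 2 → ℝ)) • Ff q N v h p.1 p.2)
        = - ∫ p : ℝ × (Fin 2 → ℝ), φ p • Ftf q N v h p.1 p.2) ∧
     ∀ j : Fin 2,
       (∫ p, fderiv ℝ φ p ((0:ℝ), (Pi.single j (1:ℝ) : Fin 2 → ℝ)) • Ff q N v h p.1 p.2)
         = - ∫ p, φ p • DFf q N v h p.1 p.2 j := by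
  obtain ⟨f1, f2⟩ := fin_D q D e 1 hD he hD0 hD1 le_rfl (by simpa using he0)
  have hUc : ∀ i : Fin N, Continuous (fun z : ℝ × ℝ => q.u (z + v i)) := fun i =>
    q.u_cont.comp (by fun_prop)
  have hI1 : ∀ i : Fin N, ∀ R : ℝ, 0 ≤ R → IntegrableOn (fun z => q.D1 (z + v i))
      (Icc (-R) R ×ˢ Icc (-R) R) := fun i R _ =>
    intOn_of_fin q.D1 q.measurable_D1 q.D1_add f1 (v i) R
  have hI2 : ∀ i : Fin N, ∀ R : ℝ, 0 ≤ R → IntegrableOn (fun z => q.D2 (z + v i))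
      (Icc (-R) R ×ˢ Icc (-R) R) := fun i R _ =>
    intOn_of_fin q.D2 q.measurable_D2 q.D2_add f2 (v i) R
  constructor
  · refine weak_vec φ _ (fun y => fs q N v h y.1 y.2) (fun y => fst' q N v h y.1 y.2) ?_
      (fun p => Ff q N v h p.1 p.2) (fun p => Ftf q N v h p.1 p.2) (fun y => rfl) (fun y => rfl)
    refine weak_sum N φ hφ hc _ (fun i => et N h i) (fun i => et' N h i)
      (fun i z => q.u (z + v i)) (fun i z => q.u (z + v i)) (et_cont N h) (et'_meas N h) (2/h)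
      (abs_et'_le N h hh) hUc
      (fun i R _ => (hUc i).continuousOn.integrableOn_compact (isCompact_Icc.prod isCompact_Icc)) ?_
    intro i
    obtain ⟨C, hC⟩ := et_lip N h hh i
    exact weakT φ hφ hc (fun z => q.u (z + v i)) (hUc i) (et N h i) (et' N h i) C hC
      (et_der N h hh i) (et'_meas N h i) (2/h) (abs_et'_le N h hh i)
  · intro j
    fin_cases j
    · refine weak_vec φ _ (fun y => fs q N v h y.1 y.2) (fun y => Ds1 q N v h y.1 y.2) ?_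
        (fun p => Ff q N v h p.1 p.2) (fun p => DFf q N v h p.1 p.2 0) (fun y => rfl) (fun y => rfl)
      refine weak_sum N φ hφ hc _ (fun i => et N h i) (fun i => et N h i)
        (fun i z => q.u (z + v i)) (fun i z => q.D1 (z + v i)) (et_cont N h)
        (fun i => (et_cont N h i).measurable) 1 (abs_et_le N h) hUc hI1 ?_
      intro i
      exact weakA φ hφ hc (fun z => q.u (z + v i)) (fun z => q.D1 (z + v i)) (hUc i) (hI1 i)
        (q.tr_lip1 (v i)) (q.tr_der1 (v i)) (et N h i) (et_cont N h i) 1 (abs_et_le N h i)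
    · refine weak_vec φ _ (fun y => fs q N v h y.1 y.2) (fun y => Ds2 q N v h y.1 y.2) ?_
        (fun p => Ff q N v h p.1 p.2) (fun p => DFf q N v h p.1 p.2 1) (fun y => rfl) (fun y => rfl)
      refine weak_sum N φ hφ hc _ (fun i => et N h i) (fun i => et N h i)
        (fun i z => q.u (z + v i)) (fun i z => q.D2 (z + v i)) (et_cont N h)
        (fun i => (et_cont N h i).measurable) 1 (abs_et_le N h) hUc hI2 ?_
      intro i
      exact weakB φ hφ hc (fun z => q.u (z + v i)) (fun z => q.D2 (z + v i)) (hUc i) (hI2 i)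
        (q.tr_lip2 (v i)) (q.tr_der2 (v i)) (et N h i) (et_cont N h i) 1 (abs_et_le N h i)

end weak

include hh in
theorem not_ac_vec (T : ℝ) (hT : 3 * (N:ℝ) * h = T) (x : Fin 2 → ℝ) (i : Fin N)
    (hM : q.InM ((x 0, x 1) + v i)) :
    ¬ ∃ g : ℝ → (Fin 2 → ℝ), IntegrableOn g (Set.Icc (0:ℝ) T) ∧ ∀ t ∈ Set.Icc (0:ℝ) T,
      Ff q N v h t (Xf q N v h t x) = Ff q N v h 0 (Xf q N v h 0 x) + ∫ s in (0:ℝ)..t, g s := by
  rintro ⟨g, hg, hgt⟩
  refine not_ac q N v h hh T hT (x 0, x 1) i hM ⟨fun s => g s 0, hg.eval 0, fun t ht => ?_⟩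
  have h1 := congrFun (hgt t ht) 0
  have h2 : (∫ s in (0:ℝ)..t, g s) 0 = ∫ s in (0:ℝ)..t, g s 0 := by
    rw [intervalIntegral.integral_of_le ht.1, intervalIntegral.integral_of_le ht.1]
    exact eval_integral (fun i => (((hg.mono_set (Icc_subset_Icc le_rfl ht.2)).mono_set
      Ioc_subset_Icc_self).eval i)) 0
  rw [Pi.add_apply, h2] at h1
  exact h1

end

end Pool.Agent.Lib.B7ins
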